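import Pool.Agent.Run7.h188.IsoE
import Pool.Agent.TH408.KF.K24

set_option autoImplicit false
set_option exponentiation.threshold 5000

/-! The exponent for 4-fold sums and products of sets of integers. -/

namespace Run7.h188.Iso

open Finset Pool.Agent.N811.IS
open Pool.Agent.W798.KF (sm pr pKST pIM)
open Pool.Agent.W741.KF (sm_ne pr_ne pr_pos)
open scoped Pointwise

lemma prodset_zero' (A : Finset ℤ) : (prodset fun _ : Fin 0 => A) = {1} := by
  unfold prodset
  ext x
  simp

lemma prodset_succ' (k : ℕ) (A : Finset ℤ) :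
    (prodset fun _ : Fin (k + 1) => A) = A * prodset fun _ : Fin k => A := by
  ext x
  rw [mem_prodset, Finset.mem_mul]
  constructor
  · rintro ⟨f, hf, rfl⟩
    refine ⟨f 0, hf 0, ∏ i : Fin k, f i.succ, ?_, ?_⟩
    · rw [mem_prodset]
      exact ⟨fun i => f i.succ, fun i => hf _, rfl⟩
    · rw [Fin.prod_univ_succ]
  · rintro ⟨a, ha, y, hy, rfl⟩
    rw [mem_prodset] at hy
    obtain ⟨g, hg, rfl⟩ := hy
    refine ⟨Fin.cons a g, fun i => ?_, ?_⟩
    · refine Fin.cases ?_ (fun j => ?_) i
      · simpa using ha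
      · simpa using hg j
    · rw [Fin.prod_univ_succ]
      simp

lemma prodset_two (A : Finset ℤ) : (prodset fun _ : Fin 2 => A) = A * A := by
  rw [prodset_succ' 1, prodset_succ' 0, prodset_zero', Finset.mul_singleton]
  simp

theorem star42 : Star 4 (9 / 16) (3 / 16) := by
  have h := star_rat 4 9 7 (by norm_num) (by norm_num) (by norm_num) (c := 3 / 16)
    (a := 42031 / 50000) (b := 84063 / 100000) (by norm_num) (by norm_num) (by norm_num)
    (by norm_num) (by norm_num) (by norm_num) (by norm_num)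
  have e : (((9 : ℕ) : ℝ) / (((9 : ℕ) : ℝ) + ((7 : ℕ) : ℝ))) = 9 / 16 := by norm_num
  rwa [e] at h

theorem star22 : Star 2 (3 / 4) (1413 / 10000) := by
  have h := star_rat 2 3 1 (by norm_num) (by norm_num) (by norm_num) (c := 1413 / 10000)
    (a := 54368 / 100000) (b := 54369 / 100000) (by norm_num) (by norm_num) (by norm_num)
    (by norm_num) (by norm_num) (by norm_num) (by norm_num)
  have e : (((3 : ℕ) : ℝ) / (((3 : ℕ) : ℝ) + ((1 : ℕ) : ℝ))) = 3 / 4 := by norm_num
  rwa [e] at h

/-- the linear programme -/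
theorem lp4 {L x1 x2 x3 y1 y2 y3 k E M : ℝ} (hL : 0 ≤ L) (hk : 0 ≤ k) (hE : 0 ≤ E)
    (h1 : 3 * L + x1 + y2 ≤ k + 2 * x2 + 2 * y3)
    (h2 : 255 * L ≤ E + 105 * x1 + 79 * y1 + 6 * x2)
    (h3 : (1 + 9 / 7) * L + 91 / 121 * x1 ≤ x2 + 9 / 7 * y3)
    (h4 : (1 + 9 / 7) * L + 91 / 121 * x2 ≤ x3 + 9 / 7 * y3)
    (h5 : L + 89 / 110 * x2 + (1 + 3) * y1 ≤ x3 + y2 + 3 * y3)
    (h6 : x3 ≤ M) (h7 : y3 ≤ M) : 3677 / 2500 * L ≤ M + (k + E) := by
  linarith

theorem four_pos (d : ℝ) (hd : 0 < d) : ∃ C : ℝ, 0 ≤ C ∧ ∀ B : Finset ℤ, B.Nonempty →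
    (∀ b ∈ B, 0 < b) → (3677 / 2500 - d) * Real.log B.card - C ≤
      Real.log (max ((sumset 4 B).card : ℝ) ((prodset fun _ : Fin 4 => B).card : ℝ)) := by
  refine ⟨Real.log 512 + Pool.Agent.TH408.KF.cst4 d,
    add_nonneg (Real.log_nonneg (by norm_num)) (Pool.Agent.TH408.KF.cst4_nonneg d), ?_⟩
  intro B hB hBp
  -- the real set
  set A : Finset ℝ := B.image (Int.castRingHom ℝ) with hA
  have hinj : Function.Injective (Int.castRingHom ℝ) := Int.cast_injective
  have hAne : A.Nonempty := hB.image _
  have hAcard : A.card = B.card := Finset.card_image_of_injective _ hinj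
  have hApos : ∀ x ∈ A, 0 < x := by
    intro x hx
    obtain ⟨b, hb, rfl⟩ := Finset.mem_image.1 hx
    have := hBp b hb
    simp only [eq_intCast]
    exact_mod_cast this
  have hsm : ∀ j, (sm A j).card = (sumset (j + 1) B).card := fun j => (pIM ℤ _ hinj B j).1
  have hpr : ∀ j, (pr A j).card = (prodset fun _ : Fin (j + 1) => B).card :=
    fun j => (pIM ℤ _ hinj B j).2
  have cs : ∀ j, (1:ℝ) ≤ ((sumset j B).card : ℝ) := fun j => by
    exact_mod_cast (sumset_nonempty j hB).card_pos
  have cp : ∀ j, (1:ℝ) ≤ ((prodset fun _ : Fin (j + 1) => B).card : ℝ) := fun j => by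
    have := card_le_prodset vrInt (fun _ : Fin (j + 1) => B) (fun _ => hB) (fun _ => hBp)
      ⟨0, by omega⟩
    have h2 := hB.card_pos
    exact_mod_cast (show 1 ≤ _ from by omega)
  have cB : (1:ℝ) ≤ B.card := by exact_mod_cast hB.card_pos
  set L := Real.log B.card with hL
  have hL0 : 0 ≤ L := Real.log_nonneg cB
  set M : ℝ := max ((sumset 4 B).card : ℝ) ((prodset fun _ : Fin 4 => B).card : ℝ) with hM
  -- KST
  have h1 : 3 * L + Real.log (sumset 2 B).card + Real.log (prodset fun _ : Fin 3 => B).card ≤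
      Real.log 512 + 2 * Real.log (sumset 3 B).card +
        2 * Real.log (prodset fun _ : Fin 4 => B).card := by
    have h := pKST A (sm A 1) (pr A 2) hApos (fun g hg => (pr_pos A hApos 2 g hg).ne')
    have h' : (A.card : ℝ) ^ 3 * ((sm A 1).card : ℝ) * ((pr A 2).card : ℝ) ≤
        512 * ((sm A 2).card : ℝ) ^ 2 * ((pr A 3).card : ℝ) ^ 2 := by
      exact_mod_cast h
    rw [hAcard, hsm 1, hsm 2, hpr 2, hpr 3] at h'
    have a1 := cs 2
    have a2 := cs 3
    have a3 := cp 2
    have a4 := cp 3
    have h2 := Real.log_le_log (by positivity) h'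
    rw [Real.log_mul (by positivity) (by positivity), Real.log_mul (by positivity) (by positivity),
      Real.log_mul (by positivity) (by positivity), Real.log_mul (by positivity) (by positivity),
      Real.log_pow, Real.log_pow, Real.log_pow] at h2
    push_cast at h2
    linarith
  -- ci4
  have h2 : 255 * L ≤ (d * L + Pool.Agent.TH408.KF.cst4 d) + 105 * Real.log (sumset 2 B).card +
      79 * Real.log (prodset fun _ : Fin 2 => B).card + 6 * Real.log (sumset 3 B).card := by
    have h := Pool.Agent.TH408.KF.ci4 Pool.Agent.TH408.SP.pAS4 Pool.Agent.TH408.SP.pDY3 hd A hAne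
      hApos
    have e1 : (A + A).card = (sumset 2 B).card := hsm 1
    have e2 : (A * A).card = (prodset fun _ : Fin 2 => B).card := hpr 1
    have e3 : (A + (A + A)).card = (sumset 3 B).card := hsm 2
    rw [e1, e2, e3, hAcard] at h
    linarith
  -- isoperimetric inequality
  have iso : ∀ j, (1 + 9 / 7) * L + 91 / 121 * Real.log (sumset j B).card ≤
      Real.log (sumset (j + 1) B).card + 9 / 7 * Real.log (prodset fun _ : Fin 4 => B).card := by
    intro j
    have h := iso_one2 vrInt (n := 4) (θ := 91 / 121) (c := 3 / 16) (γ := 9 / 16) (β := 9 / 7)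
      (by norm_num) (by norm_num) (by norm_num) (by norm_num)
      (two_pow_ge 121 30 (by norm_num) (by norm_num) (by norm_num) (by norm_num)) (by norm_num)
      (by norm_num) star42 (by norm_num) B hB hBp (sumset j B) (sumset_nonempty j hB)
    rw [← sumset_succ] at h
    have a1 := cs j
    have a2 := cs (j + 1)
    have a4 := cp 3
    have h2 := Real.log_le_log (by positivity) h
    rw [Real.log_mul (by positivity) (by positivity), Real.log_mul (by positivity) (by positivity),
      Real.log_rpow (by positivity), Real.log_rpow (by positivity),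
      Real.log_rpow (by positivity)] at h2
    exact h2
  -- dilation inequality
  have h5 : L + 89 / 110 * Real.log (sumset 3 B).card +
      (1 + 3) * Real.log (prodset fun _ : Fin 2 => B).card ≤
      Real.log (sumset 4 B).card + Real.log (prodset fun _ : Fin 3 => B).card +
        3 * Real.log (prodset fun _ : Fin 4 => B).card := by
    have hQpos : ∀ b ∈ (prodset fun _ : Fin 2 => B), 0 < b := by
      intro b hb
      rw [prodset_two] at hb
      obtain ⟨x, hx, y, hy, rfl⟩ := Finset.mem_mul.1 hb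
      exact mul_pos (hBp x hx) (hBp y hy)
    have hQne : (prodset fun _ : Fin 2 => B).Nonempty := by
      rw [prodset_two]; exact hB.mul hB
    have h := dilation (n := 2) (θ := 89 / 110) (c := 1413 / 10000) (γ := 3 / 4) (β := 3)
      (by norm_num) (by norm_num) (by norm_num) (by norm_num)
      (two_pow_ge 110 21 (by norm_num) (by norm_num) (by norm_num) (by norm_num)) (by norm_num)
      (by norm_num) star22 (by norm_num) B (prodset fun _ : Fin 2 => B) (sumset 3 B)
      (fun h0 => lt_irrefl _ (hBp 0 h0)) hQne hQpos (sumset_nonempty 3 hB)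
    rw [← sumset_succ] at h
    have e1 : B * (prodset fun _ : Fin 2 => B) = prodset fun _ : Fin 3 => B :=
      (prodset_succ' 2 B).symm
    have e2 : (prodset fun _ : Fin 2 => (prodset fun _ : Fin 2 => B)) =
        prodset fun _ : Fin 4 => B := by
      rw [prodset_two, prodset_succ' 3, prodset_succ' 2, prodset_two, mul_assoc]
    rw [e1, e2] at h
    have a1 := cs 3
    have a2 := cs 4
    have a3 := cp 1
    have a4 := cp 2
    have a5 := cp 3
    have h2 := Real.log_le_log (by positivity) h
    rw [Real.log_mul (by positivity) (by positivity), Real.log_mul (by positivity) (by positivity),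
      Real.log_mul (by positivity) (by positivity), Real.log_mul (by positivity) (by positivity),
      Real.log_rpow (by positivity), Real.log_rpow (by positivity),
      Real.log_rpow (by positivity)] at h2
    linarith
  have h6 : Real.log (sumset 4 B).card ≤ Real.log M :=
    Real.log_le_log (by linarith [cs 4]) (le_max_left _ _)
  have h7 : Real.log (prodset fun _ : Fin 4 => B).card ≤ Real.log M :=
    Real.log_le_log (by linarith [cp 3]) (le_max_right _ _)
  have hfin := lp4 (k := Real.log 512) (E := d * L + Pool.Agent.TH408.KF.cst4 d) hL0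
    (Real.log_nonneg (by norm_num))
    (add_nonneg (by positivity) (Pool.Agent.TH408.KF.cst4_nonneg d)) h1 h2 (iso 2) (iso 3) h5 h6 h7
  linarith

/-- 4-fold sums and products of sets of integers -/
theorem four (κ : ℝ) (hκ : κ < 3677 / 2500) : ∃ c : ℝ, 0 < c ∧ ∀ A : Finset ℤ, A.Nonempty →
    c * (A.card : ℝ) ^ κ ≤
      max ((sumset 4 A).card : ℝ) ((prodset fun _ : Fin 4 => A).card : ℝ) := by
  -- positive exponent suffices
  obtain ⟨d, hd0, hd1, hd2⟩ : ∃ d : ℝ, 0 < d ∧ κ ≤ 3677 / 2500 - d ∧ 0 ≤ 3677 / 2500 - d := by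
    refine ⟨min (3677 / 2500 - κ) 1, lt_min (by linarith) one_pos, ?_, ?_⟩
    · have := min_le_left (3677 / 2500 - κ) 1
      linarith
    · have := min_le_right (3677 / 2500 - κ) 1
      linarith
  obtain ⟨C, hC, H⟩ := four_pos d hd0
  set e : ℝ := 3677 / 2500 - d with he
  refine ⟨Real.exp (-C) / 3 ^ e, by positivity, ?_⟩
  intro A hA
  have cA : (1:ℝ) ≤ A.card := by exact_mod_cast hA.card_pos
  set M : ℝ := max ((sumset 4 A).card : ℝ) ((prodset fun _ : Fin 4 => A).card : ℝ) with hM
  have hM1 : 1 ≤ M := by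
    refine le_trans ?_ (le_max_left _ _)
    exact_mod_cast (sumset_nonempty 4 hA).card_pos
  have hstep : (A.card : ℝ) ^ κ ≤ (A.card : ℝ) ^ e := Real.rpow_le_rpow_of_exponent_le cA hd1
  refine (mul_le_mul_of_nonneg_left hstep (by positivity)).trans ?_
  have e1 : Real.exp (-C) / 3 ^ e * (A.card : ℝ) ^ e = Real.exp (-C) * ((A.card : ℝ) / 3) ^ e := by
    rw [Real.div_rpow (by positivity) (by norm_num)]
    ring
  rw [e1]
  have hexp1 : Real.exp (-C) ≤ 1 := by
    rw [Real.exp_le_one_iff]; linarith
  by_cases h0 : A = {0}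
  · have h1 : ((A.card : ℝ) / 3) ^ e ≤ 1 := by
      rw [h0, Finset.card_singleton]
      exact Real.rpow_le_one (by norm_num) (by norm_num) hd2
    calc Real.exp (-C) * ((A.card : ℝ) / 3) ^ e ≤ 1 * 1 :=
          mul_le_mul hexp1 h1 (by positivity) zero_le_one
      _ ≤ M := by linarith
  · obtain ⟨B, hB, hBp, hAB, hs, hp⟩ := Pool.Agent.H201R3.SPk.taskG A hA h0
    have h1 : (A.card : ℝ) / 3 ≤ B.card := by
      rw [div_le_iff₀ (by norm_num)]
      have : (A.card : ℝ) ≤ 3 * B.card := by exact_mod_cast hAB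
      linarith
    have cB : (1:ℝ) ≤ B.card := by exact_mod_cast hB.card_pos
    have h2 : ((A.card : ℝ) / 3) ^ e ≤ (B.card : ℝ) ^ e := Real.rpow_le_rpow (by positivity) h1 hd2
    have h3 := H B hB hBp
    have h4 : max ((sumset 4 B).card : ℝ) ((prodset fun _ : Fin 4 => B).card : ℝ) ≤ M :=
      max_le_max (by exact_mod_cast hs 4) (by exact_mod_cast hp 4)
    refine le_trans ?_ h4
    have h5 : (1:ℝ) ≤ max ((sumset 4 B).card : ℝ) ((prodset fun _ : Fin 4 => B).card : ℝ) := by
      refine le_trans ?_ (le_max_left _ _)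
      exact_mod_cast (sumset_nonempty 4 hB).card_pos
    calc Real.exp (-C) * ((A.card : ℝ) / 3) ^ e ≤ Real.exp (-C) * (B.card : ℝ) ^ e :=
          mul_le_mul_of_nonneg_left h2 (Real.exp_pos _).le
      _ = Real.exp (-C + e * Real.log B.card) := by
          rw [Real.exp_add, mul_comm e, ← Real.rpow_def_of_pos (by linarith)]
      _ ≤ Real.exp (Real.log (max ((sumset 4 B).card : ℝ)
            ((prodset fun _ : Fin 4 => B).card : ℝ))) := Real.exp_le_exp.2 (by linarith)
      _ = _ := Real.exp_log (by linarith)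

end Run7.h188.Iso
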