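import Pool.Agent.Run7.h188.IsoE

set_option autoImplicit false
set_option exponentiation.threshold 5000

/-! Explicit exponents. -/

namespace Run7.h188.Iso

open Finset Pool.Agent.N811.IS

theorem star5 : Star 5 (8 / 15) (1747 / 10000) := by
  have h := star_rat 5 8 7 (by norm_num) (by norm_num) (by norm_num) (c := 1747 / 10000)
    (a := 81379 / 100000) (b := 4069 / 5000) (by norm_num) (by norm_num) (by norm_num) (by norm_num)
    (by norm_num) (by norm_num) (by norm_num)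
  have e : (((8 : ℕ) : ℝ) / (((8 : ℕ) : ℝ) + ((7 : ℕ) : ℝ))) = 8 / 15 := by norm_num
  rwa [e] at h

/-- `N = 5` -/
theorem ex5 (A : Finset ℤ) (hA : A.Nonempty) :
    ((A.card : ℝ) / 3) ^ ((3059 / 2000) : ℝ) ≤
      max ((sumset 5 A).card : ℝ) ((prodset fun _ : Fin 5 => A).card : ℝ) := by
  refine expo_all (N := 5) (by norm_num) (fun B hB hBp => ?_) A hA
  have h5 : (5 : ℝ) ≤ ((3 + 2 : ℕ) : ℝ) ^ (((1 : ℕ) : ℝ) / ((1 : ℕ) : ℝ)) :=
    five_le 1 1 (by norm_num) (by norm_num)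
  exact expo_pos (m := 2) (θ := 76 / 99) (c := 1747 / 10000) (γ := 8 / 15) (β := 8 / 7)
    (β₃ := ((1 : ℕ) : ℝ) / ((1 : ℕ) : ℝ)) (e := 3059 / 2000) (by norm_num) (by norm_num)
    (by norm_num) (two_pow_ge 99 23 (by norm_num) (by norm_num) (by norm_num) (by norm_num))
    (by norm_num) (by norm_num) star5 (by norm_num) h5 (by norm_num [xs]) (by norm_num [xs])
    B hB hBp

theorem star6 : Star 6 (14 / 27) (1577 / 10000) := by
  have h := star_rat 6 14 13 (by norm_num) (by norm_num) (by norm_num) (c := 1577 / 10000)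
    (a := 22041 / 25000) (b := 17633 / 20000) (by norm_num) (by norm_num) (by norm_num) (by norm_num)
    (by norm_num) (by norm_num) (by norm_num)
  have e : (((14 : ℕ) : ℝ) / (((14 : ℕ) : ℝ) + ((13 : ℕ) : ℝ))) = 14 / 27 := by norm_num
  rwa [e] at h

/-- `N = 6` -/
theorem ex6 (A : Finset ℤ) (hA : A.Nonempty) :
    ((A.card : ℝ) / 3) ^ ((15861 / 10000) : ℝ) ≤
      max ((sumset 6 A).card : ℝ) ((prodset fun _ : Fin 6 => A).card : ℝ) := by
  refine expo_all (N := 6) (by norm_num) (fun B hB hBp => ?_) A hA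
  have h5 : (5 : ℝ) ≤ ((3 + 3 : ℕ) : ℝ) ^ (((53 : ℕ) : ℝ) / ((59 : ℕ) : ℝ)) :=
    five_le 53 59 (by norm_num) (by norm_num)
  exact expo_pos (m := 3) (θ := 56 / 71) (c := 1577 / 10000) (γ := 14 / 27) (β := 14 / 13)
    (β₃ := ((53 : ℕ) : ℝ) / ((59 : ℕ) : ℝ)) (e := 15861 / 10000) (by norm_num) (by norm_num)
    (by norm_num) (two_pow_ge 71 15 (by norm_num) (by norm_num) (by norm_num) (by norm_num))
    (by norm_num) (by norm_num) star6 (by norm_num) h5 (by norm_num [xs]) (by norm_num [xs])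
    B hB hBp

theorem star7 : Star 7 (1 / 2) (771 / 5000) := by
  have h := star_rat 7 1 1 (by norm_num) (by norm_num) (by norm_num) (c := 771 / 5000)
    (a := 8333 / 50000) (b := 16667 / 100000) (by norm_num) (by norm_num) (by norm_num) (by norm_num)
    (by norm_num) (by norm_num) (by norm_num)
  have e : (((1 : ℕ) : ℝ) / (((1 : ℕ) : ℝ) + ((1 : ℕ) : ℝ))) = 1 / 2 := by norm_num
  rwa [e] at h

/-- `N = 7` -/
theorem ex7 (A : Finset ℤ) (hA : A.Nonempty) :
    ((A.card : ℝ) / 3) ^ ((8169 / 5000) : ℝ) ≤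
      max ((sumset 7 A).card : ℝ) ((prodset fun _ : Fin 7 => A).card : ℝ) := by
  refine expo_all (N := 7) (by norm_num) (fun B hB hBp => ?_) A hA
  have h5 : (5 : ℝ) ≤ ((3 + 4 : ℕ) : ℝ) ^ (((24 : ℕ) : ℝ) / ((29 : ℕ) : ℝ)) :=
    five_le 24 29 (by norm_num) (by norm_num)
  exact expo_pos (m := 4) (θ := 23 / 29) (c := 771 / 5000) (γ := 1 / 2) (β := 1)
    (β₃ := ((24 : ℕ) : ℝ) / ((29 : ℕ) : ℝ)) (e := 8169 / 5000) (by norm_num) (by norm_num)
    (by norm_num) (two_pow_ge 29 6 (by norm_num) (by norm_num) (by norm_num) (by norm_num))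
    (by norm_num) (by norm_num) star7 (by norm_num) h5 (by norm_num [xs]) (by norm_num [xs])
    B hB hBp

theorem star8 : Star 8 (10 / 21) (1629 / 10000) := by
  have h := star_rat 8 10 11 (by norm_num) (by norm_num) (by norm_num) (c := 1629 / 10000)
    (a := 84041 / 100000) (b := 42021 / 50000) (by norm_num) (by norm_num) (by norm_num) (by norm_num)
    (by norm_num) (by norm_num) (by norm_num)
  have e : (((10 : ℕ) : ℝ) / (((10 : ℕ) : ℝ) + ((11 : ℕ) : ℝ))) = 10 / 21 := by norm_num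
  rwa [e] at h

/-- `N = 8` -/
theorem ex8 (A : Finset ℤ) (hA : A.Nonempty) :
    ((A.card : ℝ) / 3) ^ ((4187 / 2500) : ℝ) ≤
      max ((sumset 8 A).card : ℝ) ((prodset fun _ : Fin 8 => A).card : ℝ) := by
  refine expo_all (N := 8) (by norm_num) (fun B hB hBp => ?_) A hA
  have h5 : (5 : ℝ) ≤ ((3 + 5 : ℕ) : ℝ) ^ (((24 : ℕ) : ℝ) / ((31 : ℕ) : ℝ)) :=
    five_le 24 31 (by norm_num) (by norm_num)
  exact expo_pos (m := 5) (θ := 97 / 124) (c := 1629 / 10000) (γ := 10 / 21) (β := 10 / 11)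
    (β₃ := ((24 : ℕ) : ℝ) / ((31 : ℕ) : ℝ)) (e := 4187 / 2500) (by norm_num) (by norm_num)
    (by norm_num) (two_pow_ge 124 27 (by norm_num) (by norm_num) (by norm_num) (by norm_num))
    (by norm_num) (by norm_num) star8 (by norm_num) h5 (by norm_num [xs]) (by norm_num [xs])
    B hB hBp

theorem star9 : Star 9 (8 / 17) (1521 / 10000) := by
  have h := star_rat 9 8 9 (by norm_num) (by norm_num) (by norm_num) (c := 1521 / 10000)
    (a := 2491 / 3125) (b := 79713 / 100000) (by norm_num) (by norm_num) (by norm_num) (by norm_num)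
    (by norm_num) (by norm_num) (by norm_num)
  have e : (((8 : ℕ) : ℝ) / (((8 : ℕ) : ℝ) + ((9 : ℕ) : ℝ))) = 8 / 17 := by norm_num
  rwa [e] at h

/-- `N = 9` -/
theorem ex9 (A : Finset ℤ) (hA : A.Nonempty) :
    ((A.card : ℝ) / 3) ^ ((1069 / 625) : ℝ) ≤
      max ((sumset 9 A).card : ℝ) ((prodset fun _ : Fin 9 => A).card : ℝ) := by
  refine expo_all (N := 9) (by norm_num) (fun B hB hBp => ?_) A hA
  have h5 : (5 : ℝ) ≤ ((3 + 6 : ℕ) : ℝ) ^ (((11 : ℕ) : ℝ) / ((15 : ℕ) : ℝ)) :=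
    five_le 11 15 (by norm_num) (by norm_num)
  exact expo_pos (m := 6) (θ := 74 / 93) (c := 1521 / 10000) (γ := 8 / 17) (β := 8 / 9)
    (β₃ := ((11 : ℕ) : ℝ) / ((15 : ℕ) : ℝ)) (e := 1069 / 625) (by norm_num) (by norm_num)
    (by norm_num) (two_pow_ge 93 19 (by norm_num) (by norm_num) (by norm_num) (by norm_num))
    (by norm_num) (by norm_num) star9 (by norm_num) h5 (by norm_num [xs]) (by norm_num [xs])
    B hB hBp

theorem star10 : Star 10 (11 / 24) (381 / 2500) := by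
  have h := star_rat 10 11 13 (by norm_num) (by norm_num) (by norm_num) (c := 381 / 2500)
    (a := 21199 / 25000) (b := 84797 / 100000) (by norm_num) (by norm_num) (by norm_num) (by norm_num)
    (by norm_num) (by norm_num) (by norm_num)
  have e : (((11 : ℕ) : ℝ) / (((11 : ℕ) : ℝ) + ((13 : ℕ) : ℝ))) = 11 / 24 := by norm_num
  rwa [e] at h

/-- `N = 10` -/
theorem ex10 (A : Finset ℤ) (hA : A.Nonempty) :
    ((A.card : ℝ) / 3) ^ ((871 / 500) : ℝ) ≤
      max ((sumset 10 A).card : ℝ) ((prodset fun _ : Fin 10 => A).card : ℝ) := by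
  refine expo_all (N := 10) (by norm_num) (fun B hB hBp => ?_) A hA
  have h5 : (5 : ℝ) ≤ ((3 + 7 : ℕ) : ℝ) ^ (((7 : ℕ) : ℝ) / ((10 : ℕ) : ℝ)) :=
    five_le 7 10 (by norm_num) (by norm_num)
  exact expo_pos (m := 7) (θ := 101 / 127) (c := 381 / 2500) (γ := 11 / 24) (β := 11 / 13)
    (β₃ := ((7 : ℕ) : ℝ) / ((10 : ℕ) : ℝ)) (e := 871 / 500) (by norm_num) (by norm_num)
    (by norm_num) (two_pow_ge 127 26 (by norm_num) (by norm_num) (by norm_num) (by norm_num))
    (by norm_num) (by norm_num) star10 (by norm_num) h5 (by norm_num [xs]) (by norm_num [xs])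
    B hB hBp

theorem star11 : Star 11 (9 / 20) (1499 / 10000) := by
  have h := star_rat 11 9 11 (by norm_num) (by norm_num) (by norm_num) (c := 1499 / 10000)
    (a := 81569 / 100000) (b := 8157 / 10000) (by norm_num) (by norm_num) (by norm_num) (by norm_num)
    (by norm_num) (by norm_num) (by norm_num)
  have e : (((9 : ℕ) : ℝ) / (((9 : ℕ) : ℝ) + ((11 : ℕ) : ℝ))) = 9 / 20 := by norm_num
  rwa [e] at h

/-- `N = 11` -/
theorem ex11 (A : Finset ℤ) (hA : A.Nonempty) :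
    ((A.card : ℝ) / 3) ^ ((2213 / 1250) : ℝ) ≤
      max ((sumset 11 A).card : ℝ) ((prodset fun _ : Fin 11 => A).card : ℝ) := by
  refine expo_all (N := 11) (by norm_num) (fun B hB hBp => ?_) A hA
  have h5 : (5 : ℝ) ≤ ((3 + 8 : ℕ) : ℝ) ^ (((49 : ℕ) : ℝ) / ((73 : ℕ) : ℝ)) :=
    five_le 49 73 (by norm_num) (by norm_num)
  exact expo_pos (m := 8) (θ := 103 / 129) (c := 1499 / 10000) (γ := 9 / 20) (β := 9 / 11)
    (β₃ := ((49 : ℕ) : ℝ) / ((73 : ℕ) : ℝ)) (e := 2213 / 1250) (by norm_num) (by norm_num)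
    (by norm_num) (two_pow_ge 129 26 (by norm_num) (by norm_num) (by norm_num) (by norm_num))
    (by norm_num) (by norm_num) star11 (by norm_num) h5 (by norm_num [xs]) (by norm_num [xs])
    B hB hBp

theorem star12 : Star 12 (4 / 9) (1457 / 10000) := by
  have h := star_rat 12 4 5 (by norm_num) (by norm_num) (by norm_num) (c := 1457 / 10000)
    (a := 62727 / 100000) (b := 7841 / 12500) (by norm_num) (by norm_num) (by norm_num) (by norm_num)
    (by norm_num) (by norm_num) (by norm_num)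
  have e : (((4 : ℕ) : ℝ) / (((4 : ℕ) : ℝ) + ((5 : ℕ) : ℝ))) = 4 / 9 := by norm_num
  rwa [e] at h

/-- `N = 12` -/
theorem ex12 (A : Finset ℤ) (hA : A.Nonempty) :
    ((A.card : ℝ) / 3) ^ ((17957 / 10000) : ℝ) ≤
      max ((sumset 12 A).card : ℝ) ((prodset fun _ : Fin 12 => A).card : ℝ) := by
  refine expo_all (N := 12) (by norm_num) (fun B hB hBp => ?_) A hA
  have h5 : (5 : ℝ) ≤ ((3 + 9 : ℕ) : ℝ) ^ (((46 : ℕ) : ℝ) / ((71 : ℕ) : ℝ)) :=
    five_le 46 71 (by norm_num) (by norm_num)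
  exact expo_pos (m := 9) (θ := 86 / 107) (c := 1457 / 10000) (γ := 4 / 9) (β := 4 / 5)
    (β₃ := ((46 : ℕ) : ℝ) / ((71 : ℕ) : ℝ)) (e := 17957 / 10000) (by norm_num) (by norm_num)
    (by norm_num) (two_pow_ge 107 21 (by norm_num) (by norm_num) (by norm_num) (by norm_num))
    (by norm_num) (by norm_num) star12 (by norm_num) h5 (by norm_num [xs]) (by norm_num [xs])
    B hB hBp

theorem star13 : Star 13 (4 / 9) (13601 / 100000) := by
  have h := star_rat 13 4 5 (by norm_num) (by norm_num) (by norm_num) (c := 13601 / 100000)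
    (a := 30801 / 50000) (b := 61603 / 100000) (by norm_num) (by norm_num) (by norm_num) (by norm_num)
    (by norm_num) (by norm_num) (by norm_num)
  have e : (((4 : ℕ) : ℝ) / (((4 : ℕ) : ℝ) + ((5 : ℕ) : ℝ))) = 4 / 9 := by norm_num
  rwa [e] at h

/-- `N = 13` -/
theorem ex13 (A : Finset ℤ) (hA : A.Nonempty) :
    ((A.card : ℝ) / 3) ^ ((1819 / 1000) : ℝ) ≤
      max ((sumset 13 A).card : ℝ) ((prodset fun _ : Fin 13 => A).card : ℝ) := by
  refine expo_all (N := 13) (by norm_num) (fun B hB hBp => ?_) A hA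
  have h5 : (5 : ℝ) ≤ ((3 + 10 : ℕ) : ℝ) ^ (((27 : ℕ) : ℝ) / ((43 : ℕ) : ℝ)) :=
    five_le 27 43 (by norm_num) (by norm_num)
  exact expo_pos (m := 10) (θ := 102 / 125) (c := 13601 / 100000) (γ := 4 / 9) (β := 4 / 5)
    (β₃ := ((27 : ℕ) : ℝ) / ((43 : ℕ) : ℝ)) (e := 1819 / 1000) (by norm_num) (by norm_num)
    (by norm_num) (two_pow_ge 125 23 (by norm_num) (by norm_num) (by norm_num) (by norm_num))
    (by norm_num) (by norm_num) star13 (by norm_num) h5 (by norm_num [xs]) (by norm_num [xs])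
    B hB hBp

theorem star14 : Star 14 (7 / 16) (6787 / 50000) := by
  have h := star_rat 14 7 9 (by norm_num) (by norm_num) (by norm_num) (c := 6787 / 50000)
    (a := 75779 / 100000) (b := 3789 / 5000) (by norm_num) (by norm_num) (by norm_num) (by norm_num)
    (by norm_num) (by norm_num) (by norm_num)
  have e : (((7 : ℕ) : ℝ) / (((7 : ℕ) : ℝ) + ((9 : ℕ) : ℝ))) = 7 / 16 := by norm_num
  rwa [e] at h

/-- `N = 14` -/
theorem ex14 (A : Finset ℤ) (hA : A.Nonempty) :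
    ((A.card : ℝ) / 3) ^ ((18403 / 10000) : ℝ) ≤
      max ((sumset 14 A).card : ℝ) ((prodset fun _ : Fin 14 => A).card : ℝ) := by
  refine expo_all (N := 14) (by norm_num) (fun B hB hBp => ?_) A hA
  have h5 : (5 : ℝ) ≤ ((3 + 11 : ℕ) : ℝ) ^ (((36 : ℕ) : ℝ) / ((59 : ℕ) : ℝ)) :=
    five_le 36 59 (by norm_num) (by norm_num)
  exact expo_pos (m := 11) (θ := 40 / 49) (c := 6787 / 50000) (γ := 7 / 16) (β := 7 / 9)
    (β₃ := ((36 : ℕ) : ℝ) / ((59 : ℕ) : ℝ)) (e := 18403 / 10000) (by norm_num) (by norm_num)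
    (by norm_num) (two_pow_ge 49 9 (by norm_num) (by norm_num) (by norm_num) (by norm_num))
    (by norm_num) (by norm_num) star14 (by norm_num) h5 (by norm_num [xs]) (by norm_num [xs])
    B hB hBp

theorem star15 : Star 15 (10 / 23) (821 / 6250) := by
  have h := star_rat 15 10 13 (by norm_num) (by norm_num) (by norm_num) (c := 821 / 6250)
    (a := 5129 / 6250) (b := 16413 / 20000) (by norm_num) (by norm_num) (by norm_num) (by norm_num)
    (by norm_num) (by norm_num) (by norm_num)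
  have e : (((10 : ℕ) : ℝ) / (((10 : ℕ) : ℝ) + ((13 : ℕ) : ℝ))) = 10 / 23 := by norm_num
  rwa [e] at h

/-- `N = 15` -/
theorem ex15 (A : Finset ℤ) (hA : A.Nonempty) :
    ((A.card : ℝ) / 3) ^ ((9299 / 5000) : ℝ) ≤
      max ((sumset 15 A).card : ℝ) ((prodset fun _ : Fin 15 => A).card : ℝ) := by
  refine expo_all (N := 15) (by norm_num) (fun B hB hBp => ?_) A hA
  have h5 : (5 : ℝ) ≤ ((3 + 12 : ℕ) : ℝ) ^ (((22 : ℕ) : ℝ) / ((37 : ℕ) : ℝ)) :=
    five_le 22 37 (by norm_num) (by norm_num)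
  exact expo_pos (m := 12) (θ := 60 / 73) (c := 821 / 6250) (γ := 10 / 23) (β := 10 / 13)
    (β₃ := ((22 : ℕ) : ℝ) / ((37 : ℕ) : ℝ)) (e := 9299 / 5000) (by norm_num) (by norm_num)
    (by norm_num) (two_pow_ge 73 13 (by norm_num) (by norm_num) (by norm_num) (by norm_num))
    (by norm_num) (by norm_num) star15 (by norm_num) h5 (by norm_num [xs]) (by norm_num [xs])
    B hB hBp

theorem star16 : Star 16 (3 / 7) (1317 / 10000) := by
  have h := star_rat 16 3 4 (by norm_num) (by norm_num) (by norm_num) (c := 1317 / 10000)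
    (a := 12943 / 25000) (b := 51773 / 100000) (by norm_num) (by norm_num) (by norm_num) (by norm_num)
    (by norm_num) (by norm_num) (by norm_num)
  have e : (((3 : ℕ) : ℝ) / (((3 : ℕ) : ℝ) + ((4 : ℕ) : ℝ))) = 3 / 7 := by norm_num
  rwa [e] at h

/-- `N = 16` -/
theorem ex16 (A : Finset ℤ) (hA : A.Nonempty) :
    ((A.card : ℝ) / 3) ^ ((939 / 500) : ℝ) ≤
      max ((sumset 16 A).card : ℝ) ((prodset fun _ : Fin 16 => A).card : ℝ) := by
  refine expo_all (N := 16) (by norm_num) (fun B hB hBp => ?_) A hA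
  have h5 : (5 : ℝ) ≤ ((3 + 13 : ℕ) : ℝ) ^ (((18 : ℕ) : ℝ) / ((31 : ℕ) : ℝ)) :=
    five_le 18 31 (by norm_num) (by norm_num)
  exact expo_pos (m := 13) (θ := 23 / 28) (c := 1317 / 10000) (γ := 3 / 7) (β := 3 / 4)
    (β₃ := ((18 : ℕ) : ℝ) / ((31 : ℕ) : ℝ)) (e := 939 / 500) (by norm_num) (by norm_num)
    (by norm_num) (two_pow_ge 28 5 (by norm_num) (by norm_num) (by norm_num) (by norm_num))
    (by norm_num) (by norm_num) star16 (by norm_num) h5 (by norm_num [xs]) (by norm_num [xs])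
    B hB hBp

end Run7.h188.Iso
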