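import Mathlib

/-! Omissible points of finite planar point sets: definitions and first properties. -/

namespace Run7.h188

open Finset AffineSubspace

/-- The lines spanned by a set `X` of points of the plane: the lines which join two
different points of `X`. -/
def spannedLines (X : Set (ℝ × ℝ)) : Set (AffineSubspace ℝ (ℝ × ℝ)) :=
  {L | ∃ a ∈ X, ∃ b ∈ X, a ≠ b ∧ L = affineSpan ℝ {a, b}}

/-- A point `x` of `X` is omissible if `X` without `x` spans the same lines as `X`. -/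
def Omissible (X : Set (ℝ × ℝ)) (x : ℝ × ℝ) : Prop :=
  x ∈ X ∧ spannedLines (X \ {x}) = spannedLines X

/-- `numOmissible X` is the number of omissible points of `X`. -/
noncomputable def numOmissible (X : Finset (ℝ × ℝ)) : ℕ :=
  {x | Omissible (X : Set (ℝ × ℝ)) x}.ncard

/-- `psi n` is the largest number of omissible points of a set of exactly `n` points of the
plane which do not all lie on one line. -/
noncomputable def psi (n : ℕ) : ℕ :=
  sSup {m | ∃ X : Finset (ℝ × ℝ), X.card = n ∧ ¬ Collinear ℝ (X : Set (ℝ × ℝ)) ∧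
    numOmissible X = m}

/-- twice the signed area of the triangle `a b c` -/
def cr (a b c : ℝ × ℝ) : ℝ := (b.1 - a.1) * (c.2 - a.2) - (b.2 - a.2) * (c.1 - a.1)

lemma cr_swap (a b c : ℝ × ℝ) : cr b a c = - cr a b c := by simp [cr]; ring

lemma cr_rot (a b c : ℝ × ℝ) : cr b c a = cr a b c := by simp [cr]; ring

lemma cr_swap' (a b c : ℝ × ℝ) : cr a c b = - cr a b c := by simp [cr]; ring

@[simp] lemma cr_self₁ (a b : ℝ × ℝ) : cr a a b = 0 := by simp [cr]

@[simp] lemma cr_self₂ (a b : ℝ × ℝ) : cr a b a = 0 := by simp [cr]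

@[simp] lemma cr_self₃ (a b : ℝ × ℝ) : cr a b b = 0 := by simp [cr]; ring

lemma sq_pos_of_ne {a b : ℝ × ℝ} (hab : a ≠ b) :
    0 < (b.1 - a.1) ^ 2 + (b.2 - a.2) ^ 2 := by
  by_contra hcon
  have h1 : (b.1 - a.1) ^ 2 = 0 := by nlinarith [sq_nonneg (b.1 - a.1), sq_nonneg (b.2 - a.2)]
  have h2 : (b.2 - a.2) ^ 2 = 0 := by nlinarith [sq_nonneg (b.1 - a.1), sq_nonneg (b.2 - a.2)]
  apply hab
  ext
  · have := pow_eq_zero_iff (n := 2) (by norm_num) |>.1 h1; linarith
  · have := pow_eq_zero_iff (n := 2) (by norm_num) |>.1 h2; linarith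

lemma exists_param {a b x : ℝ × ℝ} (hab : a ≠ b) (h : cr a b x = 0) :
    ∃ s : ℝ, x = a + s • (b - a) := by
  have hd := sq_pos_of_ne hab
  simp only [cr] at h
  refine ⟨((x.1 - a.1) * (b.1 - a.1) + (x.2 - a.2) * (b.2 - a.2)) /
    ((b.1 - a.1) ^ 2 + (b.2 - a.2) ^ 2), ?_⟩
  ext
  · simp only [Prod.fst_add, Prod.smul_fst, Prod.fst_sub, smul_eq_mul]
    rw [← sub_eq_iff_eq_add', div_mul_eq_mul_div, eq_div_iff hd.ne']
    linear_combination (-(b.2 - a.2)) * h
  · simp only [Prod.snd_add, Prod.smul_snd, Prod.snd_sub, smul_eq_mul]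
    rw [← sub_eq_iff_eq_add', div_mul_eq_mul_div, eq_div_iff hd.ne']
    linear_combination (b.1 - a.1) * h

lemma mem_line_iff {a b x : ℝ × ℝ} (hab : a ≠ b) :
    x ∈ affineSpan ℝ ({a, b} : Set (ℝ × ℝ)) ↔ cr a b x = 0 := by
  constructor
  · intro h
    rw [mem_affineSpan_pair_iff_exists_lineMap_eq] at h
    obtain ⟨r, rfl⟩ := h
    simp [cr, AffineMap.lineMap_apply]
    ring
  · intro h
    obtain ⟨s, rfl⟩ := exists_param hab h
    rw [mem_affineSpan_pair_iff_exists_lineMap_eq]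
    refine ⟨s, ?_⟩
    simp [AffineMap.lineMap_apply, add_comm]

lemma cr_eq_zero_of {a b c d x : ℝ × ℝ} (hab : a ≠ b) (hc : cr a b c = 0) (hd : cr a b d = 0)
    (hx : cr a b x = 0) : cr c d x = 0 := by
  obtain ⟨s, rfl⟩ := exists_param hab hc
  obtain ⟨t, rfl⟩ := exists_param hab hd
  obtain ⟨u, rfl⟩ := exists_param hab hx
  simp [cr]
  ring

lemma line_eq {a b c d : ℝ × ℝ} (hab : a ≠ b) (hcd : c ≠ d) (hc : cr a b c = 0)
    (hd : cr a b d = 0) :
    affineSpan ℝ ({c, d} : Set (ℝ × ℝ)) = affineSpan ℝ ({a, b} : Set (ℝ × ℝ)) := by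
  have ha : cr c d a = 0 := cr_eq_zero_of hab hc hd (cr_self₂ a b)
  have hb : cr c d b = 0 := cr_eq_zero_of hab hc hd (cr_self₃ a b)
  ext x
  rw [mem_line_iff hab, mem_line_iff hcd]
  exact ⟨fun h => cr_eq_zero_of hcd ha hb h, fun h => cr_eq_zero_of hab hc hd h⟩

/-- `x ∈ X` is omissible iff each line through `x` and another point of `X` contains a third
point of `X`. -/
lemma omissible_iff {X : Set (ℝ × ℝ)} {x : ℝ × ℝ} :
    Omissible X x ↔ x ∈ X ∧ ∀ y ∈ X, y ≠ x → ∃ z ∈ X, z ≠ x ∧ z ≠ y ∧ cr x y z = 0 := by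
  constructor
  · rintro ⟨hx, h⟩
    refine ⟨hx, fun y hy hyx => ?_⟩
    have h1 : affineSpan ℝ ({x, y} : Set (ℝ × ℝ)) ∈ spannedLines X :=
      ⟨x, hx, y, hy, hyx.symm, rfl⟩
    rw [← h] at h1
    obtain ⟨a, ha, b, hb, hab, hL⟩ := h1
    have ham : a ∈ affineSpan ℝ ({x, y} : Set (ℝ × ℝ)) := by
      rw [hL]; exact left_mem_affineSpan_pair ℝ a b
    have hbm : b ∈ affineSpan ℝ ({x, y} : Set (ℝ × ℝ)) := by
      rw [hL]; exact right_mem_affineSpan_pair ℝ a b
    rw [mem_line_iff hyx.symm] at ham hbm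
    by_cases hay : a = y
    · exact ⟨b, hb.1, hb.2, fun hby => hab (hay.trans hby.symm), hbm⟩
    · exact ⟨a, ha.1, ha.2, hay, ham⟩
  · rintro ⟨hx, h⟩
    refine ⟨hx, ?_⟩
    ext L
    constructor
    · rintro ⟨a, ha, b, hb, hab, rfl⟩
      exact ⟨a, ha.1, b, hb.1, hab, rfl⟩
    · rintro ⟨a, ha, b, hb, hab, rfl⟩
      by_cases hax : a = x
      · subst hax
        obtain ⟨z, hz, hza, hzb, hz0⟩ := h b hb hab.symm
        refine ⟨z, ⟨hz, hza⟩, b, ⟨hb, hab.symm⟩, hzb, ?_⟩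
        exact (line_eq hab hzb hz0 (cr_self₃ a b)).symm
      · by_cases hbx : b = x
        · subst hbx
          obtain ⟨z, hz, hza, hzb, hz0⟩ := h a ha hab
          refine ⟨a, ⟨ha, hab⟩, z, ⟨hz, hza⟩, hzb.symm, ?_⟩
          refine (line_eq hab hzb.symm (cr_self₂ a b) ?_).symm
          rw [cr_swap, hz0, neg_zero]
        · exact ⟨a, ⟨ha, hax⟩, b, ⟨hb, hbx⟩, hab, rfl⟩

/-- a set is collinear iff all signed areas vanish -/
lemma collinear_iff_cr {X : Set (ℝ × ℝ)} :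
    Collinear ℝ X ↔ ∀ a ∈ X, ∀ b ∈ X, ∀ c ∈ X, cr a b c = 0 := by
  constructor
  · intro h a ha b hb c hc
    by_cases hab : a = b
    · subst hab; simp
    · rw [← mem_line_iff hab]
      exact h.mem_affineSpan_of_mem_of_ne ha hb hc hab
  · intro h
    by_cases hX : ∃ a ∈ X, ∃ b ∈ X, a ≠ b
    · obtain ⟨a, ha, b, hb, hab⟩ := hX
      rw [collinear_iff_of_mem ha]
      refine ⟨b - a, fun p hp => ?_⟩
      obtain ⟨s, hs⟩ := exists_param hab (h a ha b hb p hp)
      exact ⟨s, by rw [hs]; simp [add_comm]⟩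
    · push Not at hX
      rcases X.eq_empty_or_nonempty with rfl | ⟨a, ha⟩
      · exact collinear_empty ℝ _
      · have : X = {a} := by
          ext y; constructor
          · intro hy; exact (hX a ha y hy).symm ▸ rfl
          · rintro rfl; exact ha
        rw [this]; exact collinear_singleton ℝ _

open scoped Classical in
/-- the finite set of the omissible points -/
noncomputable def om (X : Finset (ℝ × ℝ)) : Finset (ℝ × ℝ) :=
  X.filter fun x => Omissible (X : Set (ℝ × ℝ)) x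

lemma mem_om {X : Finset (ℝ × ℝ)} {x : ℝ × ℝ} :
    x ∈ om X ↔ x ∈ X ∧ ∀ y ∈ X, y ≠ x → ∃ z ∈ X, z ≠ x ∧ z ≠ y ∧ cr x y z = 0 := by
  simp only [om, mem_filter, omissible_iff, mem_coe]
  tauto

lemma numOmissible_eq (X : Finset (ℝ × ℝ)) : numOmissible X = (om X).card := by
  rw [numOmissible, ← Set.ncard_coe_finset]
  congr 1
  ext x
  simp only [Set.mem_ofPred_eq, mem_coe, om, mem_filter]
  exact ⟨fun h => ⟨h.1, h⟩, fun h => h.2⟩

lemma om_subset (X : Finset (ℝ × ℝ)) : om X ⊆ X := fun _ hx => (mem_om.1 hx).1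

/-- the set of the numbers of omissible points is bounded -/
lemma psi_bdd (n : ℕ) : BddAbove {m | ∃ X : Finset (ℝ × ℝ), X.card = n ∧
    ¬ Collinear ℝ (X : Set (ℝ × ℝ)) ∧ numOmissible X = m} := by
  refine ⟨n, ?_⟩
  rintro m ⟨X, hX, -, rfl⟩
  rw [numOmissible_eq, ← hX]
  exact card_le_card (om_subset X)

lemma le_psi {X : Finset (ℝ × ℝ)} (hX : ¬ Collinear ℝ (X : Set (ℝ × ℝ))) :
    (om X).card ≤ psi X.card := by
  refine le_csSup (psi_bdd _) ⟨X, rfl, hX, numOmissible_eq X⟩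

/-- `psi n` is attained if there are noncollinear sets of `n` points -/
lemma psi_attained {n : ℕ} (hn : 3 ≤ n) : ∃ X : Finset (ℝ × ℝ), X.card = n ∧
    ¬ Collinear ℝ (X : Set (ℝ × ℝ)) ∧ (om X).card = psi n := by
  have hne : {m | ∃ X : Finset (ℝ × ℝ), X.card = n ∧
      ¬ Collinear ℝ (X : Set (ℝ × ℝ)) ∧ numOmissible X = m}.Nonempty := by
    refine ⟨_, (range n).image (fun i : ℕ => ((i : ℝ), (i : ℝ) ^ 2)), ?_, ?_, rfl⟩
    · rw [card_image_of_injective, card_range]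
      intro i j h
      simpa using (Prod.ext_iff.1 h).1
    · rw [collinear_iff_cr]
      push Not
      refine ⟨(0, 0), ?_, (1, 1), ?_, (2, 4), ?_, ?_⟩
      · simp only [mem_coe, mem_image, mem_range]
        exact ⟨0, by omega, by simp⟩
      · simp only [mem_coe, mem_image, mem_range]
        exact ⟨1, by omega, by simp⟩
      · simp only [mem_coe, mem_image, mem_range]
        exact ⟨2, by omega, by norm_num⟩
      · norm_num [cr]
  obtain ⟨X, h1, h2, h3⟩ := Nat.sSup_mem hne (psi_bdd n)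
  exact ⟨X, h1, h2, by rw [← numOmissible_eq, h3]; rfl⟩

end Run7.h188
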