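import Pool.Agent.Run7.h188.Pair

/-! If all but `t` omissible points lie on `j` lines then `3 ω ≤ n + 3 t + 5 j (j - 1)`. -/

namespace Run7.h188

open Finset

lemma bonf {ι α : Type*} [DecidableEq ι] [DecidableEq α] (s : Finset ι) (A : ι → Finset α)
    (c : ℕ) (h : ∀ i ∈ s, ∀ j ∈ s, i ≠ j → (A i ∩ A j).card ≤ c) :
    2 * ∑ i ∈ s, (A i).card ≤ 2 * (s.biUnion A).card + c * (s.card * (s.card - 1)) := by
  induction s using Finset.induction_on with
  | empty => simp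
  | insert i s hi ih =>
    have ih' := ih fun a ha b hb => h a (mem_insert_of_mem ha) b (mem_insert_of_mem hb)
    rw [sum_insert hi, biUnion_insert, card_insert_of_notMem hi]
    have h1 := card_union_add_card_inter (A i) (s.biUnion A)
    have h2 : (A i ∩ s.biUnion A).card ≤ c * s.card := by
      rw [inter_biUnion]
      calc _ ≤ ∑ j ∈ s, (A i ∩ A j).card := card_biUnion_le
        _ ≤ ∑ j ∈ s, c := sum_le_sum fun j hj => h i (mem_insert_self _ _) j
            (mem_insert_of_mem hj) (by rintro rfl; exact hi hj)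
        _ = c * s.card := by rw [sum_const, smul_eq_mul, mul_comm]
    have h3 : c * ((s.card + 1) * (s.card + 1 - 1)) =
        c * (s.card * (s.card - 1)) + 2 * (c * s.card) := by
      rcases s.card with _ | m
      · simp
      · simp only [Nat.add_sub_cancel]; ring
    omega

lemma dblpts {ι α : Type*} [DecidableEq ι] [DecidableEq α] (s : Finset ι) (B : ι → Finset α)
    (h : ∀ i ∈ s, ∀ j ∈ s, i ≠ j → (B i ∩ B j).card ≤ 1) :
    2 * ((s.biUnion B).filter fun x => ∃ i ∈ s, ∃ j ∈ s, i ≠ j ∧ x ∈ B i ∧ x ∈ B j).card ≤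
      s.card * (s.card - 1) := by
  induction s using Finset.induction_on with
  | empty => simp
  | insert i s hi ih =>
    have ih' := ih fun a ha b hb => h a (mem_insert_of_mem ha) b (mem_insert_of_mem hb)
    rw [card_insert_of_notMem hi]
    have h1 : (((insert i s).biUnion B).filter
        fun x => ∃ a ∈ insert i s, ∃ b ∈ insert i s, a ≠ b ∧ x ∈ B a ∧ x ∈ B b) ⊆
        ((s.biUnion B).filter fun x => ∃ i ∈ s, ∃ j ∈ s, i ≠ j ∧ x ∈ B i ∧ x ∈ B j) ∪
          s.biUnion fun j => B i ∩ B j := by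
      intro x hx
      rw [mem_filter] at hx
      obtain ⟨-, a, ha, b, hb, hab, hxa, hxb⟩ := hx
      rw [mem_union, mem_filter, mem_biUnion, mem_biUnion]
      rcases mem_insert.1 ha with h1 | h1 <;> rcases mem_insert.1 hb with h2 | h2
      · exact absurd (h1.trans h2.symm) hab
      · rw [h1] at hxa
        right; exact ⟨b, h2, mem_inter.2 ⟨hxa, hxb⟩⟩
      · rw [h2] at hxb
        right; exact ⟨a, h1, mem_inter.2 ⟨hxb, hxa⟩⟩
      · left; exact ⟨⟨a, h1, hxa⟩, a, h1, b, h2, hab, hxa, hxb⟩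
    have h2 := card_le_card h1
    have h3 : (s.biUnion fun j => B i ∩ B j).card ≤ s.card := by
      calc _ ≤ ∑ j ∈ s, (B i ∩ B j).card := card_biUnion_le
        _ ≤ ∑ j ∈ s, 1 := sum_le_sum fun j hj => h i (mem_insert_self _ _) j
            (mem_insert_of_mem hj) (by rintro rfl; exact hi hj)
        _ = s.card := by simp
    have h4 := card_union_le ((s.biUnion B).filter
      fun x => ∃ i ∈ s, ∃ j ∈ s, i ≠ j ∧ x ∈ B i ∧ x ∈ B j) (s.biUnion fun j => B i ∩ B j)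
    have h5 : (s.card + 1) * (s.card + 1 - 1) = s.card * (s.card - 1) + 2 * s.card := by
      rcases s.card with _ | m
      · simp
      · simp only [Nat.add_sub_cancel]; ring
    omega

/-- points on a line are collinear -/
lemma cr_of_lf {l : ℝ × ℝ × ℝ} (hl : 0 < l.1 ^ 2 + l.2.1 ^ 2) {a b c : ℝ × ℝ}
    (h1 : lf l a = 0) (h2 : lf l b = 0) (h3 : lf l c = 0) : cr a b c = 0 := by
  simp only [lf] at h1 h2 h3
  have e1 : (l.1 ^ 2 + l.2.1 ^ 2) * cr a b c = 0 := by
    simp only [cr]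
    linear_combination (l.1 * (c.2 - a.2) - l.2.1 * (c.1 - a.1)) * (h2 - h1) -
      (l.1 * (b.2 - a.2) - l.2.1 * (b.1 - a.1)) * (h3 - h1)
  rcases mul_eq_zero.1 e1 with h | h
  · exact absurd h hl.ne'
  · exact h

/-- two different lines have at most one point in common -/
lemma eq_of_two_lf {m k l : ℝ × ℝ × ℝ} (hD : det3 m k l ≠ 0) {a b : ℝ × ℝ}
    (h1 : lf l a = 0) (h2 : lf k a = 0) (h3 : lf l b = 0) (h4 : lf k b = 0) : a = b := by
  simp only [lf] at h1 h2 h3 h4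
  by_contra hab
  have hcr : k.1 * l.2.1 - k.2.1 * l.1 = 0 := by
    have e1 : (k.1 * l.2.1 - k.2.1 * l.1) * (a.1 - b.1) = 0 := by
      linear_combination l.2.1 * (h2 - h4) - k.2.1 * (h1 - h3)
    have e2 : (k.1 * l.2.1 - k.2.1 * l.1) * (a.2 - b.2) = 0 := by
      linear_combination k.1 * (h1 - h3) - l.1 * (h2 - h4)
    by_contra hne
    apply hab
    ext
    · have := (mul_eq_zero.1 e1).resolve_left hne; linarith
    · have := (mul_eq_zero.1 e2).resolve_left hne; linarith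
  apply hD
  have e3 : l.2.2 = - (l.1 * a.1 + l.2.1 * a.2) := by linarith
  have e4 : k.2.2 = - (k.1 * a.1 + k.2.1 * a.2) := by linarith
  simp only [det3]
  rw [e3, e4]
  linear_combination (m.1 * a.1 + m.2.1 * a.2 + m.2.2) * hcr

/-- the sign of a boolean -/
def sgn (b : Bool) : ℝ := if b then 1 else -1

lemma sgn_cases (b : Bool) : sgn b = 1 ∨ sgn b = -1 := by cases b <;> simp [sgn]

lemma sgn_inj {b c : Bool} (h : sgn b = sgn c) : b = c := by
  cases b <;> cases c <;> simp [sgn] at h ⊢ <;> norm_num at h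

section count

variable {ι : Type*} [DecidableEq ι] (X : Finset (ℝ × ℝ)) (s : Finset ι) (l : ι → ℝ × ℝ × ℝ)

open scoped Classical in
/-- omissible points which lie on the line `i` only -/
noncomputable def On (i : ι) : Finset (ℝ × ℝ) :=
  (om X).filter fun x => lf (l i) x = 0 ∧ ∀ j ∈ s, j ≠ i → lf (l j) x ≠ 0

lemma mem_On {i : ι} {x : ℝ × ℝ} : x ∈ On X s l i ↔
    x ∈ om X ∧ lf (l i) x = 0 ∧ ∀ j ∈ s, j ≠ i → lf (l j) x ≠ 0 := by
  simp [On]

open scoped Classical in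
/-- the chosen points of the line `i` -/
noncomputable def Im (c : ι → (ℝ × ℝ) × Bool → ℝ × ℝ) (i : ι) : Finset (ℝ × ℝ) :=
  (On X s l i ×ˢ (univ : Finset Bool)).image (c i)

variable {X s l}

lemma card_Im (hl : ∀ i ∈ s, 0 < (l i).1 ^ 2 + (l i).2.1 ^ 2)
    {c : ι → (ℝ × ℝ) × Bool → ℝ × ℝ} {i : ι} (hi : i ∈ s)
    (hc : ∀ x ∈ On X s l i, ∀ b, Chosen X (l i) x (sgn b) (c i (x, b))) :
    (Im X s l c i).card = 2 * (On X s l i).card := by
  classical
  rw [Im, card_image_of_injOn, card_product]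
  · simp [mul_comm]
  · rintro ⟨x, b⟩ hx ⟨x', b'⟩ hx' h
    simp only [mem_coe, mem_product, mem_univ, and_true] at hx hx'
    have h1 := hc x hx b
    have h2 := hc x' hx' b'
    rw [← h] at h2
    have := chosen_inj (hl i hi) (sgn_cases b) (sgn_cases b') ((mem_On X s l).1 hx).2.1
      ((mem_On X s l).1 hx').2.1 h1 h2
    rw [this.1, sgn_inj this.2]

/-- another line contains at most two chosen points -/
lemma card_on_other (hl : ∀ i ∈ s, 0 < (l i).1 ^ 2 + (l i).2.1 ^ 2)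
    {c : ι → (ℝ × ℝ) × Bool → ℝ × ℝ} {i j : ι} (hj : j ∈ s)
    (hc : ∀ x ∈ On X s l i, ∀ b, Chosen X (l i) x (sgn b) (c i (x, b))) (F : Finset (ℝ × ℝ))
    (hF : ∀ p ∈ F, p ∈ Im X s l c i ∧ lf (l j) p = 0) : F.card ≤ 2 := by
  classical
  by_contra hcon
  push Not at hcon
  obtain ⟨p₁, h1, p₂, h2, p₃, h3, h12, h13, h23⟩ := two_lt_card.1 hcon
  have hch : ∀ p ∈ F, ∃ x e, (e = 1 ∨ e = -1) ∧ Chosen X (l i) x e p := by
    intro p hp
    obtain ⟨hp, -⟩ := hF p hp
    rw [Im, mem_image] at hp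
    obtain ⟨⟨x, b⟩, hxb, rfl⟩ := hp
    rw [mem_product] at hxb
    exact ⟨x, sgn b, sgn_cases b, hc x hxb.1 b⟩
  obtain ⟨x₁, e₁, he₁, c₁⟩ := hch p₁ h1
  obtain ⟨x₂, e₂, he₂, c₂⟩ := hch p₂ h2
  obtain ⟨x₃, e₃, he₃, c₃⟩ := hch p₃ h3
  have hcr : cr p₁ p₃ p₂ = 0 := cr_of_lf (hl j hj) (hF _ h1).2 (hF _ h3).2 (hF _ h2).2
  rcases btw_of_collinear h12 h13 h23 c₁.2.1 c₂.2.1 c₃.2.1 hcr with hb | hb | hb
  · exact chosen_ext he₂ c₂ c₁.1 c₃.1 c₁.2.1 c₃.2.1 hb h12
  · exact chosen_ext he₁ c₁ c₂.1 c₃.1 c₂.2.1 c₃.2.1 hb h12.symm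
  · exact chosen_ext he₃ c₃ c₁.1 c₂.1 c₁.2.1 c₂.2.1 hb h13

/-- two lines share at most four chosen points -/
lemma card_shared (hl : ∀ i ∈ s, 0 < (l i).1 ^ 2 + (l i).2.1 ^ 2)
    (hd : ∀ i ∈ s, ∀ j ∈ s, i ≠ j → ∃ m, det3 m (l j) (l i) ≠ 0)
    {c : ι → (ℝ × ℝ) × Bool → ℝ × ℝ} {i j : ι} (hi : i ∈ s) (hj : j ∈ s) (hij : i ≠ j)
    (hci : ∀ x ∈ On X s l i, ∀ b, Chosen X (l i) x (sgn b) (c i (x, b)))
    (hcj : ∀ x ∈ On X s l j, ∀ b, Chosen X (l j) x (sgn b) (c j (x, b)))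
    (F : Finset (ℝ × ℝ)) (hF : ∀ p ∈ F, p ∈ Im X s l c i ∧ p ∈ Im X s l c j) :
    F.card ≤ 4 := by
  classical
  obtain ⟨m, hm⟩ := hd i hi j hj hij
  have key : ∀ p ∈ F, ∃ a a₂ s₁ s₂, PD X m (l j) (l i) p a a₂ s₁ s₂ := by
    intro p hp
    obtain ⟨h1, h2⟩ := hF p hp
    rw [Im, mem_image] at h1 h2
    obtain ⟨⟨x, b⟩, hxb, hx⟩ := h1
    obtain ⟨⟨y, b'⟩, hyb, hy⟩ := h2
    rw [mem_product] at hxb hyb
    have hx1 := (mem_On X s l).1 hxb.1
    have hy1 := (mem_On X s l).1 hyb.1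
    have c1 := hci x hxb.1 b
    have c2 := hcj y hyb.1 b'
    rw [hx] at c1
    rw [hy] at c2
    obtain ⟨a, a₂, hP⟩ := exists_PD hm (hl i hi) (hl j hj) (sgn_cases b) (sgn_cases b')
      (om_subset X hx1.1) (om_subset X hy1.1) hx1.2.1 (hx1.2.2 j hj hij.symm) hy1.2.1
      (hy1.2.2 i hi hij) c1 c2
    exact ⟨a, a₂, x, y, hP⟩
  choose! a a₂ s₁ s₂ hP using key
  have : F.card ≤ (univ : Finset (Bool × Bool)).card := by
    refine card_le_card_of_injOn (fun p => (decide (0 < a p),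
      decide (0 < lf (l j) p / lf (l i) p))) (fun _ _ => mem_coe.2 (mem_univ _)) ?_
    intro p hp q hq hpq
    simp only [Prod.mk.injEq, decide_eq_decide] at hpq
    obtain ⟨h1, h2⟩ := hpq
    have P := hP p hp
    have Q := hP q hq
    refine PD.unique hm P Q ?_ ?_
    · rcases lt_or_gt_of_ne P.a0 with h | h
      · rcases lt_or_gt_of_ne Q.a0 with h' | h'
        · exact mul_pos_of_neg_of_neg h h'
        · have := h1.2 h'; linarith
      · exact mul_pos h (h1.1 h)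
    · have n1 : lf (l j) p / lf (l i) p ≠ 0 := div_ne_zero P.kp P.lp
      have n2 : lf (l j) q / lf (l i) q ≠ 0 := div_ne_zero Q.kp Q.lp
      rcases lt_or_gt_of_ne n1 with h | h
      · rcases lt_or_gt_of_ne n2 with h' | h'
        · exact mul_pos_of_neg_of_neg h h'
        · have := h2.2 h'; linarith
      · exact mul_pos h (h2.1 h)
  simpa using this

end count

open scoped Classical in
/-- **Covering by lines**, for lines given by coefficients. -/
theorem cover {ι : Type*} [DecidableEq ι] {X : Finset (ℝ × ℝ)}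
    (hX : ¬ Collinear ℝ (X : Set (ℝ × ℝ))) (s : Finset ι) (l : ι → ℝ × ℝ × ℝ)
    (hl : ∀ i ∈ s, 0 < (l i).1 ^ 2 + (l i).2.1 ^ 2)
    (hd : ∀ i ∈ s, ∀ j ∈ s, i ≠ j → ∃ m, det3 m (l j) (l i) ≠ 0) :
    3 * (om X).card ≤ X.card + 3 * ((om X).filter fun x => ∀ i ∈ s, lf (l i) x ≠ 0).card +
      5 * (s.card * (s.card - 1)) := by
  have hex : ∀ i ∈ s, ∃ c : (ℝ × ℝ) × Bool → ℝ × ℝ, ∀ x ∈ On X s l i, ∀ b,
      Chosen X (l i) x (sgn b) (c (x, b)) := by
    intro i hi
    have : ∀ xb : (ℝ × ℝ) × Bool, ∃ p, xb.1 ∈ On X s l i → Chosen X (l i) xb.1 (sgn xb.2) p := by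
      rintro ⟨x, b⟩
      by_cases hx : x ∈ On X s l i
      · have hx1 := (mem_On X s l).1 hx
        have hb : sgn b ≠ 0 := by rcases sgn_cases b with h | h <;> rw [h] <;> norm_num
        obtain ⟨p, hp⟩ := exists_chosen hX (hl i hi) hx1.1 hx1.2.1 (sgn b) hb
        exact ⟨p, fun _ => hp⟩
      · exact ⟨0, fun h => absurd h hx⟩
    choose c hc using this
    exact ⟨c, fun x hx b => hc (x, b) hx⟩
  choose! c hc using hex
  obtain ⟨I, hI⟩ : ∃ I : ι → Finset (ℝ × ℝ), I = fun i => (Im X s l c i).filter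
    fun p => ∀ j ∈ s, lf (l j) p ≠ 0 := ⟨_, rfl⟩
  obtain ⟨E, hE⟩ : ∃ E, E = (om X).filter fun x => ∀ i ∈ s, lf (l i) x ≠ 0 := ⟨_, rfl⟩
  obtain ⟨B, hB⟩ : ∃ B : ι → Finset (ℝ × ℝ), B = fun i => (om X).filter
    fun p => lf (l i) p = 0 := ⟨_, rfl⟩
  have memI : ∀ i p, p ∈ I i ↔ p ∈ Im X s l c i ∧ ∀ j ∈ s, lf (l j) p ≠ 0 := by
    intro i p; rw [hI]; simp
  have memB : ∀ i p, p ∈ B i ↔ p ∈ om X ∧ lf (l i) p = 0 := by
    intro i p; rw [hB]; simp
  -- (1) the sizes of the sets `I i`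
  have h1 : ∀ i ∈ s, 2 * (On X s l i).card ≤ (I i).card + 2 * (s.card - 1) := by
    intro i hi
    rw [← card_Im hl hi (hc i hi)]
    have hsub : Im X s l c i ⊆ I i ∪ (s.erase i).biUnion fun j => (Im X s l c i).filter
        fun p => lf (l j) p = 0 := by
      intro p hp
      rw [mem_union, memI, mem_biUnion]
      by_cases h : ∀ j ∈ s, lf (l j) p ≠ 0
      · left; exact ⟨hp, h⟩
      · right
        push Not at h
        obtain ⟨j, hj, hj0⟩ := h
        refine ⟨j, mem_erase.2 ⟨?_, hj⟩, mem_filter.2 ⟨hp, hj0⟩⟩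
        rintro rfl
        rw [Im, mem_image] at hp
        obtain ⟨⟨x, b⟩, hxb, rfl⟩ := hp
        rw [mem_product] at hxb
        exact (hc j hi x hxb.1 b).2.1 hj0
    have hcard : ((s.erase i).biUnion fun j => (Im X s l c i).filter
        fun p => lf (l j) p = 0).card ≤ 2 * (s.card - 1) := by
      calc _ ≤ ∑ j ∈ s.erase i, ((Im X s l c i).filter fun p => lf (l j) p = 0).card :=
            card_biUnion_le
        _ ≤ ∑ j ∈ s.erase i, 2 := sum_le_sum fun j hj =>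
            card_on_other hl (mem_of_mem_erase hj) (hc i hi) _ fun p hp => by
              rw [mem_filter] at hp; exact hp
        _ = 2 * (s.card - 1) := by rw [sum_const, smul_eq_mul, card_erase_of_mem hi, mul_comm]
    calc _ ≤ _ := card_le_card hsub
      _ ≤ _ := card_union_le _ _
      _ ≤ _ := by omega
  -- (2) the pairwise intersections
  have h2 : 2 * ∑ i ∈ s, (I i).card ≤ 2 * (s.biUnion I).card + 4 * (s.card * (s.card - 1)) := by
    apply bonf
    intro i hi j hj hij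
    apply card_shared hl hd hi hj hij (hc i hi) (hc j hj)
    intro p hp
    rw [mem_inter, memI, memI] at hp
    exact ⟨hp.1.1, hp.2.1⟩
  -- (3) the union
  have h3 : (s.biUnion I).card ≤ (X.card - (om X).card) + E.card := by
    have hsub : s.biUnion I ⊆ (X \ om X) ∪ E := by
      intro p hp
      rw [mem_biUnion] at hp
      obtain ⟨i, hi, hp⟩ := hp
      rw [memI] at hp
      rw [mem_union, mem_sdiff]
      have hpX : p ∈ X := by
        have := hp.1
        rw [Im, mem_image] at this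
        obtain ⟨⟨x, b⟩, hxb, rfl⟩ := this
        rw [mem_product] at hxb
        exact (hc i hi x hxb.1 b).1
      by_cases ho : p ∈ om X
      · right; rw [hE, mem_filter]; exact ⟨ho, hp.2⟩
      · left; exact ⟨hpX, ho⟩
    calc _ ≤ _ := card_le_card hsub
      _ ≤ _ := card_union_le _ _
      _ = _ := by rw [card_sdiff_of_subset (om_subset X)]
  -- (4) points on two lines
  have h4 := dblpts s B (by
    intro i hi j hj hij
    obtain ⟨m, hm⟩ := hd i hi j hj hij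
    rw [card_le_one]
    intro a ha b hb
    rw [mem_inter, memB, memB] at ha hb
    exact eq_of_two_lf hm ha.1.2 ha.2.2 hb.1.2 hb.2.2)
  -- (5) all omissible points
  have h5 : (om X).card ≤ E.card + ((s.biUnion B).filter
      fun x => ∃ i ∈ s, ∃ j ∈ s, i ≠ j ∧ x ∈ B i ∧ x ∈ B j).card +
      ∑ i ∈ s, (On X s l i).card := by
    have hsub : om X ⊆ (E ∪ (s.biUnion B).filter
        fun x => ∃ i ∈ s, ∃ j ∈ s, i ≠ j ∧ x ∈ B i ∧ x ∈ B j) ∪ s.biUnion (On X s l) := by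
      intro x hx
      rw [mem_union, mem_union]
      by_cases hxE : ∀ i ∈ s, lf (l i) x ≠ 0
      · left; left; rw [hE, mem_filter]; exact ⟨hx, hxE⟩
      push Not at hxE
      obtain ⟨i, hi, hxi⟩ := hxE
      by_cases hxj : ∀ j ∈ s, j ≠ i → lf (l j) x ≠ 0
      · right
        rw [mem_biUnion]
        exact ⟨i, hi, (mem_On X s l).2 ⟨hx, hxi, hxj⟩⟩
      · left; right
        push Not at hxj
        obtain ⟨j, hj, hji, hxj⟩ := hxj
        rw [mem_filter, mem_biUnion]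
        exact ⟨⟨i, hi, (memB i x).2 ⟨hx, hxi⟩⟩, i, hi, j, hj, hji.symm, (memB i x).2 ⟨hx, hxi⟩,
          (memB j x).2 ⟨hx, hxj⟩⟩
    calc _ ≤ _ := card_le_card hsub
      _ ≤ _ := card_union_le _ _
      _ ≤ _ := Nat.add_le_add (card_union_le _ _) card_biUnion_le
  have h6 : 2 * ∑ i ∈ s, (On X s l i).card ≤ ∑ i ∈ s, (I i).card + 2 * (s.card * (s.card - 1)) := by
    rw [mul_sum]
    calc _ ≤ ∑ i ∈ s, ((I i).card + 2 * (s.card - 1)) := sum_le_sum h1
      _ = _ := by rw [sum_add_distrib, sum_const, smul_eq_mul]; ring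
  have h7 : (om X).card ≤ X.card := card_le_card (om_subset X)
  rw [← hE]
  omega

end Run7.h188
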