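import Pool.Agent.N811.IS.Gp

set_option autoImplicit false

/-! The sharper split inequality for the potential. -/

namespace Run7.h188.Iso

open Finset Pool.Agent.H384R3.SPk

/-- the condition for the parameters -/
def Star (n : ℕ) (γ c : ℝ) : Prop :=
  ∀ u : ℝ, 0 ≤ u → u ≤ 1 → u ^ γ + (1 - c) ^ (1 - γ) * (1 - u) ^ ((n : ℝ) * γ) ≤ 1

theorem hoelder2 {γ : ℝ} (h0 : 0 < γ) (h1 : γ < 1) {x y : ℝ} (hx0 : 0 ≤ x) (hx1 : x ≤ 1)
    (hy0 : 0 ≤ y) (hy1 : y ≤ 1) :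
    x ^ (1 - γ) * y ^ γ + (1 - x) ^ (1 - γ) * (1 - y) ^ γ ≤ 1 := by
  have a := Real.geom_mean_le_arith_mean2_weighted (w₁ := 1 - γ) (w₂ := γ) (by linarith) h0.le
    hx0 hy0 (by ring)
  have b := Real.geom_mean_le_arith_mean2_weighted (w₁ := 1 - γ) (w₂ := γ) (by linarith) h0.le
    (show 0 ≤ 1 - x by linarith) (show 0 ≤ 1 - y by linarith) (by ring)
  nlinarith

theorem star_all {n : ℕ} {γ c : ℝ} (h0 : 0 < γ) (h1 : γ < 1) (hc : 0 < c) (hc1 : c < 1)
    (hS : Star n γ c) {Q u : ℝ} (hQ0 : 0 ≤ Q) (hQ1 : Q ≤ 1) (hu0 : 0 ≤ u) (hu1 : u ≤ 1) :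
    (1 - c * Q) ^ (1 - γ) * (1 - u) ^ ((n : ℝ) * γ) ≤ 1 - Q ^ (1 - γ) * u ^ γ := by
  have hg : 0 < 1 - γ := by linarith
  have hcQ : 0 < 1 - c * Q := by nlinarith
  have h1c : 0 < 1 - c := by linarith
  have hA0 : 0 < (1 - c * Q) ^ (1 - γ) := Real.rpow_pos_of_pos hcQ _
  have hC0 : 0 < (1 - c) ^ (1 - γ) := Real.rpow_pos_of_pos h1c _
  have hU0 : 0 ≤ (1 - u) ^ ((n : ℝ) * γ) := Real.rpow_nonneg (by linarith) _
  have hz0 : 0 ≤ Q ^ (1 - γ) := Real.rpow_nonneg hQ0 _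
  have hz1 : Q ^ (1 - γ) ≤ 1 := Real.rpow_le_one hQ0 hQ1 hg.le
  have hv0 : 0 ≤ u ^ γ := Real.rpow_nonneg hu0 _
  have hv1 : u ^ γ ≤ 1 := Real.rpow_le_one hu0 hu1 h0.le
  have hs := hS u hu0 hu1
  rcases le_or_gt c (u ^ γ) with hv | hv
  · -- large `u`
    have hh := hoelder2 h0 h1 (x := c * Q) (y := c) (by positivity) (by linarith) hc.le hc1.le
    have e1 : (c * Q) ^ (1 - γ) * c ^ γ = c * Q ^ (1 - γ) := by
      rw [Real.mul_rpow hc.le hQ0, mul_right_comm, ← Real.rpow_add hc]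
      have : 1 - γ + γ = 1 := by ring
      rw [this, Real.rpow_one]
    have e2 : (1 - c) ^ (1 - γ) * (1 - c) ^ γ = 1 - c := by
      rw [← Real.rpow_add h1c]
      have : 1 - γ + γ = 1 := by ring
      rw [this, Real.rpow_one]
    rw [e1] at hh
    set z := Q ^ (1 - γ)
    set v := u ^ γ
    set A := (1 - c * Q) ^ (1 - γ)
    set C := (1 - c) ^ (1 - γ)
    set D := (1 - c) ^ γ
    set U := (1 - u) ^ ((n : ℝ) * γ)
    -- hh : c * z + A * D ≤ 1, e2 : C * D = 1 - c, hs : v + C * U ≤ 1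
    have hD0 : 0 < D := Real.rpow_pos_of_pos h1c _
    have s1 : A * U * (1 - c) ≤ (1 - c * z) * (1 - v) := by
      have t1 : A * D ≤ 1 - c * z := by linarith
      have t2 : C * U ≤ 1 - v := by linarith
      calc A * U * (1 - c) = (A * D) * (C * U) := by rw [← e2]; ring
        _ ≤ (1 - c * z) * (1 - v) := mul_le_mul t1 t2 (by positivity) (by nlinarith)
    have s2 : (1 - c * z) * (1 - v) ≤ (1 - c) * (1 - z * v) := by nlinarith
    have s3 : A * U * (1 - c) ≤ (1 - z * v) * (1 - c) := by linarith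
    exact le_of_mul_le_mul_right s3 h1c
  · -- small `u`
    set lam : ℝ := c ^ (-((1 - γ) / γ)) with hlam
    have hlam0 : 0 < lam := Real.rpow_pos_of_pos hc _
    set u₁ : ℝ := c ^ (1 / γ) with hu₁
    have hu₁0 : 0 < u₁ := Real.rpow_pos_of_pos hc _
    have hu₁1 : u₁ < 1 := Real.rpow_lt_one hc.le hc1 (by positivity)
    have hlu : lam * u₁ = c := by
      rw [hlam, hu₁, ← Real.rpow_add hc]
      have : -((1 - γ) / γ) + 1 / γ = 1 := by field_simp; ring
      rw [this, Real.rpow_one]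
    have hu₁g : u₁ ^ γ = c := by
      rw [hu₁, ← Real.rpow_mul hc.le]
      have : 1 / γ * γ = 1 := by field_simp
      rw [this, Real.rpow_one]
    have huu : u < u₁ := by
      by_contra hcon
      push Not at hcon
      have := Real.rpow_le_rpow hu₁0.le hcon h0.le
      rw [hu₁g] at this
      linarith
    have hlc : c ^ (1 - γ) * lam ^ γ = 1 := by
      rw [hlam, ← Real.rpow_mul hc.le, ← Real.rpow_add hc]
      have : 1 - γ + -((1 - γ) / γ) * γ = 0 := by field_simp; ring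
      rw [this, Real.rpow_zero]
    -- the value at `u₁`
    have hs1 := hS u₁ hu₁0.le hu₁1.le
    rw [hu₁g] at hs1
    have e2 : (1 - c) ^ (1 - γ) * (1 - c) ^ γ = 1 - c := by
      rw [← Real.rpow_add h1c]
      have : 1 - γ + γ = 1 := by ring
      rw [this, Real.rpow_one]
    have hs2 : (1 - u₁) ^ ((n : ℝ) * γ) ≤ (1 - c) ^ γ := by
      have : (1 - c) ^ (1 - γ) * (1 - u₁) ^ ((n : ℝ) * γ) ≤
          (1 - c) ^ (1 - γ) * (1 - c) ^ γ := by rw [e2]; linarith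
      exact le_of_mul_le_mul_left this hC0
    have hs3 : (1 - u₁) ^ n ≤ 1 - c := by
      rw [Real.rpow_mul (by linarith), Real.rpow_natCast] at hs2
      by_contra hcon
      push Not at hcon
      have := Real.rpow_lt_rpow h1c.le hcon h0
      linarith
    -- convexity
    have hs4 : (1 - u) ^ n ≤ 1 - lam * u := by
      have hm1 : (1 : ℝ) ∈ Set.Ici (0 : ℝ) := Set.mem_Ici.2 zero_le_one
      have hm2 : (1 - u₁ : ℝ) ∈ Set.Ici (0 : ℝ) := Set.mem_Ici.2 (by linarith)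
      have ha0 : 0 ≤ 1 - u / u₁ := by rw [sub_nonneg, div_le_one hu₁0]; exact huu.le
      have hb0 : 0 ≤ u / u₁ := by positivity
      have hcv := (convexOn_pow (𝕜 := ℝ) n).2 hm1 hm2 ha0 hb0 (by ring)
      simp only [smul_eq_mul, one_pow, mul_one] at hcv
      have e3 : 1 - u / u₁ + u / u₁ * (1 - u₁) = 1 - u := by field_simp; ring
      rw [e3] at hcv
      have e4 : u / u₁ * (1 - u₁) ^ n ≤ u / u₁ * (1 - c) :=
        mul_le_mul_of_nonneg_left hs3 (by positivity)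
      have e5 : 1 - u / u₁ + u / u₁ * (1 - c) = 1 - lam * u := by
        rw [← hlu]; field_simp; ring
      linarith
    have hlu1 : lam * u ≤ 1 := by nlinarith
    have hh := hoelder2 h0 h1 (x := c * Q) (y := lam * u) (by positivity) (by linarith)
      (by positivity) hlu1
    have e6 : (c * Q) ^ (1 - γ) * (lam * u) ^ γ = Q ^ (1 - γ) * u ^ γ := by
      rw [Real.mul_rpow hc.le hQ0, Real.mul_rpow hlam0.le hu0]
      calc c ^ (1 - γ) * Q ^ (1 - γ) * (lam ^ γ * u ^ γ)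
          = (c ^ (1 - γ) * lam ^ γ) * (Q ^ (1 - γ) * u ^ γ) := by ring
        _ = _ := by rw [hlc, one_mul]
    rw [e6] at hh
    have hs5 : (1 - u) ^ ((n : ℝ) * γ) ≤ (1 - lam * u) ^ γ := by
      rw [Real.rpow_mul (by linarith), Real.rpow_natCast]
      exact Real.rpow_le_rpow (pow_nonneg (by linarith) _) hs4 h0.le
    have := mul_le_mul_of_nonneg_left hs5 hA0.le
    linarith

/-- the form of the key inequality used by the induction -/
theorem star_key {n : ℕ} {γ c : ℝ} (h0 : 0 < γ) (h1 : γ < 1) (hc : 0 < c) (hc1 : c < 1)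
    (hS : Star n γ c) {β : ℝ} (hβ : β = γ / (1 - γ)) {Q u : ℝ} (hQ0 : 0 ≤ Q) (hQ1 : Q ≤ 1)
    (hu0 : 0 ≤ u) (hu1 : u ≤ 1) :
    (1 - c * Q) * (1 - u) ^ ((n : ℝ) * β) ≤ (1 - (Q * u ^ β) ^ (1 / (1 + β))) ^ (1 + β) := by
  have hg : 0 < 1 - γ := by linarith
  have hcQ : 0 < 1 - c * Q := by nlinarith
  have hβ1 : 1 + β = 1 / (1 - γ) := by rw [hβ]; field_simp; ring
  have hβ2 : 1 / (1 + β) = 1 - γ := by rw [hβ1]; field_simp
  have hβg : β * (1 - γ) = γ := by rw [hβ]; field_simp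
  have hb0 : 0 ≤ 1 + β := by rw [hβ1]; positivity
  have hk := star_all h0 h1 hc hc1 hS hQ0 hQ1 hu0 hu1
  have e1 : (Q * u ^ β) ^ (1 / (1 + β)) = Q ^ (1 - γ) * u ^ γ := by
    rw [hβ2, Real.mul_rpow hQ0 (Real.rpow_nonneg hu0 _), ← Real.rpow_mul hu0, hβg]
  have e2 : ((1 - c * Q) ^ (1 - γ) * (1 - u) ^ ((n : ℝ) * γ)) ^ (1 + β) =
      (1 - c * Q) * (1 - u) ^ ((n : ℝ) * β) := by
    rw [Real.mul_rpow (Real.rpow_nonneg hcQ.le _) (Real.rpow_nonneg (by linarith) _),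
      ← Real.rpow_mul hcQ.le, ← Real.rpow_mul (by linarith), hβ1]
    have a1 : (1 - γ) * (1 / (1 - γ)) = 1 := by field_simp
    have a2 : (n : ℝ) * γ * (1 / (1 - γ)) = n * β := by rw [hβ]; ring
    rw [a1, a2, Real.rpow_one]
  rw [← e2, e1]
  exact Real.rpow_le_rpow (mul_nonneg (Real.rpow_nonneg hcQ.le _)
    (Real.rpow_nonneg (by linarith) _)) hk hb0

/-- the split inequality of the potential -/
theorem os2 {n : ℕ} (hn : 2 ≤ n) {c β : ℝ} (hc : 0 < c) (hc1 : c < 1) (hβ : 0 < β)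
    (hK : ∀ Q u : ℝ, 0 ≤ Q → Q ≤ 1 → 0 ≤ u → u ≤ 1 →
      (1 - c * Q) * (1 - u) ^ ((n : ℝ) * β) ≤ (1 - (Q * u ^ β) ^ (1 / (1 + β))) ^ (1 + β))
    {a₀ a' R₀ R' ρ : ℝ}
    (ha₀ : 0 < a₀) (ha' : 0 < a') (hR₀ : 0 < R₀) (hR' : 0 < R')
    (h1 : R₀ ≤ ρ) (h2 : R' + c * R₀ ≤ ρ) :
    q n β (a₀ + a') ρ ^ n ≤ q n β a₀ R₀ ^ n + q n β a' R' * q n β (a₀ + a') ρ ^ (n - 1) := by
  have hρ : 0 < ρ := lt_of_lt_of_le hR₀ h1
  have ha : 0 < a₀ + a' := by linarith
  have hn1 : 1 ≤ n := by omega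
  have hn0 : (0:ℝ) < n := by exact_mod_cast (show 0 < n by omega)
  set a := a₀ + a' with hadef
  set p := q n β a ρ with hp
  have hp0 : 0 < p := q_pos n β ha hρ
  set x := a₀ / a with hx
  have hx0 : 0 < x := by positivity
  have hx1 : 1 - x = a' / a := by rw [hx]; field_simp; rw [hadef]; ring
  have hx1' : 0 < 1 - x := by rw [hx1]; positivity
  set Q := R₀ / ρ with hQ
  have hQ0 : 0 < Q := by positivity
  have hQ1 : Q ≤ 1 := by rw [hQ, div_le_one hρ]; exact h1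
  set u := (x ^ (1 + β) / Q) ^ (1 / β) with hu
  have hu0 : 0 < u := by positivity
  have hp₀ : q n β a₀ R₀ ^ n = u * p ^ n := by
    rw [q_pow n hn1 hβ ha₀ hR₀, hp, q_pow n hn1 hβ ha hρ, hu,
      ← Real.mul_rpow (by positivity) (by positivity)]
    congr 1
    rw [hx, hQ, Real.div_rpow ha₀.le ha.le]
    field_simp
  set v := q n β a' R' / p with hv
  have hv0 : 0 < v := div_pos (q_pos n β ha' hR') hp0
  have hcQ : 0 < 1 - c * Q := by nlinarith
  have hvp : (1 - x) ^ (1 + β) / (1 - c * Q) ≤ v ^ ((n:ℝ) * β) := by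
    rw [hv, Real.div_rpow (q_nonneg n β ha'.le hR'.le) hp0.le, q_rpow n hn1 hβ ha' hR', hp,
      q_rpow n hn1 hβ ha hρ, hx1, Real.div_rpow ha'.le ha.le]
    have e : a' ^ (1 + β) / R' / (a ^ (1 + β) / ρ) = a' ^ (1 + β) / a ^ (1 + β) / (R' / ρ) := by
      field_simp
    rw [e]
    apply div_le_div_of_nonneg_left (by positivity) (by positivity)
    rw [div_le_iff₀ hρ, hQ]
    have : (1 - c * (R₀ / ρ)) * ρ = ρ - c * R₀ := by field_simp
    rw [this]
    linarith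
  have key : 1 ≤ u + v := by
    rcases le_or_gt 1 u with hu1 | hu1
    · linarith
    · have hK := hK Q u hQ0.le hQ1 hu0.le hu1.le
      have hxu : (Q * u ^ β) ^ (1 / (1 + β)) = x := by
        rw [hu, ← Real.rpow_mul (by positivity)]
        have : 1 / β * β = 1 := by field_simp
        rw [this, Real.rpow_one]
        have : Q * (x ^ (1 + β) / Q) = x ^ (1 + β) := by field_simp
        rw [this, ← Real.rpow_mul hx0.le]
        have : (1 + β) * (1 / (1 + β)) = 1 := by field_simp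
        rw [this, Real.rpow_one]
      rw [hxu] at hK
      have h3 : (1 - u) ^ ((n:ℝ) * β) ≤ (1 - x) ^ (1 + β) / (1 - c * Q) := by
        rw [le_div_iff₀ hcQ]; linarith
      have h4 : (1 - u) ^ ((n:ℝ) * β) ≤ v ^ ((n:ℝ) * β) := h3.trans hvp
      have h5 : 1 - u ≤ v := by
        by_contra hcon
        push Not at hcon
        have := Real.rpow_lt_rpow hv0.le hcon (show 0 < (n:ℝ) * β by positivity)
        linarith
      linarith
  rw [hp₀]
  have e : q n β a' R' * p ^ (n - 1) = v * p ^ n := by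
    rw [hv]
    have : p ^ n = p * p ^ (n - 1) := by
      rw [← pow_succ']; congr 1; omega
    rw [this]
    field_simp
  rw [e]
  nlinarith [pow_pos hp0 n]

end Run7.h188.Iso
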