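import Pool.Agent.Run7.h188.IsoA

set_option autoImplicit false

/-! Weights dominated by the isoperimetric constants, and the induction. -/

namespace Run7.h188.Iso

open Finset Pool.Agent.N811.IS
open Pool.Agent.H384R3.SPk (q q_nonneg q_rpow)
open scoped Pointwise

section
variable {G : Type*} [AddCommGroup G] [DecidableEq G]

/-- weights on `A` which are dominated by the isoperimetric constants of the subsets of `A` -/
def Dom (θ : ℝ) (A : Finset G) (w : G → ℝ) : Prop :=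
  (∀ a, 0 ≤ w a) ∧ ∀ S, S ⊆ A → ∑ a ∈ S, w a ≤ rho θ S

theorem dom_zero (θ : ℝ) (A : Finset G) : Dom θ A fun _ => 0 :=
  ⟨fun _ => le_rfl, fun S _ => by simpa using rho_nonneg θ S⟩

instance (θ : ℝ) (A : Finset G) : Nonempty {w : G → ℝ // Dom θ A w} := ⟨⟨_, dom_zero θ A⟩⟩

/-- the largest mass of a dominated weight -/
noncomputable def RR (θ : ℝ) (A : Finset G) : ℝ :=
  ⨆ w : {w : G → ℝ // Dom θ A w}, ∑ a ∈ A, w.1 a

theorem RR_bdd (θ : ℝ) (A : Finset G) :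
    BddAbove (Set.range fun w : {w : G → ℝ // Dom θ A w} => ∑ a ∈ A, w.1 a) :=
  ⟨rho θ A, by rintro _ ⟨w, rfl⟩; exact w.2.2 A (Finset.Subset.refl A)⟩

theorem RR_le_rho (θ : ℝ) (A : Finset G) : RR θ A ≤ rho θ A :=
  ciSup_le fun w => w.2.2 A (Finset.Subset.refl A)

theorem le_RR {θ : ℝ} {A : Finset G} {w : G → ℝ} (h : Dom θ A w) : ∑ a ∈ A, w a ≤ RR θ A :=
  le_ciSup (RR_bdd θ A) ⟨w, h⟩

theorem RR_nonneg (θ : ℝ) (A : Finset G) : 0 ≤ RR θ A := by
  have := le_RR (dom_zero θ A)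
  simpa using this

theorem sum_ind (S A : Finset G) (w : G → ℝ) :
    ∑ a ∈ S, (if a ∈ A then w a else 0) = ∑ a ∈ S ∩ A, w a := by
  rw [← Finset.sum_filter, Finset.filter_mem_eq_inter]

theorem RR_mono (θ : ℝ) {A B : Finset G} (h : A ⊆ B) : RR θ A ≤ RR θ B := by
  refine ciSup_le fun w => ?_
  have hd : Dom θ B fun a => if a ∈ A then w.1 a else 0 := by
    refine ⟨fun a => ?_, fun S _ => ?_⟩
    · dsimp only
      split_ifs
      · exact w.2.1 a
      · exact le_rfl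
    · rw [sum_ind]
      exact (w.2.2 _ Finset.inter_subset_right).trans (rho_mono θ Finset.inter_subset_left)
  have := le_RR hd
  rw [sum_ind, Finset.inter_eq_right.2 h] at this
  exact this

theorem one_le_RR {θ : ℝ} (hθ : θ ≤ 1) {A : Finset G} (hA : A.Nonempty) : 1 ≤ RR θ A := by
  obtain ⟨b, hb⟩ := hA
  have hd : Dom θ A fun a => if a ∈ ({b} : Finset G) then (1:ℝ) else 0 := by
    refine ⟨fun a => ?_, fun S _ => ?_⟩
    · dsimp only
      split_ifs <;> norm_num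
    · rw [sum_ind S {b} fun _ => (1:ℝ)]
      by_cases hS : b ∈ S
      · rw [Finset.inter_singleton_of_mem hS, Finset.sum_singleton]
        exact one_le_rho hθ ⟨b, hS⟩
      · rw [Finset.inter_singleton_of_notMem hS, Finset.sum_empty]
        exact rho_nonneg θ S
  have := le_RR hd
  rw [sum_ind A {b} fun _ => (1:ℝ), Finset.inter_singleton_of_mem hb, Finset.sum_singleton] at this
  exact this

theorem RR_step {θ c : ℝ} (hθ : 1 / 2 ≤ θ) (hθ1 : θ < 1) (hc : 0 < c) (hcθ : c ≤ 2 ^ (1 - θ) - 1)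
    (H : AddSubgroup G) {A A₀ A₁ : Finset G} (h0 : A₀ ⊆ A) (h1 : A₁ ⊆ A)
    (hH0 : ∀ a ∈ A₀, a ∉ H) (hH1 : ∀ a ∈ A₁, a ∈ H) :
    RR θ A₁ + c * RR θ A₀ ≤ RR θ A := by
  have key : ∀ w₁ w₀ : G → ℝ, Dom θ A₁ w₁ → Dom θ A₀ w₀ →
      ∑ a ∈ A₁, w₁ a + c * ∑ a ∈ A₀, w₀ a ≤ RR θ A := by
    intro w₁ w₀ d₁ d₀
    have hd : Dom θ A fun a => (if a ∈ A₁ then w₁ a else 0) + (if a ∈ A₀ then c * w₀ a else 0) := by
      refine ⟨fun a => ?_, fun S _ => ?_⟩
      · dsimp only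
        have := d₁.1 a
        have := d₀.1 a
        split_ifs <;> positivity
      · rw [Finset.sum_add_distrib, sum_ind, sum_ind S A₀ fun a => c * w₀ a, ← Finset.mul_sum]
        have s1 := d₁.2 (S ∩ A₁) Finset.inter_subset_right
        have s0 := d₀.2 (S ∩ A₀) Finset.inter_subset_right
        have hs := rho_step hθ hθ1 H (A := S) (A₀ := S ∩ A₀) (A₁ := S ∩ A₁)
          Finset.inter_subset_left Finset.inter_subset_left
          (fun a ha => hH0 a (Finset.mem_inter.1 ha).2)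
          (fun a ha => hH1 a (Finset.mem_inter.1 ha).2)
        have r0 := rho_nonneg θ (S ∩ A₀)
        have t1 : c * ∑ a ∈ S ∩ A₀, w₀ a ≤ c * rho θ (S ∩ A₀) := mul_le_mul_of_nonneg_left s0 hc.le
        have t2 : c * rho θ (S ∩ A₀) ≤ (2 ^ (1 - θ) - 1) * rho θ (S ∩ A₀) :=
          mul_le_mul_of_nonneg_right hcθ r0
        linarith
    have := le_RR hd
    rw [Finset.sum_add_distrib, sum_ind, sum_ind A A₀ fun a => c * w₀ a, ← Finset.mul_sum,
      Finset.inter_eq_right.2 h1, Finset.inter_eq_right.2 h0] at this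
    exact this
  have k1 : ∀ w₀ : G → ℝ, Dom θ A₀ w₀ → RR θ A₁ ≤ RR θ A - c * ∑ a ∈ A₀, w₀ a := by
    intro w₀ d₀
    refine ciSup_le fun w => ?_
    have := key w.1 w₀ w.2 d₀
    linarith
  have k2 : RR θ A₀ ≤ (RR θ A - RR θ A₁) / c := by
    refine ciSup_le fun w => ?_
    rw [le_div_iff₀ hc]
    have := k1 w.1 w.2
    linarith
  rw [le_div_iff₀ hc] at k2
  linarith

end

universe u

section
variable {R : Type u} [CommRing R] [DecidableEq R] (V : VR R)

/-- the product inequality for several sets -/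
theorem main2 {n : ℕ} (hn : 2 ≤ n) {θ c γ β : ℝ} (hθ : 1 / 2 ≤ θ) (hθ1 : θ < 1)
    (hc : 0 < c) (hcθ : c ≤ 2 ^ (1 - θ) - 1) (h0 : 0 < γ) (h1 : γ < 1) (hS : Star n γ c)
    (hβ : β = γ / (1 - γ))
    (A : Fin n → Finset R) (hAn : ∀ i, (A i).Nonempty) (hAp : ∀ i, ∀ a ∈ A i, a ∈ V.S) :
    ∏ i, q n β ((A i).card : ℝ) (RR θ (A i)) ≤ ((prodset A).card : ℝ) := by
  have hn1 : 1 ≤ n := by omega
  have hX2 : (2:ℝ) ^ (1 - θ) < 2 := by
    have : (2:ℝ) ^ (1 - θ) < 2 ^ (1:ℝ) :=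
      Real.rpow_lt_rpow_of_exponent_lt (by norm_num) (by linarith)
    rwa [Real.rpow_one] at this
  have hc1 : c < 1 := by linarith
  have hβ0 : 0 < β := by rw [hβ]; exact div_pos h0 (by linarith)
  refine ind V hn1 (fun A => q n β ((A.card : ℝ)) (RR θ A)) ?_ ?_ ?_ A hAn hAp
  · intro A
    exact q_nonneg n β (Nat.cast_nonneg _) (RR_nonneg θ A)
  · intro p A A₀ A' j hA0 hne0 hne' hdisj hun hv0 hv'
    have hcard : (A.card : ℝ) = A₀.card + A'.card := by
      rw [← hun, Finset.card_union_of_disjoint hdisj]; push_cast; ring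
    have s0 : A₀ ⊆ A := by rw [← hun]; exact Finset.subset_union_left
    have s1 : A' ⊆ A := by rw [← hun]; exact Finset.subset_union_right
    have r0 := one_le_RR hθ1.le hne0
    have r1 := one_le_RR hθ1.le hne'
    have hR0 : RR θ A₀ ≤ RR θ A := RR_mono θ s0
    have hstep := RR_step hθ hθ1 hc hcθ (V.H p (j + 1)) s0 s1
      (fun a ha h => by
        have := (V.mem_H p (j + 1) a (hA0 a (s0 ha))).1 h
        rw [hv0 a ha] at this
        omega)
      (fun a ha => (V.mem_H p (j + 1) a (hA0 a (s1 ha))).2 (hv' a ha))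
    have := os2 hn hc hc1 hβ0 (fun Q u hQ0 hQ1 hu0 hu1 =>
      star_key h0 h1 hc hc1 hS hβ hQ0 hQ1 hu0 hu1) (a₀ := (A₀.card : ℝ)) (a' := (A'.card : ℝ))
      (by exact_mod_cast hne0.card_pos) (by exact_mod_cast hne'.card_pos)
      (by linarith) (by linarith) hR0 hstep
    rw [← hcard] at this
    exact this
  · intro a ha
    have h1 := one_le_RR (θ := θ) hθ1.le (Finset.singleton_nonempty a)
    have : (({a} : Finset R).card : ℝ) ^ (1 + β) / RR θ {a} ≤ 1 := by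
      rw [Finset.card_singleton, Nat.cast_one, Real.one_rpow, div_le_one (by linarith)]
      exact h1
    have h0 : 0 ≤ (({a} : Finset R).card : ℝ) ^ (1 + β) / RR θ {a} :=
      div_nonneg (Real.rpow_nonneg (Nat.cast_nonneg _) _) (by linarith)
    exact Real.rpow_le_one h0 this (by positivity)

/-- the sharper inequality for several sets, in terms of the weights -/
theorem family2 {n : ℕ} (hn : 2 ≤ n) {θ c γ β : ℝ} (hθ : 1 / 2 ≤ θ) (hθ1 : θ < 1)
    (hc : 0 < c) (hcθ : c ≤ 2 ^ (1 - θ) - 1) (h0 : 0 < γ) (h1 : γ < 1) (hS : Star n γ c)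
    (hβ : β = γ / (1 - γ))
    (A : Fin n → Finset R) (hA : ∀ i, (A i).Nonempty) (hAp : ∀ i, ∀ a ∈ A i, a ∈ V.S) :
    ∏ i, ((A i).card : ℝ) ^ (1 + β) ≤
      (∏ i, RR θ (A i)) * ((prodset A).card : ℝ) ^ ((n : ℝ) * β) := by
  have hn1 : 1 ≤ n := by omega
  have hn0 : (0:ℝ) < n := by exact_mod_cast (show 0 < n by omega)
  have hβ0 : 0 < β := by rw [hβ]; exact div_pos h0 (by linarith)
  have hm := main2 V hn hθ hθ1 hc hcθ h0 h1 hS hβ A hA hAp
  have hR : ∀ i, 1 ≤ RR θ (A i) := fun i => one_le_RR hθ1.le (hA i)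
  have hR0 : ∀ i, 0 < RR θ (A i) := fun i => by have := hR i; linarith
  have hcard : ∀ i, (1:ℝ) ≤ (A i).card := fun i => by exact_mod_cast (hA i).card_pos
  set P : ℝ := ((prodset A).card : ℝ) with hP
  have h2 := Real.rpow_le_rpow (Finset.prod_nonneg fun i _ => q_nonneg n β (Nat.cast_nonneg _)
    (hR0 i).le) hm (show 0 ≤ (n:ℝ) * β by positivity)
  rw [← Real.finsetProd_rpow _ _ (fun i _ => q_nonneg n β (Nat.cast_nonneg _) (hR0 i).le)] at h2
  have e1 : ∀ i ∈ (Finset.univ : Finset (Fin n)),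
      q n β ((A i).card : ℝ) (RR θ (A i)) ^ ((n:ℝ) * β) =
        ((A i).card : ℝ) ^ (1 + β) / RR θ (A i) := by
    intro i _
    have := hcard i
    exact q_rpow n hn1 hβ0 (by linarith) (hR0 i)
  rw [Finset.prod_congr rfl e1, Finset.prod_div_distrib,
    div_le_iff₀ (Finset.prod_pos fun i _ => hR0 i)] at h2
  rw [mul_comm]
  exact h2

/-- one set -/
theorem one2 {n : ℕ} (hn : 2 ≤ n) {θ c γ β : ℝ} (hθ : 1 / 2 ≤ θ) (hθ1 : θ < 1)
    (hc : 0 < c) (hcθ : c ≤ 2 ^ (1 - θ) - 1) (h0 : 0 < γ) (h1 : γ < 1) (hS : Star n γ c)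
    (hβ : β = γ / (1 - γ))
    (A : Finset R) (hA : A.Nonempty) (hAp : ∀ a ∈ A, a ∈ V.S) :
    (A.card : ℝ) ^ (1 + β) ≤ RR θ A * ((prodset fun _ : Fin n => A).card : ℝ) ^ β := by
  have h := family2 V hn hθ hθ1 hc hcθ h0 h1 hS hβ (fun _ => A) (fun _ => hA) (fun _ => hAp)
  rw [Finset.prod_const, Finset.prod_const, Finset.card_univ, Fintype.card_fin] at h
  have e : ((prodset fun _ : Fin n => A).card : ℝ) ^ ((n : ℝ) * β) =
      (((prodset fun _ : Fin n => A).card : ℝ) ^ β) ^ n := by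
    rw [← Real.rpow_natCast, ← Real.rpow_mul (Nat.cast_nonneg _), mul_comm]
  rw [e, ← mul_pow] at h
  exact le_of_pow_le_pow_left₀ (by omega) (mul_nonneg (RR_nonneg θ A) (by positivity)) h

/-- the isoperimetric inequality for several sets -/
theorem iso_family2 {n : ℕ} (hn : 2 ≤ n) {θ c γ β : ℝ} (hθ : 1 / 2 ≤ θ) (hθ1 : θ < 1)
    (hc : 0 < c) (hcθ : c ≤ 2 ^ (1 - θ) - 1) (h0 : 0 < γ) (h1 : γ < 1) (hS : Star n γ c)
    (hβ : β = γ / (1 - γ))
    (A : Fin n → Finset R) (hA : ∀ i, (A i).Nonempty) (hAp : ∀ i, ∀ a ∈ A i, a ∈ V.S)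
    (X : Fin n → Finset R) (hX : ∀ i, (X i).Nonempty) :
    ∏ i, (((A i).card : ℝ) ^ (1 + β) * ((X i).card : ℝ) ^ θ) ≤
      (∏ i, ((A i + X i).card : ℝ)) * ((prodset A).card : ℝ) ^ ((n : ℝ) * β) := by
  have h := family2 V hn hθ hθ1 hc hcθ h0 h1 hS hβ A hA hAp
  set P : ℝ := ((prodset A).card : ℝ) ^ ((n : ℝ) * β) with hP
  have hP0 : 0 ≤ P := by positivity
  rw [Finset.prod_mul_distrib]
  calc (∏ i, ((A i).card : ℝ) ^ (1 + β)) * ∏ i, ((X i).card : ℝ) ^ θ
      ≤ ((∏ i, RR θ (A i)) * P) * ∏ i, ((X i).card : ℝ) ^ θ :=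
        mul_le_mul_of_nonneg_right h (Finset.prod_nonneg fun i _ => by positivity)
    _ = P * ∏ i, (RR θ (A i) * ((X i).card : ℝ) ^ θ) := by
        rw [Finset.prod_mul_distrib]; ring
    _ ≤ P * ∏ i, ((A i + X i).card : ℝ) := by
        apply mul_le_mul_of_nonneg_left _ hP0
        apply Finset.prod_le_prod
        · intro i _; exact mul_nonneg (RR_nonneg θ (A i)) (by positivity)
        · intro i _
          refine le_trans ?_ (rho_mul_le θ (A i) (hX i))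
          exact mul_le_mul_of_nonneg_right (RR_le_rho θ (A i)) (by positivity)
    _ = _ := mul_comm _ _

/-- the isoperimetric inequality for one set -/
theorem iso_one2 {n : ℕ} (hn : 2 ≤ n) {θ c γ β : ℝ} (hθ : 1 / 2 ≤ θ) (hθ1 : θ < 1)
    (hc : 0 < c) (hcθ : c ≤ 2 ^ (1 - θ) - 1) (h0 : 0 < γ) (h1 : γ < 1) (hS : Star n γ c)
    (hβ : β = γ / (1 - γ))
    (A : Finset R) (hA : A.Nonempty) (hAp : ∀ a ∈ A, a ∈ V.S) (X : Finset R) (hX : X.Nonempty) :
    (A.card : ℝ) ^ (1 + β) * (X.card : ℝ) ^ θ ≤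
      ((A + X).card : ℝ) * ((prodset fun _ : Fin n => A).card : ℝ) ^ β := by
  have h := one2 V hn hθ hθ1 hc hcθ h0 h1 hS hβ A hA hAp
  calc (A.card : ℝ) ^ (1 + β) * (X.card : ℝ) ^ θ
      ≤ (RR θ A * ((prodset fun _ : Fin n => A).card : ℝ) ^ β) * (X.card : ℝ) ^ θ :=
        mul_le_mul_of_nonneg_right h (by positivity)
    _ = (RR θ A * (X.card : ℝ) ^ θ) * ((prodset fun _ : Fin n => A).card : ℝ) ^ β := by ring
    _ ≤ _ := by
        apply mul_le_mul_of_nonneg_right _ (by positivity)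
        refine le_trans ?_ (rho_mul_le θ A hX)
        exact mul_le_mul_of_nonneg_right (RR_le_rho θ A) (by positivity)

end

end Run7.h188.Iso
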