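import Pool.Agent.Run7.h188.IsoB

set_option autoImplicit false

/-! The dilation argument: a set of integers whose product with some set is small. -/

namespace Run7.h188.Iso

open Finset Pool.Agent.N811.IS
open scoped Pointwise

/-- dilate -/
def dil (m : ℤ) (S : Finset ℤ) : Finset ℤ := S.image fun x => m * x

theorem mem_dil {m : ℤ} {S : Finset ℤ} {z : ℤ} : z ∈ dil m S ↔ ∃ x ∈ S, m * x = z := by
  simp [dil]

theorem card_dil {m : ℤ} (hm : m ≠ 0) (S : Finset ℤ) : (dil m S).card = S.card :=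
  Finset.card_image_of_injective _ fun _ _ h => mul_left_cancel₀ hm h

theorem rho_dil_le {m : ℤ} (hm : m ≠ 0) (θ : ℝ) (S : Finset ℤ) : rho θ (dil m S) ≤ rho θ S := by
  refine le_rho fun X hX => ?_
  have h := rho_mul_le θ (dil m S) (X := dil m X) (hX.image _)
  rw [card_dil hm] at h
  have e : dil m S + dil m X = dil m (S + X) := by
    ext z
    simp only [Finset.mem_add, mem_dil]
    constructor
    · rintro ⟨_, ⟨x, hx, rfl⟩, _, ⟨y, hy, rfl⟩, rfl⟩
      exact ⟨x + y, ⟨x, hx, y, hy, rfl⟩, by ring⟩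
    · rintro ⟨_, ⟨x, hx, y, hy, rfl⟩, rfl⟩
      exact ⟨m * x, ⟨x, hx, rfl⟩, m * y, ⟨y, hy, rfl⟩, by ring⟩
  rw [e, card_dil hm] at h
  exact h

theorem rho_le_dil {m : ℤ} (hm : m ≠ 0) {θ : ℝ} (hθ1 : θ ≤ 1) (S : Finset ℤ) :
    rho θ S ≤ rho θ (dil m S) := by
  refine le_rho fun X hX => ?_
  set J := X.image fun x => x % m with hJ
  set Y : ℤ → Finset ℤ := fun c => (X.filter fun x => x % m = c).image fun x => x / m with hY
  have hcardY : ∀ c, (Y c).card = (X.filter fun x => x % m = c).card := by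
    intro c
    apply Finset.card_image_of_injOn
    intro x hx y hy hxy
    simp only [Finset.coe_filter, Set.mem_ofPred_eq] at hx hy
    have h1 := Int.emod_add_mul_ediv x m
    have h2 := Int.emod_add_mul_ediv y m
    dsimp only at hxy
    rw [hx.2, hxy] at h1
    rw [hy.2] at h2
    exact h1.symm.trans h2
  have hYne : ∀ c ∈ J, (Y c).Nonempty := by
    intro c hc
    obtain ⟨x, hx, hxc⟩ := Finset.mem_image.1 hc
    exact ⟨x / m, Finset.mem_image.2 ⟨x, Finset.mem_filter.2 ⟨hx, hxc⟩, rfl⟩⟩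
  have hsum : X.card = ∑ c ∈ J, (Y c).card := by
    rw [Finset.card_eq_sum_card_image (fun x => x % m) X]
    exact Finset.sum_congr rfl fun c _ => (hcardY c).symm
  have hX1 : (1:ℝ) ≤ X.card := by exact_mod_cast hX.card_pos
  -- concavity
  have hconc : (X.card : ℝ) ^ θ ≤ ∑ c ∈ J, ((Y c).card : ℝ) ^ θ := by
    have h1 : (X.card : ℝ) ^ θ = (X.card : ℝ) ^ (θ - 1) * X.card := by
      rw [← Real.rpow_add_one (by linarith)]; congr 1; ring
    have h2 : (X.card : ℝ) = ∑ c ∈ J, ((Y c).card : ℝ) := by rw [hsum]; push_cast; rfl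
    rw [h1]
    nth_rewrite 2 [h2]
    rw [Finset.mul_sum]
    apply Finset.sum_le_sum
    intro c hc
    have hy1 : (1:ℝ) ≤ (Y c).card := by exact_mod_cast (hYne c hc).card_pos
    have hyX : ((Y c).card : ℝ) ≤ X.card := by
      rw [hcardY]
      exact_mod_cast Finset.card_filter_le _ _
    have h3 : ((Y c).card : ℝ) ^ θ = ((Y c).card : ℝ) ^ (θ - 1) * (Y c).card := by
      rw [← Real.rpow_add_one (by linarith)]; congr 1; ring
    rw [h3]
    apply mul_le_mul_of_nonneg_right _ (by linarith)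
    exact Real.rpow_le_rpow_of_nonpos (by linarith) hyX (by linarith)
  -- the classes
  have hsub : J.biUnion (fun c => (S + Y c).image fun z => m * z + c) ⊆ dil m S + X := by
    intro z hz
    obtain ⟨c, _, hz⟩ := Finset.mem_biUnion.1 hz
    obtain ⟨w, hw, rfl⟩ := Finset.mem_image.1 hz
    obtain ⟨s, hs, y, hy, rfl⟩ := Finset.mem_add.1 hw
    obtain ⟨x, hx, rfl⟩ := Finset.mem_image.1 hy
    obtain ⟨hxX, hxc⟩ := Finset.mem_filter.1 hx
    refine Finset.mem_add.2 ⟨m * s, mem_dil.2 ⟨s, hs, rfl⟩, x, hxX, ?_⟩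
    have := Int.emod_add_mul_ediv x m
    rw [hxc] at this
    linarith
  have hJc : ∀ c ∈ J, ∃ x ∈ X, x % m = c := fun c hc => Finset.mem_image.1 hc
  have hd : Set.PairwiseDisjoint (↑J) fun c => (S + Y c).image fun z => m * z + c := by
    intro c hc d hd hcd
    simp only [Function.onFun]
    rw [Finset.disjoint_left]
    intro z hz hz'
    obtain ⟨w, _, rfl⟩ := Finset.mem_image.1 hz
    obtain ⟨w', _, hw'⟩ := Finset.mem_image.1 hz'
    apply hcd
    obtain ⟨x, _, hx⟩ := hJc c hc
    obtain ⟨x', _, hx'⟩ := hJc d hd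
    have h1 : (m * w + c) % m = c := by
      rw [← hx, Int.add_emod, Int.mul_emod_right, zero_add, Int.emod_emod, Int.emod_emod]
    have h2 : (m * w' + d) % m = d := by
      rw [← hx', Int.add_emod, Int.mul_emod_right, zero_add, Int.emod_emod, Int.emod_emod]
    rw [← h1, ← hw', h2]
  have hc2 := Finset.card_le_card hsub
  rw [Finset.card_biUnion hd] at hc2
  have hc3 : (∑ c ∈ J, ((S + Y c).card : ℝ)) ≤ ((dil m S + X).card : ℝ) := by
    have : ∀ c ∈ J, ((S + Y c).image fun z => m * z + c).card = (S + Y c).card := by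
      intro c _
      apply Finset.card_image_of_injective
      intro a b hab
      have : m * a = m * b := by
        dsimp only at hab
        linarith
      exact mul_left_cancel₀ hm this
    rw [Finset.sum_congr rfl this] at hc2
    exact_mod_cast hc2
  calc rho θ S * (X.card : ℝ) ^ θ ≤ rho θ S * ∑ c ∈ J, ((Y c).card : ℝ) ^ θ :=
        mul_le_mul_of_nonneg_left hconc (rho_nonneg θ S)
    _ = ∑ c ∈ J, rho θ S * ((Y c).card : ℝ) ^ θ := Finset.mul_sum _ _ _
    _ ≤ ∑ c ∈ J, ((S + Y c).card : ℝ) :=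
        Finset.sum_le_sum fun c hc => rho_mul_le θ S (hYne c hc)
    _ ≤ _ := hc3

/-- the averaging argument -/
theorem avg {θ : ℝ} (hθ1 : θ ≤ 1) {A B : Finset ℤ} (hA : (0:ℤ) ∉ A) (hB : ∀ b ∈ B, 0 < b)
    {M : ℤ} (hM : 0 < M) (hdvd : ∀ b ∈ B, b ∣ M) :
    (A.card : ℝ) * RR θ (B.image fun b => M / b) ≤ ((A * B).card : ℝ) * rho θ A := by
  classical
  have hinj : Set.InjOn (fun b : ℤ => M / b) (B : Set ℤ) := by
    intro b hb b' hb' h
    have hb1 := Finset.mem_coe.1 hb
    have hb2 := Finset.mem_coe.1 hb'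
    have e1 := Int.ediv_mul_cancel (hdvd b hb1)
    have e2 := Int.ediv_mul_cancel (hdvd b' hb2)
    dsimp only at h
    have h3 : M / b ≠ 0 := by
      intro h0
      rw [h0, zero_mul] at e1
      omega
    rw [← h] at e2
    have : M / b * b = M / b * b' := by rw [e1, e2]
    exact mul_left_cancel₀ h3 this
  rcases Finset.eq_empty_or_nonempty A with rfl | hAne
  · simp only [Finset.card_empty, Nat.cast_zero, zero_mul]
    exact mul_nonneg (Nat.cast_nonneg _) (rho_nonneg θ _)
  have hA0 : (0:ℝ) < A.card := by exact_mod_cast hAne.card_pos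
  have key : ∀ w : ℤ → ℝ, Dom θ (B.image fun b => M / b) w →
      ∑ c ∈ B.image (fun b => M / b), w c ≤ ((A * B).card : ℝ) * rho θ A / A.card := by
    intro w hw
    rw [le_div_iff₀ hA0]
    -- the bound for every product
    have hy : ∀ y ∈ A * B, ∑ b ∈ B.filter (fun b => ∃ a ∈ A, a * b = y), w (M / b) ≤ rho θ A := by
      intro y hy
      have hy0 : y ≠ 0 := by
        obtain ⟨a, ha, b, hb, rfl⟩ := Finset.mem_mul.1 hy
        have h1 : a ≠ 0 := fun h => hA (h ▸ ha)
        have h2 := hB b hb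
        exact mul_ne_zero h1 (by omega)
      set Sy := (B.filter fun b => ∃ a ∈ A, a * b = y).image fun b => M / b with hSy
      set Ay := A.filter fun a => ∃ b ∈ B, a * b = y with hAy
      have e : dil M Ay = dil y Sy := by
        ext z
        rw [mem_dil, mem_dil]
        constructor
        · rintro ⟨a, ha, rfl⟩
          obtain ⟨haA, b, hb, hab⟩ := Finset.mem_filter.1 ha
          refine ⟨M / b, Finset.mem_image.2 ⟨b, Finset.mem_filter.2 ⟨hb, a, haA, hab⟩, rfl⟩, ?_⟩
          rw [← hab]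
          calc a * b * (M / b) = a * (M / b * b) := by ring
            _ = M * a := by rw [Int.ediv_mul_cancel (hdvd b hb)]; ring
        · rintro ⟨s, hs, rfl⟩
          obtain ⟨b, hb, rfl⟩ := Finset.mem_image.1 hs
          obtain ⟨hbB, a, haA, hab⟩ := Finset.mem_filter.1 hb
          refine ⟨a, Finset.mem_filter.2 ⟨haA, b, hbB, hab⟩, ?_⟩
          rw [← hab]
          calc M * a = a * (M / b * b) := by rw [Int.ediv_mul_cancel (hdvd b hbB)]; ring
            _ = a * b * (M / b) := by ring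
      have s1 : ∑ c ∈ Sy, w c ≤ rho θ Sy :=
        hw.2 Sy (Finset.image_subset_image (Finset.filter_subset _ _))
      have s2 : rho θ Sy ≤ rho θ (dil y Sy) := rho_le_dil hy0 hθ1 Sy
      have s3 : rho θ (dil M Ay) ≤ rho θ Ay := rho_dil_le hM.ne' θ Ay
      have s4 : rho θ Ay ≤ rho θ A := rho_mono θ (Finset.filter_subset _ _)
      rw [← e] at s2
      have s5 : ∑ c ∈ Sy, w c = ∑ b ∈ B.filter (fun b => ∃ a ∈ A, a * b = y), w (M / b) := by
        rw [hSy, Finset.sum_image]
        exact fun x hx y hy => hinj (Finset.mem_coe.2 (Finset.mem_of_mem_filter x hx))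
          (Finset.mem_coe.2 (Finset.mem_of_mem_filter y hy))
      linarith
    have hsum := Finset.sum_le_sum hy
    rw [Finset.sum_const, nsmul_eq_mul] at hsum
    refine le_trans (le_of_eq ?_) hsum
    rw [Finset.sum_image hinj]
    simp only [Finset.sum_filter]
    rw [Finset.sum_comm, Finset.sum_mul]
    refine Finset.sum_congr rfl fun b hb => ?_
    rw [← Finset.sum_filter, Finset.sum_const, nsmul_eq_mul, mul_comm]
    congr 1
    have hbpos := hB b hb
    have e2 : ((A * B).filter fun y => ∃ a ∈ A, a * b = y) = A.image fun a => a * b := by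
      ext y
      rw [Finset.mem_filter, Finset.mem_image]
      constructor
      · rintro ⟨_, h⟩; exact h
      · rintro ⟨a, ha, rfl⟩
        exact ⟨Finset.mul_mem_mul ha hb, a, ha, rfl⟩
    rw [e2, Finset.card_image_of_injective]
    intro a a' h
    exact mul_right_cancel₀ (by omega) h
  have h2 : RR θ (B.image fun b => M / b) ≤ ((A * B).card : ℝ) * rho θ A / A.card :=
    ciSup_le fun w => key w.1 w.2
  rw [le_div_iff₀ hA0] at h2
  linarith

/-- the set of the complementary divisors has no more products -/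
theorem card_compl {n : ℕ} {B : Finset ℤ} (hB : ∀ b ∈ B, 0 < b) {M : ℤ}
    (hdvd : ∀ b ∈ B, b ∣ M) :
    (prodset fun _ : Fin n => B.image fun b => M / b).card ≤ (prodset fun _ : Fin n => B).card := by
  have hsub : (prodset fun _ : Fin n => B.image fun b => M / b) ⊆
      (prodset fun _ : Fin n => B).image fun y => M ^ n / y := by
    intro z hz
    obtain ⟨f, hf, rfl⟩ := (mem_prodset _ _).1 hz
    have hch : ∀ i, ∃ b ∈ B, M / b = f i := fun i => Finset.mem_image.1 (hf i)
    choose g hg hgf using hch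
    refine Finset.mem_image.2 ⟨∏ i, g i, (mem_prodset _ _).2 ⟨g, hg, rfl⟩, ?_⟩
    have hpos : 0 < ∏ i, g i := Finset.prod_pos fun i _ => hB _ (hg i)
    have e : M ^ n = (∏ i, f i) * ∏ i, g i := by
      rw [← Finset.prod_mul_distrib]
      have : ∀ i ∈ (Finset.univ : Finset (Fin n)), f i * g i = M := by
        intro i _
        rw [← hgf i]
        exact Int.ediv_mul_cancel (hdvd _ (hg i))
      rw [Finset.prod_congr rfl this, Finset.prod_const, Finset.card_univ, Fintype.card_fin]
    rw [e]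
    exact Int.mul_ediv_cancel _ hpos.ne'
  exact (Finset.card_le_card hsub).trans Finset.card_image_le

/-- the dilation inequality -/
theorem dilation {n : ℕ} (hn : 2 ≤ n) {θ c γ β : ℝ} (hθ : 1 / 2 ≤ θ) (hθ1 : θ < 1)
    (hc : 0 < c) (hcθ : c ≤ 2 ^ (1 - θ) - 1) (h0 : 0 < γ) (h1 : γ < 1) (hS : Star n γ c)
    (hβ : β = γ / (1 - γ))
    (A B X : Finset ℤ) (hA : (0:ℤ) ∉ A) (hBne : B.Nonempty) (hB : ∀ b ∈ B, 0 < b)
    (hX : X.Nonempty) :
    (A.card : ℝ) * (X.card : ℝ) ^ θ * (B.card : ℝ) ^ (1 + β) ≤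
      ((A + X).card : ℝ) * ((A * B).card : ℝ) * ((prodset fun _ : Fin n => B).card : ℝ) ^ β := by
  have hβ0 : 0 < β := by rw [hβ]; exact div_pos h0 (by linarith)
  set M : ℤ := ∏ b ∈ B, b with hM
  have hM0 : 0 < M := Finset.prod_pos hB
  have hdvd : ∀ b ∈ B, b ∣ M := fun b hb => Finset.dvd_prod_of_mem _ hb
  set C := B.image fun b => M / b with hC
  have hCpos : ∀ c ∈ C, 0 < c := by
    intro c hc
    obtain ⟨b, hb, rfl⟩ := Finset.mem_image.1 hc
    have h2 := Int.ediv_mul_cancel (hdvd b hb)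
    have h3 := hB b hb
    by_contra hcon
    push Not at hcon
    nlinarith
  have hinj : Set.InjOn (fun b : ℤ => M / b) (B : Set ℤ) := by
    intro b hb b' hb' h
    have e1 := Int.ediv_mul_cancel (hdvd b (Finset.mem_coe.1 hb))
    have e2 := Int.ediv_mul_cancel (hdvd b' (Finset.mem_coe.1 hb'))
    dsimp only at h
    have h3 : M / b ≠ 0 := by
      intro h0
      rw [h0, zero_mul] at e1
      omega
    rw [← h] at e2
    have : M / b * b = M / b * b' := by rw [e1, e2]
    exact mul_left_cancel₀ h3 this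
  have hCcard : C.card = B.card := Finset.card_image_of_injOn hinj
  have h := one2 vrInt hn hθ hθ1 hc hcθ h0 h1 hS hβ C (hBne.image _) hCpos
  rw [hCcard] at h
  have hcomp := card_compl (n := n) hB hdvd
  have hP : ((prodset fun _ : Fin n => C).card : ℝ) ^ β ≤
      ((prodset fun _ : Fin n => B).card : ℝ) ^ β :=
    Real.rpow_le_rpow (Nat.cast_nonneg _) (by exact_mod_cast hcomp) hβ0.le
  have ha := avg hθ1.le (A := A) (B := B) hA hB hM0 hdvd
  have hr := rho_mul_le θ A hX
  set P : ℝ := ((prodset fun _ : Fin n => B).card : ℝ) ^ β with hPd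
  have hP0 : 0 ≤ P := by positivity
  have hRR := RR_nonneg θ C
  have h2 : (B.card : ℝ) ^ (1 + β) ≤ RR θ C * P := h.trans (mul_le_mul_of_nonneg_left hP hRR)
  have hXθ : 0 ≤ (X.card : ℝ) ^ θ := by positivity
  calc (A.card : ℝ) * (X.card : ℝ) ^ θ * (B.card : ℝ) ^ (1 + β)
      ≤ (A.card : ℝ) * (X.card : ℝ) ^ θ * (RR θ C * P) :=
        mul_le_mul_of_nonneg_left h2 (by positivity)
    _ = ((A.card : ℝ) * RR θ C) * (X.card : ℝ) ^ θ * P := by ring
    _ ≤ (((A * B).card : ℝ) * rho θ A) * (X.card : ℝ) ^ θ * P := by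
        apply mul_le_mul_of_nonneg_right _ hP0
        exact mul_le_mul_of_nonneg_right ha hXθ
    _ = ((A * B).card : ℝ) * (rho θ A * (X.card : ℝ) ^ θ) * P := by ring
    _ ≤ ((A * B).card : ℝ) * ((A + X).card : ℝ) * P := by
        apply mul_le_mul_of_nonneg_right _ hP0
        exact mul_le_mul_of_nonneg_left hr (Nat.cast_nonneg _)
    _ = _ := by ring

end Run7.h188.Iso
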