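import Pool.Agent.Run7.h188.IsoC

set_option autoImplicit false

/-! Verification of the condition for explicit parameters. -/

namespace Run7.h188.Iso

theorem low_side {n γ a u : ℝ} (h0 : 0 < γ) (h1 : γ < 1) (hn : 0 < n) (ha1 : a < 1)
    (hu0 : 0 ≤ u) (hua : u < a) (h : n * a ^ (1 - γ) ≤ 1 + (n - 1) * a) :
    n * u ^ (1 - γ) ≤ 1 + (n - 1) * u := by
  have hu1 : 0 < 1 - u := by linarith
  set l := (1 - a) / (1 - u) with hl
  have hl0 : 0 < l := div_pos (by linarith) hu1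
  have hl1 : l ≤ 1 := by rw [hl, div_le_one hu1]; linarith
  have hcv := (Real.concaveOn_rpow (p := 1 - γ) (by linarith) (by linarith)).2
    (Set.mem_Ici.2 hu0) (Set.mem_Ici.2 zero_le_one) hl0.le (show 0 ≤ 1 - l by linarith) (by ring)
  simp only [smul_eq_mul, Real.one_rpow, mul_one] at hcv
  have e : l * u + (1 - l) = a := by rw [hl]; field_simp; ring
  rw [e] at hcv
  have h2 : n * (l * u ^ (1 - γ) + (1 - l)) ≤ 1 + (n - 1) * a :=
    (mul_le_mul_of_nonneg_left hcv hn.le).trans h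
  have h3 : l * (n * u ^ (1 - γ)) ≤ l * (1 + (n - 1) * u) := by
    have : 1 + (n - 1) * a = l * (1 + (n - 1) * u) + (1 - l) * n := by rw [← e]; ring
    rw [this] at h2
    linarith
  exact le_of_mul_le_mul_left h3 hl0

theorem high_side {n γ b u : ℝ} (h0 : 0 < γ) (h1 : γ < 1) (hn : 0 < n) (hb0 : 0 ≤ b)
    (hu1 : u < 1) (hbu : b ≤ u) (h : 1 + (n - 1) * b ≤ n * b ^ (1 - γ)) :
    1 + (n - 1) * u ≤ n * u ^ (1 - γ) := by
  have hb1 : 0 < 1 - b := by linarith
  set l := (1 - u) / (1 - b) with hl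
  have hl0 : 0 < l := div_pos (by linarith) hb1
  have hl1 : l ≤ 1 := by rw [hl, div_le_one hb1]; linarith
  have hcv := (Real.concaveOn_rpow (p := 1 - γ) (by linarith) (by linarith)).2
    (Set.mem_Ici.2 hb0) (Set.mem_Ici.2 zero_le_one) hl0.le (show 0 ≤ 1 - l by linarith) (by ring)
  simp only [smul_eq_mul, Real.one_rpow, mul_one] at hcv
  have e : l * b + (1 - l) = u := by rw [hl]; field_simp; ring
  rw [e] at hcv
  have h2 : n * (l * b ^ (1 - γ) + (1 - l)) ≤ n * u ^ (1 - γ) := mul_le_mul_of_nonneg_left hcv hn.le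
  have h3 : l * (1 + (n - 1) * b) ≤ l * (n * b ^ (1 - γ)) := mul_le_mul_of_nonneg_left h hl0.le
  have e2 : 1 + (n - 1) * u = l * (1 + (n - 1) * b) + (1 - l) * n := by rw [← e]; ring
  rw [e2]
  linarith

/-- the logarithm of the quotient -/
noncomputable def G (n γ u : ℝ) : ℝ := Real.log (1 - u ^ γ) - n * γ * Real.log (1 - u)

theorem rpow_lt_one' {γ u : ℝ} (h0 : 0 < γ) (hu0 : 0 ≤ u) (hu1 : u < 1) : u ^ γ < 1 :=
  Real.rpow_lt_one hu0 hu1 h0

theorem G_cont {n γ : ℝ} (h0 : 0 < γ) : ContinuousOn (G n γ) (Set.Ico 0 1) := by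
  intro u hu
  have h1 := rpow_lt_one' h0 hu.1 hu.2
  have h2 : u < 1 := hu.2
  unfold G
  apply ContinuousAt.continuousWithinAt
  have c1 : ContinuousAt (fun u : ℝ => u ^ γ) u :=
    Real.continuousAt_rpow_const _ _ (Or.inr h0.le)
  have c2 : ContinuousAt (fun u : ℝ => 1 - u ^ γ) u := continuousAt_const.sub c1
  have c3 : ContinuousAt (fun u : ℝ => 1 - u) u := continuousAt_const.sub continuousAt_id
  have n2 : (1:ℝ) - u ^ γ ≠ 0 := by linarith
  have n3 : (1:ℝ) - u ≠ 0 := by linarith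
  exact (c2.log n2).sub (continuousAt_const.mul (c3.log n3))

theorem G_deriv {n γ u : ℝ} (h0 : 0 < γ) (hu0 : 0 < u) (hu1 : u < 1) :
    HasDerivAt (G n γ) (-(γ * u ^ (γ - 1)) / (1 - u ^ γ) - n * γ * (-1 / (1 - u))) u := by
  have h1 := rpow_lt_one' h0 hu0.le hu1
  have d1 : HasDerivAt (fun u : ℝ => u ^ γ) (γ * u ^ (γ - 1)) u := by
    have := Real.hasDerivAt_rpow_const (x := u) (p := γ) (Or.inl hu0.ne')
    exact this
  have d2 : HasDerivAt (fun u : ℝ => 1 - u ^ γ) (-(γ * u ^ (γ - 1))) u := by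
    simpa using d1.const_sub 1
  have d3 : HasDerivAt (fun u : ℝ => 1 - u) (-1) u := by
    simpa using (hasDerivAt_id u).const_sub 1
  have d4 := (d2.log (by linarith)).sub ((d3.log (by linarith)).const_mul (n * γ))
  exact d4

theorem G_anti {n γ a : ℝ} (h0 : 0 < γ) (h1 : γ < 1) (hn : 0 < n) (ha0 : 0 < a) (ha1 : a < 1)
    (h : n * a ^ (1 - γ) ≤ 1 + (n - 1) * a) {u : ℝ} (hu0 : 0 ≤ u) (hua : u ≤ a) :
    G n γ a ≤ G n γ u := by
  have hanti : AntitoneOn (G n γ) (Set.Icc 0 a) := by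
    refine antitoneOn_of_deriv_nonpos (convex_Icc 0 a)
      ((G_cont h0).mono fun x hx => ⟨hx.1, lt_of_le_of_lt hx.2 ha1⟩) ?_ ?_
    · intro x hx
      rw [interior_Icc] at hx
      exact (G_deriv h0 hx.1 (hx.2.trans ha1)).differentiableAt.differentiableWithinAt
    · intro x hx
      rw [interior_Icc] at hx
      rw [(G_deriv h0 hx.1 (hx.2.trans ha1)).deriv]
      have hx1 : x < 1 := hx.2.trans ha1
      have hl := low_side h0 h1 hn ha1 hx.1.le hx.2 h
      have hg1 := rpow_lt_one' h0 hx.1.le hx1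
      have e : x ^ (γ - 1) * x ^ (1 - γ) = 1 := by
        rw [← Real.rpow_add hx.1]
        have : γ - 1 + (1 - γ) = 0 := by ring
        rw [this, Real.rpow_zero]
      have e2 : x ^ (γ - 1) * x = x ^ γ := by
        rw [← Real.rpow_add_one hx.1.ne']; congr 1; ring
      have hp : 0 < x ^ (γ - 1) := Real.rpow_pos_of_pos hx.1 _
      have h3 : n * (1 - x ^ γ) ≤ x ^ (γ - 1) * (1 - x) := by
        have := mul_le_mul_of_nonneg_left hl hp.le
        have t1 : x ^ (γ - 1) * (n * x ^ (1 - γ)) = n := by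
          calc x ^ (γ - 1) * (n * x ^ (1 - γ)) = n * (x ^ (γ - 1) * x ^ (1 - γ)) := by ring
            _ = n := by rw [e, mul_one]
        rw [t1] at this
        have t2 : x ^ (γ - 1) * (1 + (n - 1) * x) = x ^ (γ - 1) + (n - 1) * x ^ γ := by
          rw [← e2]; ring
        rw [t2] at this
        have t3 : x ^ (γ - 1) * (1 - x) = x ^ (γ - 1) - x ^ γ := by rw [← e2]; ring
        rw [t3]
        linarith
      have hA : 0 < 1 - x ^ γ := by linarith
      have hB : 0 < 1 - x := by linarith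
      have e3 : -(γ * x ^ (γ - 1)) / (1 - x ^ γ) - n * γ * (-1 / (1 - x)) =
          γ * (n * (1 - x ^ γ) - x ^ (γ - 1) * (1 - x)) / ((1 - x ^ γ) * (1 - x)) := by
        field_simp
        ring
      rw [e3]
      apply div_nonpos_of_nonpos_of_nonneg _ (by positivity)
      nlinarith
  exact hanti ⟨hu0, hua⟩ ⟨ha0.le, le_rfl⟩ hua

theorem G_mono {n γ b : ℝ} (h0 : 0 < γ) (h1 : γ < 1) (hn : 0 < n) (hb0 : 0 < b)
    (h : 1 + (n - 1) * b ≤ n * b ^ (1 - γ)) {u : ℝ} (hbu : b ≤ u) (hu1 : u < 1) :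
    G n γ b ≤ G n γ u := by
  have hmono : MonotoneOn (G n γ) (Set.Icc b u) := by
    refine monotoneOn_of_deriv_nonneg (convex_Icc b u)
      ((G_cont h0).mono fun x hx => ⟨hb0.le.trans hx.1, lt_of_le_of_lt hx.2 hu1⟩) ?_ ?_
    · intro x hx
      rw [interior_Icc] at hx
      exact (G_deriv h0 (hb0.trans hx.1) (hx.2.trans hu1)).differentiableAt.differentiableWithinAt
    · intro x hx
      rw [interior_Icc] at hx
      have hx0 : 0 < x := hb0.trans hx.1
      have hx1 : x < 1 := hx.2.trans hu1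
      rw [(G_deriv h0 hx0 hx1).deriv]
      have hl := high_side h0 h1 hn hb0.le hx1 hx.1.le h
      have hg1 := rpow_lt_one' h0 hx0.le hx1
      have e : x ^ (γ - 1) * x ^ (1 - γ) = 1 := by
        rw [← Real.rpow_add hx0]
        have : γ - 1 + (1 - γ) = 0 := by ring
        rw [this, Real.rpow_zero]
      have e2 : x ^ (γ - 1) * x = x ^ γ := by
        rw [← Real.rpow_add_one hx0.ne']; congr 1; ring
      have hp : 0 < x ^ (γ - 1) := Real.rpow_pos_of_pos hx0 _
      have h3 : x ^ (γ - 1) * (1 - x) ≤ n * (1 - x ^ γ) := by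
        have := mul_le_mul_of_nonneg_left hl hp.le
        have t1 : x ^ (γ - 1) * (n * x ^ (1 - γ)) = n := by
          calc x ^ (γ - 1) * (n * x ^ (1 - γ)) = n * (x ^ (γ - 1) * x ^ (1 - γ)) := by ring
            _ = n := by rw [e, mul_one]
        rw [t1] at this
        have t2 : x ^ (γ - 1) * (1 + (n - 1) * x) = x ^ (γ - 1) + (n - 1) * x ^ γ := by
          rw [← e2]; ring
        rw [t2] at this
        have t3 : x ^ (γ - 1) * (1 - x) = x ^ (γ - 1) - x ^ γ := by rw [← e2]; ring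
        rw [t3]
        linarith
      have hA : 0 < 1 - x ^ γ := by linarith
      have hB : 0 < 1 - x := by linarith
      have e3 : -(γ * x ^ (γ - 1)) / (1 - x ^ γ) - n * γ * (-1 / (1 - x)) =
          γ * (n * (1 - x ^ γ) - x ^ (γ - 1) * (1 - x)) / ((1 - x ^ γ) * (1 - x)) := by
        field_simp
        ring
      rw [e3]
      apply div_nonneg _ (by positivity)
      nlinarith
  exact hmono ⟨le_rfl, hbu⟩ ⟨hbu, le_rfl⟩ hbu

/-- verification by three numerical conditions -/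
theorem star_of {n : ℕ} (hn : 1 ≤ n) {γ c a b : ℝ} (h0 : 0 < γ) (h1 : γ < 1) (hc1 : c < 1)
    (ha0 : 0 < a) (hab : a ≤ b) (hb1 : b < 1)
    (ha : (n : ℝ) * a ^ (1 - γ) ≤ 1 + (n - 1) * a) (hb : 1 + ((n : ℝ) - 1) * b ≤ n * b ^ (1 - γ))
    (h : (1 - c) ^ (1 - γ) * (1 - a) ^ ((n : ℝ) * γ) ≤ 1 - b ^ γ) : Star n γ c := by
  intro u hu0 hu1
  have hn0 : (0:ℝ) < n := by exact_mod_cast (show 0 < n by omega)
  have h1c : 0 < 1 - c := by linarith
  rcases hu1.eq_or_lt with rfl | hu1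
  · rw [Real.one_rpow, sub_self, Real.zero_rpow (by positivity), mul_zero, add_zero]
  have hub := rpow_lt_one' h0 hu0 hu1
  have hbg := rpow_lt_one' h0 (ha0.le.trans hab) hb1
  have hag : a ^ γ ≤ b ^ γ := Real.rpow_le_rpow ha0.le hab h0.le
  -- logarithmic form of `h`
  have hlog : (1 - γ) * Real.log (1 - c) + n * γ * Real.log (1 - a) ≤ Real.log (1 - b ^ γ) := by
    have := Real.log_le_log (mul_pos (Real.rpow_pos_of_pos h1c _)
      (Real.rpow_pos_of_pos (by linarith) _)) h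
    rwa [Real.log_mul (Real.rpow_pos_of_pos h1c _).ne'
      (Real.rpow_pos_of_pos (by linarith) _).ne', Real.log_rpow h1c,
      Real.log_rpow (by linarith)] at this
  have key : (1 - γ) * Real.log (1 - c) + n * γ * Real.log (1 - u) ≤ Real.log (1 - u ^ γ) := by
    have hng : 0 < n * γ := by positivity
    rcases le_or_gt u a with hua | hua
    · have hG := G_anti h0 h1 hn0 ha0 (lt_of_le_of_lt hab hb1) ha hu0 hua
      unfold G at hG
      have : Real.log (1 - b ^ γ) ≤ Real.log (1 - a ^ γ) :=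
        Real.log_le_log (by linarith) (by linarith)
      linarith
    · rcases le_or_gt b u with hbu | hbu
      · have hG := G_mono h0 h1 hn0 (lt_of_lt_of_le ha0 hab) hb hbu hu1
        unfold G at hG
        have : Real.log (1 - b) ≤ Real.log (1 - a) := Real.log_le_log (by linarith) (by linarith)
        have := mul_le_mul_of_nonneg_left this hng.le
        linarith
      · have t1 : Real.log (1 - u) ≤ Real.log (1 - a) := Real.log_le_log (by linarith) (by linarith)
        have t1' := mul_le_mul_of_nonneg_left t1 hng.le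
        have t2 : u ^ γ ≤ b ^ γ := Real.rpow_le_rpow hu0 hbu.le h0.le
        have t3 : Real.log (1 - b ^ γ) ≤ Real.log (1 - u ^ γ) :=
          Real.log_le_log (by linarith) (by linarith)
        linarith
  have hfin : (1 - c) ^ (1 - γ) * (1 - u) ^ ((n : ℝ) * γ) ≤ 1 - u ^ γ := by
    rw [← Real.log_le_log_iff (mul_pos (Real.rpow_pos_of_pos h1c _)
      (Real.rpow_pos_of_pos (by linarith) _)) (by linarith),
      Real.log_mul (Real.rpow_pos_of_pos h1c _).ne'
      (Real.rpow_pos_of_pos (by linarith) _).ne', Real.log_rpow h1c,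
      Real.log_rpow (by linarith)]
    exact key
  linarith

/-- rational form -/
theorem star_rat (n p s : ℕ) (hn : 1 ≤ n) (hp : 0 < p) (hs : 0 < s) {c a b : ℝ} (hc1 : c < 1)
    (ha0 : 0 < a) (hab : a ≤ b) (hb1 : b < 1)
    (ha : (n : ℝ) * a ^ s ≤ 1 + (n - 1) * a ^ (p + s))
    (hb : 1 + ((n : ℝ) - 1) * b ^ (p + s) ≤ n * b ^ s)
    (h : (1 - c) ^ s * (1 - a ^ (p + s)) ^ (n * p) ≤ (1 - b ^ p) ^ (p + s)) :
    Star n ((p : ℝ) / (p + s)) c := by
  have hp0 : (0:ℝ) < p := by exact_mod_cast hp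
  have hs0 : (0:ℝ) < s := by exact_mod_cast hs
  have hq0 : (0:ℝ) < p + s := by linarith
  have e1 : (1 : ℝ) - p / (p + s) = s / (p + s) := by field_simp; ring
  have hb0 : 0 < b := lt_of_lt_of_le ha0 hab
  have ha1 : a < 1 := lt_of_le_of_lt hab hb1
  have pw : ∀ x : ℝ, 0 < x → ∀ m : ℕ, (x ^ (p + s)) ^ ((m : ℝ) / (p + s)) = x ^ m := by
    intro x hx m
    rw [← Real.rpow_natCast x (p + s), ← Real.rpow_mul hx.le]
    have : ((p + s : ℕ) : ℝ) * ((m : ℝ) / (p + s)) = m := by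
      push_cast
      field_simp
    rw [this, Real.rpow_natCast]
  have h1c : 0 < 1 - c := by linarith
  have ha2 : a ^ (p + s) < 1 := pow_lt_one₀ ha0.le ha1 (by omega)
  have hb2 : b ^ p < 1 := pow_lt_one₀ hb0.le hb1 (by omega)
  refine star_of hn (γ := (p : ℝ) / (p + s)) (a := a ^ (p + s)) (b := b ^ (p + s)) (by positivity)
    (by rw [div_lt_one hq0]; linarith) hc1 (by positivity) (pow_le_pow_left₀ ha0.le hab _)
    (pow_lt_one₀ hb0.le hb1 (by omega)) ?_ ?_ ?_
  · rw [e1, pw a ha0]; exact ha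
  · rw [e1, pw b hb0]; exact hb
  · rw [e1, pw b hb0]
    have hx0 : 0 ≤ (1 - c) ^ ((s : ℝ) / (p + s)) * (1 - a ^ (p + s)) ^ ((n : ℝ) * (p / (p + s))) :=
      mul_nonneg (Real.rpow_nonneg h1c.le _) (Real.rpow_nonneg (by linarith) _)
    by_contra hcon
    push Not at hcon
    have h2 := pow_lt_pow_left₀ hcon (by linarith) (show p + s ≠ 0 by omega)
    rw [mul_pow, ← Real.rpow_natCast ((1 - c) ^ ((s : ℝ) / (p + s))), ← Real.rpow_mul h1c.le,
      ← Real.rpow_natCast ((1 - a ^ (p + s)) ^ ((n : ℝ) * (p / (p + s)))),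
      ← Real.rpow_mul (by linarith)] at h2
    have e2 : (s : ℝ) / (p + s) * ((p + s : ℕ) : ℝ) = s := by push_cast; field_simp
    have e3 : (n : ℝ) * (p / (p + s)) * ((p + s : ℕ) : ℝ) = ((n * p : ℕ) : ℝ) := by
      push_cast; field_simp
    rw [e2, e3, Real.rpow_natCast, Real.rpow_natCast] at h2
    linarith

end Run7.h188.Iso
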