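import Pool.Agent.Run7.h188.IsoD
import Pool.Agent.H201R3.SPk.G

set_option autoImplicit false

/-! Iteration: the exponents for `N`-fold sums and products of sets of integers. -/

namespace Run7.h188.Iso

open Finset Pool.Agent.N811.IS
open scoped Pointwise

/-- solution of a linear recursion -/
def xs (θ a x : ℝ) : ℕ → ℝ
  | 0 => x
  | m + 1 => a + θ * xs θ a x m

/-- the chain of inequalities, in logarithmic form -/
theorem chainlog {N : ℕ} (hN : 3 ≤ N) {θ c γ β β₃ : ℝ} (hθ : 1 / 2 ≤ θ) (hθ1 : θ < 1)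
    (hc : 0 < c) (hcθ : c ≤ 2 ^ (1 - θ) - 1) (h0 : 0 < γ) (h1 : γ < 1) (hS : Star N γ c)
    (hβ : β = γ / (1 - γ)) (hβ₃ : (5 : ℝ) ≤ (N : ℝ) ^ β₃)
    (A : Finset ℤ) (hA : A.Nonempty) (hAp : ∀ a ∈ A, 0 < a) (m : ℕ) :
    xs θ (1 + β) (3 * (1 + β₃)) m * Real.log A.card ≤
      Real.log ((sumset (3 + m) A).card) +
        xs θ β (3 * β₃) m * Real.log ((prodset fun _ : Fin N => A).card) := by
  have hcard : (1:ℝ) ≤ A.card := by exact_mod_cast hA.card_pos
  have hP1 : (1:ℝ) ≤ ((prodset fun _ : Fin N => A).card : ℝ) := by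
    have := card_le_prodset vrInt (fun _ : Fin N => A) (fun _ => hA) (fun _ => hAp) ⟨0, by omega⟩
    have h3 : (A.card : ℝ) ≤ ((prodset fun _ : Fin N => A).card : ℝ) := by exact_mod_cast this
    linarith
  have hs : ∀ k, (1:ℝ) ≤ ((sumset k A).card : ℝ) := fun k => by
    exact_mod_cast (sumset_nonempty k hA).card_pos
  induction m with
  | zero =>
    have h := Pool.Agent.N811.SP.single2 (k := 3) (n := N) (by norm_num) (by omega) (by omega)
      (β := β₃) (by norm_num; exact hβ₃) A hA hAp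
    have hs3 : (1:ℝ) ≤ ((Pool.Agent.H384R3.SPk.sumset 3 A).card : ℝ) := hs 3
    have hPa : (1:ℝ) ≤ ((Pool.Agent.H384R3.SPk.prodset fun _ : Fin N => A).card : ℝ) := hP1
    have h2 := Real.log_le_log (by positivity) h
    rw [Real.log_rpow (by linarith), Real.log_mul (by linarith)
      (Real.rpow_pos_of_pos (by linarith) _).ne', Real.log_rpow (by linarith)] at h2
    push_cast at h2
    exact h2
  | succ m ih =>
    have h := iso_one2 vrInt (n := N) (by omega) hθ hθ1 hc hcθ h0 h1 hS hβ A hA hAp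
      (sumset (3 + m) A) (sumset_nonempty (3 + m) hA)
    rw [← sumset_succ] at h
    have h2 := Real.log_le_log (mul_pos (Real.rpow_pos_of_pos (by linarith) _)
      (Real.rpow_pos_of_pos (by linarith [hs (3 + m)]) _)) h
    rw [Real.log_mul (Real.rpow_pos_of_pos (by linarith) _).ne'
      (Real.rpow_pos_of_pos (by linarith [hs (3 + m)]) _).ne', Real.log_rpow (by linarith),
      Real.log_rpow (by linarith [hs (3 + m)]), Real.log_mul (by linarith [hs (3 + m + 1)])
      (Real.rpow_pos_of_pos (by linarith) _).ne', Real.log_rpow (by linarith)] at h2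
    have h3 := mul_le_mul_of_nonneg_left ih (show 0 ≤ θ by linarith)
    simp only [xs]
    have e : 3 + (m + 1) = 3 + m + 1 := by ring
    rw [e]
    linarith

/-- the exponent, positive integers -/
theorem expo_pos {m : ℕ} {θ c γ β β₃ e : ℝ} (hθ : 1 / 2 ≤ θ) (hθ1 : θ < 1)
    (hc : 0 < c) (hcθ : c ≤ 2 ^ (1 - θ) - 1) (h0 : 0 < γ) (h1 : γ < 1) (hS : Star (3 + m) γ c)
    (hβ : β = γ / (1 - γ)) (hβ₃ : (5 : ℝ) ≤ ((3 + m : ℕ) : ℝ) ^ β₃)
    (hy : 0 ≤ xs θ β (3 * β₃) m)
    (he : e * (1 + xs θ β (3 * β₃) m) ≤ xs θ (1 + β) (3 * (1 + β₃)) m)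
    (A : Finset ℤ) (hA : A.Nonempty) (hAp : ∀ a ∈ A, 0 < a) :
    (A.card : ℝ) ^ e ≤
      max ((sumset (3 + m) A).card : ℝ) ((prodset fun _ : Fin (3 + m) => A).card : ℝ) := by
  have hcard : (1:ℝ) ≤ A.card := by exact_mod_cast hA.card_pos
  have hL := Real.log_nonneg hcard
  have hP1 : (1:ℝ) ≤ ((prodset fun _ : Fin (3 + m) => A).card : ℝ) := by
    have := card_le_prodset vrInt (fun _ : Fin (3 + m) => A) (fun _ => hA) (fun _ => hAp)
      ⟨0, by omega⟩
    have h3 : (A.card : ℝ) ≤ ((prodset fun _ : Fin (3 + m) => A).card : ℝ) := by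
      exact_mod_cast this
    linarith
  have hs : (1:ℝ) ≤ ((sumset (3 + m) A).card : ℝ) := by
    exact_mod_cast (sumset_nonempty (3 + m) hA).card_pos
  have h := chainlog (N := 3 + m) (by omega) hθ hθ1 hc hcθ h0 h1 hS hβ hβ₃ A hA hAp m
  set M : ℝ := max ((sumset (3 + m) A).card : ℝ) ((prodset fun _ : Fin (3 + m) => A).card : ℝ)
    with hM
  have hM1 : 1 ≤ M := le_max_of_le_left hs
  have l1 : Real.log ((sumset (3 + m) A).card) ≤ Real.log M :=
    Real.log_le_log (by linarith) (le_max_left _ _)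
  have l2 : Real.log ((prodset fun _ : Fin (3 + m) => A).card) ≤ Real.log M :=
    Real.log_le_log (by linarith) (le_max_right _ _)
  have l3 := mul_le_mul_of_nonneg_left l2 hy
  have l4 := mul_le_mul_of_nonneg_right he hL
  have hfin : e * Real.log A.card ≤ Real.log M := by
    have : (1 + xs θ β (3 * β₃) m) * (e * Real.log A.card) ≤
        (1 + xs θ β (3 * β₃) m) * Real.log M := by
      nlinarith
    exact le_of_mul_le_mul_left this (by linarith)
  rw [← Real.log_le_log_iff (Real.rpow_pos_of_pos (by linarith) _) (by linarith),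
    Real.log_rpow (by linarith)]
  exact hfin

/-- all finite nonempty sets of integers -/
theorem expo_all {N : ℕ} {e : ℝ} (he : 0 ≤ e)
    (h : ∀ A : Finset ℤ, A.Nonempty → (∀ a ∈ A, 0 < a) → (A.card : ℝ) ^ e ≤
      max ((sumset N A).card : ℝ) ((prodset fun _ : Fin N => A).card : ℝ))
    (A : Finset ℤ) (hA : A.Nonempty) :
    ((A.card : ℝ) / 3) ^ e ≤
      max ((sumset N A).card : ℝ) ((prodset fun _ : Fin N => A).card : ℝ) := by
  by_cases h0 : A = {0}
  · have h1 : (1:ℝ) ≤ ((sumset N A).card : ℝ) := by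
      exact_mod_cast (sumset_nonempty N hA).card_pos
    refine le_trans ?_ (h1.trans (le_max_left _ _))
    rw [h0, Finset.card_singleton]
    exact Real.rpow_le_one (by norm_num) (by norm_num) he
  · obtain ⟨B, hB, hBp, hAB, hs, hp⟩ := Pool.Agent.H201R3.SPk.taskG A hA h0
    have h1 : (A.card : ℝ) / 3 ≤ B.card := by
      rw [div_le_iff₀ (by norm_num)]
      have : (A.card : ℝ) ≤ 3 * B.card := by exact_mod_cast hAB
      linarith
    refine (Real.rpow_le_rpow (by positivity) h1 he).trans ((h B hB hBp).trans ?_)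
    exact max_le_max (by exact_mod_cast hs N) (by exact_mod_cast hp N)

/-- `c ≤ 2 ^ (1 - θ) - 1` for rational `1 - θ` -/
theorem two_pow_ge {c θ : ℝ} (r s : ℕ) (hr : 0 < r) (hc : 0 ≤ c) (hθ : 1 - θ = s / r)
    (h : (1 + c) ^ r ≤ 2 ^ s) : c ≤ 2 ^ (1 - θ) - 1 := by
  have hr0 : (0:ℝ) < r := by exact_mod_cast hr
  have h2 : 1 + c ≤ ((2:ℝ) ^ s) ^ ((1:ℝ) / r) := by
    have := Real.rpow_le_rpow (by positivity) h (show (0:ℝ) ≤ 1 / r by positivity)
    rw [← Real.rpow_natCast (1 + c), ← Real.rpow_mul (by linarith)] at this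
    have e : (r : ℝ) * (1 / r) = 1 := by field_simp
    rw [e, Real.rpow_one] at this
    exact this
  rw [← Real.rpow_natCast, ← Real.rpow_mul (by norm_num)] at h2
  have e : (s : ℝ) * (1 / r) = 1 - θ := by rw [hθ]; ring
  rw [e] at h2
  linarith

/-- `5 ≤ N ^ (x / y)` -/
theorem five_le {N : ℕ} (x y : ℕ) (hy : 0 < y) (h : 5 ^ y ≤ N ^ x) :
    (5 : ℝ) ≤ (N : ℝ) ^ ((x : ℝ) / y) := by
  have hy0 : (0:ℝ) < y := by exact_mod_cast hy
  have h1 : ((5:ℝ)) ^ y ≤ (N : ℝ) ^ x := by exact_mod_cast h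
  have h2 := Real.rpow_le_rpow (by positivity) h1 (show (0:ℝ) ≤ 1 / y by positivity)
  rw [← Real.rpow_natCast, ← Real.rpow_natCast, ← Real.rpow_mul (by norm_num),
    ← Real.rpow_mul (Nat.cast_nonneg _)] at h2
  have e1 : (y : ℝ) * (1 / y) = 1 := by field_simp
  have e2 : (x : ℝ) * (1 / y) = x / y := by ring
  rw [e1, e2, Real.rpow_one] at h2
  exact h2

end Run7.h188.Iso
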