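import Pool.Agent.Run7.h188.Basic

/-! Omissible points on a line: the supporting points, and the supporting points which
two lines have in common. -/

namespace Run7.h188

open Finset

/-- the affine function with coefficients `l` -/
def lf (l : ℝ × ℝ × ℝ) (r : ℝ × ℝ) : ℝ := l.1 * r.1 + l.2.1 * r.2 + l.2.2

/-- the coordinate along the line `lf l = 0` -/
def uf (l : ℝ × ℝ × ℝ) (r : ℝ × ℝ) : ℝ := l.1 * r.2 - l.2.1 * r.1

/-- the slope of the line `s r` in the chart where `lf l = 0` is the line at infinity -/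
noncomputable def gf (l : ℝ × ℝ × ℝ) (s r : ℝ × ℝ) : ℝ := (uf l r - uf l s) / lf l r

lemma eq_of_uf_lf {l : ℝ × ℝ × ℝ} (hl : 0 < l.1 ^ 2 + l.2.1 ^ 2) {r r' : ℝ × ℝ}
    (h1 : uf l r = uf l r') (h2 : lf l r = lf l r') : r = r' := by
  simp only [uf, lf] at h1 h2
  have e1 : (l.1 ^ 2 + l.2.1 ^ 2) * (r.1 - r'.1) = 0 := by
    linear_combination l.1 * h2 - l.2.1 * h1
  have e2 : (l.1 ^ 2 + l.2.1 ^ 2) * (r.2 - r'.2) = 0 := by
    linear_combination l.2.1 * h2 + l.1 * h1
  rcases mul_eq_zero.1 e1 with h | h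
  · exact absurd h hl.ne'
  rcases mul_eq_zero.1 e2 with h' | h'
  · exact absurd h' hl.ne'
  ext <;> linarith

/-- `p` is the point chosen for the omissible point `s` of the line `lf l = 0` and the
sign `e` -/
def Chosen (X : Finset (ℝ × ℝ)) (l : ℝ × ℝ × ℝ) (s : ℝ × ℝ) (e : ℝ) (p : ℝ × ℝ) : Prop :=
  p ∈ X ∧ lf l p ≠ 0 ∧ (∀ r ∈ X, lf l r ≠ 0 → e * gf l s r ≤ e * gf l s p) ∧
    (∀ r ∈ X, lf l r ≠ 0 → gf l s r = gf l s p → r ≠ p → e * (1 / lf l r) < e * (1 / lf l p)) ∧
    ∃ q ∈ X, lf l q ≠ 0 ∧ q ≠ p ∧ gf l s q = gf l s p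

lemma exists_chosen {X : Finset (ℝ × ℝ)} (hX : ¬ Collinear ℝ (X : Set (ℝ × ℝ)))
    {l : ℝ × ℝ × ℝ} (hl : 0 < l.1 ^ 2 + l.2.1 ^ 2) {s : ℝ × ℝ} (hs : s ∈ om X)
    (hsl : lf l s = 0) (e : ℝ) (he : e ≠ 0) : ∃ p, Chosen X l s e p := by
  classical
  rw [mem_om] at hs
  set P := X.filter (fun r => lf l r ≠ 0) with hP
  have hPne : P.Nonempty := by
    by_contra hcon
    rw [not_nonempty_iff_eq_empty, hP, filter_eq_empty_iff] at hcon
    push Not at hcon
    apply hX
    rw [collinear_iff_cr]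
    intro a ha b hb c hc
    have h1 := hcon (mem_coe.1 ha)
    have h2 := hcon (mem_coe.1 hb)
    have h3 := hcon (mem_coe.1 hc)
    simp only [lf] at h1 h2 h3
    have e1 : (l.1 ^ 2 + l.2.1 ^ 2) * cr a b c = 0 := by
      simp only [cr]
      linear_combination (l.1 * (c.2 - a.2) - l.2.1 * (c.1 - a.1)) * (h2 - h1) -
        (l.1 * (b.2 - a.2) - l.2.1 * (b.1 - a.1)) * (h3 - h1)
    rcases mul_eq_zero.1 e1 with h | h
    · exact absurd h hl.ne'
    · exact h
  obtain ⟨p₀, hp₀, hm₀⟩ := P.exists_max_image (fun r => e * gf l s r) hPne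
  set Q := P.filter (fun r => gf l s r = gf l s p₀) with hQ
  have hQne : Q.Nonempty := ⟨p₀, by simp [hQ, hp₀]⟩
  obtain ⟨p, hp, hm⟩ := Q.exists_max_image (fun r => e * (1 / lf l r)) hQne
  rw [hQ, mem_filter] at hp
  obtain ⟨hpP, hpg⟩ := hp
  have hpX : p ∈ X ∧ lf l p ≠ 0 := by simpa [hP] using hpP
  refine ⟨p, hpX.1, hpX.2, fun r hr hr0 => ?_, fun r hr hr0 hg hrp => ?_, ?_⟩
  · rw [hpg]; exact hm₀ r (by simp [hP, hr, hr0])
  · have h1 : e * (1 / lf l r) ≤ e * (1 / lf l p) :=
      hm r (by rw [hQ, mem_filter, hP, mem_filter]; exact ⟨⟨hr, hr0⟩, hg.trans hpg⟩)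
    refine lt_of_le_of_ne h1 fun heq => ?_
    have h2 : 1 / lf l r = 1 / lf l p := mul_left_cancel₀ he heq
    have h3 : lf l r = lf l p := by
      rw [one_div, one_div] at h2
      exact inv_injective h2
    apply hrp
    apply eq_of_uf_lf hl _ h3
    simp only [gf] at hg
    rw [h3, div_left_inj' hpX.2] at hg
    linarith
  · have hps : p ≠ s := by rintro rfl; exact hpX.2 hsl
    obtain ⟨q, hq, hqs, hqp, hq0⟩ := hs.2 p hpX.1 hps
    obtain ⟨k, rfl⟩ := exists_param hps.symm hq0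
    have hk : k ≠ 0 := by rintro rfl; apply hqs; simp
    have hL : lf l (s + k • (p - s)) = k * lf l p := by
      have : lf l (s + k • (p - s)) = k * lf l p + (1 - k) * lf l s := by
        simp [lf]; ring
      rw [this, hsl]; ring
    have hU : uf l (s + k • (p - s)) - uf l s = k * (uf l p - uf l s) := by
      simp [uf]; ring
    refine ⟨_, hq, by rw [hL]; exact mul_ne_zero hk hpX.2, hqp, ?_⟩
    simp only [gf]
    rw [hU, hL, mul_div_mul_left _ _ hk]

lemma gf_change {l : ℝ × ℝ × ℝ} (s s' r : ℝ × ℝ) (hr : lf l r ≠ 0) :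
    gf l s' r = gf l s r + (uf l s - uf l s') * (1 / lf l r) := by
  simp only [gf]
  field_simp
  ring

/-- the chosen points are different -/
lemma chosen_inj {X : Finset (ℝ × ℝ)} {l : ℝ × ℝ × ℝ} (hl : 0 < l.1 ^ 2 + l.2.1 ^ 2)
    {s s' p : ℝ × ℝ} {e e' : ℝ} (he : e = 1 ∨ e = -1) (he' : e' = 1 ∨ e' = -1)
    (hs : lf l s = 0) (hs' : lf l s' = 0) (h : Chosen X l s e p) (h' : Chosen X l s' e' p) :
    s = s' ∧ e = e' := by
  obtain ⟨hp, hp0, h1, h2, q, hq, hq0, hqp, hqg⟩ := h
  obtain ⟨-, -, h1', h2', q', hq', hq0', hqp', hqg'⟩ := h'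
  have a1 := h2 q hq hq0 hqg hqp
  have a2 := h2' q' hq' hq0' hqg' hqp'
  have b1 := h1' q hq hq0
  have b2 := h1 q' hq' hq0'
  rw [gf_change s s' q hq0, gf_change s s' p hp0, hqg] at b1
  rw [gf_change s' s q' hq0', gf_change s' s p hp0, hqg'] at b2
  set a := uf l s - uf l s' with ha
  have ha' : uf l s' - uf l s = -a := by rw [ha]; ring
  rw [ha'] at b2
  have haz : a = 0 := by
    generalize 1 / lf l p = v at *
    generalize 1 / lf l q = w at *
    generalize 1 / lf l q' = w' at *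
    rcases he with rfl | rfl <;> rcases he' with rfl | rfl
    · have c1 : 0 < v - w := by linarith
      have c2 : 0 < v - w' := by linarith
      have d1 : 0 ≤ a * (v - w) := by nlinarith
      have d2 : a * (v - w') ≤ 0 := by nlinarith
      have e1 := nonneg_of_mul_nonneg_left d1 c1
      have e2 := nonpos_of_mul_nonpos_left d2 c2
      linarith
    · have c1 : 0 < v - w := by linarith
      have c2 : 0 < w' - v := by linarith
      have d1 : a * (v - w) ≤ 0 := by nlinarith
      have d2 : 0 ≤ a * (w' - v) := by nlinarith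
      have e1 := nonpos_of_mul_nonpos_left d1 c1
      have e2 := nonneg_of_mul_nonneg_left d2 c2
      linarith
    · have c1 : 0 < w - v := by linarith
      have c2 : 0 < v - w' := by linarith
      have d1 : a * (w - v) ≤ 0 := by nlinarith
      have d2 : 0 ≤ a * (v - w') := by nlinarith
      have e1 := nonpos_of_mul_nonpos_left d1 c1
      have e2 := nonneg_of_mul_nonneg_left d2 c2
      linarith
    · have c1 : 0 < w - v := by linarith
      have c2 : 0 < w' - v := by linarith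
      have d1 : 0 ≤ a * (w - v) := by nlinarith
      have d2 : a * (w' - v) ≤ 0 := by nlinarith
      have e1 := nonneg_of_mul_nonneg_left d1 c1
      have e2 := nonpos_of_mul_nonpos_left d2 c2
      linarith
  have hss : s = s' := by
    apply eq_of_uf_lf hl
    · linarith
    · rw [hs, hs']
  refine ⟨hss, ?_⟩
  subst hss
  rcases he with rfl | rfl <;> rcases he' with rfl | rfl
  · rfl
  · exfalso
    have := h2' q hq hq0 hqg hqp
    linarith
  · exfalso
    have := h2' q hq hq0 hqg hqp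
    linarith
  · rfl

/-- `p` lies strictly between `a` and `b` in the chart where `lf l = 0` is at infinity -/
def Btw (l : ℝ × ℝ × ℝ) (a p b : ℝ × ℝ) : Prop :=
  ∃ k : ℝ, 0 < k ∧ k < 1 ∧ p.1 / lf l p = (1 - k) * (a.1 / lf l a) + k * (b.1 / lf l b) ∧
    p.2 / lf l p = (1 - k) * (a.2 / lf l a) + k * (b.2 / lf l b) ∧
    1 / lf l p = (1 - k) * (1 / lf l a) + k * (1 / lf l b)

lemma Btw.symm {l : ℝ × ℝ × ℝ} {a p b : ℝ × ℝ} (h : Btw l a p b) : Btw l b p a := by
  obtain ⟨k, h1, h2, h3, h4, h5⟩ := h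
  exact ⟨1 - k, by linarith, by linarith, by linarith, by linarith, by linarith⟩

/-- a chosen point is not between two others -/
lemma chosen_ext {X : Finset (ℝ × ℝ)} {l : ℝ × ℝ × ℝ} {s p a b : ℝ × ℝ} {e : ℝ}
    (he : e = 1 ∨ e = -1) (h : Chosen X l s e p) (ha : a ∈ X) (hb : b ∈ X)
    (ha0 : lf l a ≠ 0) (hb0 : lf l b ≠ 0) (hbtw : Btw l a p b) (hap : a ≠ p) : False := by
  obtain ⟨hp, hp0, h1, h2, -⟩ := h
  obtain ⟨k, hk0, hk1, e1, e2, e3⟩ := hbtw
  have gexp : ∀ r : ℝ × ℝ, gf l s r = l.1 * (r.2 / lf l r) - l.2.1 * (r.1 / lf l r) -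
      uf l s * (1 / lf l r) := by
    intro r; simp only [gf, uf]; ring
  have hg : gf l s p = (1 - k) * gf l s a + k * gf l s b := by
    rw [gexp, gexp, gexp]
    linear_combination l.1 * e2 - l.2.1 * e1 - uf l s * e3
  have g1 := h1 a ha ha0
  have g2 := h1 b hb hb0
  have hee : e * e = 1 := by rcases he with rfl | rfl <;> norm_num
  have g3 : e * gf l s p = (1 - k) * (e * gf l s a) + k * (e * gf l s b) := by rw [hg]; ring
  have g4 : e * gf l s a = e * gf l s p := by
    apply le_antisymm g1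
    by_contra hcon
    push Not at hcon
    have : (1 - k) * (e * gf l s a) < (1 - k) * (e * gf l s p) :=
      mul_lt_mul_of_pos_left hcon (by linarith)
    have : k * (e * gf l s b) ≤ k * (e * gf l s p) := mul_le_mul_of_nonneg_left g2 hk0.le
    linarith
  have g5 : gf l s a = gf l s p := by
    have := congrArg (fun z => e * z) g4
    simp only [← mul_assoc, hee, one_mul] at this
    exact this
  have g6 : gf l s b = gf l s p := by
    have : k * gf l s b = k * gf l s p := by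
      rw [g5] at hg; linarith
    exact mul_left_cancel₀ hk0.ne' this
  have v1 := h2 a ha ha0 g5 hap
  have v2 : e * (1 / lf l b) ≤ e * (1 / lf l p) := by
    by_cases hbp : b = p
    · rw [hbp]
    · exact (h2 b hb hb0 g6 hbp).le
  have v3 : e * (1 / lf l p) = (1 - k) * (e * (1 / lf l a)) + k * (e * (1 / lf l b)) := by
    rw [e3]; ring
  have : (1 - k) * (e * (1 / lf l a)) < (1 - k) * (e * (1 / lf l p)) :=
    mul_lt_mul_of_pos_left v1 (by linarith)
  have : k * (e * (1 / lf l b)) ≤ k * (e * (1 / lf l p)) := mul_le_mul_of_nonneg_left v2 hk0.le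
  linarith

/-- of three collinear points one is between the others -/
lemma btw_of_collinear {l : ℝ × ℝ × ℝ} {a b c : ℝ × ℝ} (hab : a ≠ b) (hac : a ≠ c)
    (hbc : b ≠ c) (ha : lf l a ≠ 0) (hb : lf l b ≠ 0) (hc : lf l c ≠ 0)
    (h : cr a c b = 0) : Btw l a b c ∨ Btw l b a c ∨ Btw l a c b := by
  obtain ⟨k, hk⟩ := exists_param hac h
  have hk0 : k ≠ 0 := by rintro rfl; apply hab; rw [hk]; simp
  have hk1 : k ≠ 1 := by
    rintro rfl; apply hbc; rw [hk]; ext <;> simp
  have x1 : b.1 = (1 - k) * a.1 + k * c.1 := by rw [hk]; simp; ring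
  have x2 : b.2 = (1 - k) * a.2 + k * c.2 := by rw [hk]; simp; ring
  have hL : lf l b = (1 - k) * lf l a + k * lf l c := by
    simp only [lf, x1, x2]; ring
  have hk1' : 1 - k ≠ 0 := sub_ne_zero.2 hk1.symm
  -- weights
  obtain ⟨α, hα⟩ : ∃ α, α = (1 - k) * lf l a / lf l b := ⟨_, rfl⟩
  obtain ⟨β, hβ⟩ : ∃ β, β = k * lf l c / lf l b := ⟨_, rfl⟩
  have hαβ : α + β = 1 := by
    rw [hα, hβ, ← add_div, ← hL, div_self hb]
  have hα0 : α ≠ 0 := by rw [hα]; exact div_ne_zero (mul_ne_zero hk1' ha) hb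
  have hβ0 : β ≠ 0 := by rw [hβ]; exact div_ne_zero (mul_ne_zero hk0 hc) hb
  have comb : ∀ u v : ℝ, ((1 - k) * u + k * v) / lf l b =
      α * (u / lf l a) + β * (v / lf l c) := by
    intro u v
    rw [hα, hβ]
    field_simp
  have c1 : b.1 / lf l b = α * (a.1 / lf l a) + β * (c.1 / lf l c) := by
    rw [← comb, ← x1]
  have c2 : b.2 / lf l b = α * (a.2 / lf l a) + β * (c.2 / lf l c) := by
    rw [← comb, ← x2]
  have c3 : 1 / lf l b = α * (1 / lf l a) + β * (1 / lf l c) := by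
    rw [← comb]; congr 1; ring
  rcases lt_or_gt_of_ne hα0 with hα1 | hα1
  · -- `c` is between `a` and `b`
    right; right
    have hβ1 : 1 < β := by linarith
    have hβ2 : β * (1 / β) = 1 := by field_simp
    refine ⟨1 / β, by positivity, by rw [div_lt_one (by linarith)]; exact hβ1, ?_, ?_, ?_⟩
    · rw [c1]
      linear_combination (-(a.1 / lf l a) * (1 / β)) * hαβ + (a.1 / lf l a - c.1 / lf l c) * hβ2
    · rw [c2]
      linear_combination (-(a.2 / lf l a) * (1 / β)) * hαβ + (a.2 / lf l a - c.2 / lf l c) * hβ2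
    · rw [c3]
      linear_combination (-(1 / lf l a) * (1 / β)) * hαβ + (1 / lf l a - 1 / lf l c) * hβ2
  · rcases lt_or_gt_of_ne hβ0 with hβ1 | hβ1
    · right; left
      have hα2 : 1 < α := by linarith
      have hα3 : α * (1 / α) = 1 := by field_simp
      refine ⟨1 - 1 / α, ?_, ?_, ?_, ?_, ?_⟩
      · rw [sub_pos, div_lt_one (by linarith)]; exact hα2
      · have : 0 < 1 / α := by positivity
        linarith
      · rw [c1]
        linear_combination (-(c.1 / lf l c) * (1 / α)) * hαβ +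
          (c.1 / lf l c - a.1 / lf l a) * hα3
      · rw [c2]
        linear_combination (-(c.2 / lf l c) * (1 / α)) * hαβ +
          (c.2 / lf l c - a.2 / lf l a) * hα3
      · rw [c3]
        linear_combination (-(1 / lf l c) * (1 / α)) * hαβ +
          (1 / lf l c - 1 / lf l a) * hα3
    · left
      have hα2 : α = 1 - β := by linarith
      rw [hα2] at c1 c2 c3
      exact ⟨β, hβ1, by linarith, c1, c2, c3⟩

end Run7.h188
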