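import Mathlib

/-!
If a positive proportion of the multiples `m θ`, `m ≤ M`, is just above an integer, then so is `N θ`,
for a fixed `N`, and much nearer.
-/

set_option autoImplicit false

open Finset

namespace Run7.h188.Mult

lemma card_le_of_diff (T : Finset ℕ) (d : ℕ) (h : ∀ x ∈ T, ∀ y ∈ T, x ≤ y → y ≤ x + d) :
    T.card ≤ d + 1 := by
  rcases T.eq_empty_or_nonempty with rfl | hne
  · simp
  · have hsub : T ⊆ Icc (T.min' hne) (T.min' hne + d) := by
      intro y hy
      rw [mem_Icc]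
      exact ⟨T.min'_le y hy, h _ (T.min'_mem hne) y hy (T.min'_le y hy)⟩
    have := card_le_card hsub
    rw [Nat.card_Icc] at this
    omega

lemma count_fract_lt {β ρ : ℝ} (hβ : β ≠ 0) (hρ : 0 < ρ) (M : ℕ) :
    (((Icc 1 M).filter (fun m : ℕ => Int.fract ((m : ℝ) * β) < ρ)).card : ℝ) ≤
      (M * |β| + 2) * (ρ / |β| + 1) := by
  classical
  set S := (Icc 1 M).filter (fun m : ℕ => Int.fract ((m : ℝ) * β) < ρ) with hS
  have hab : 0 < |β| := abs_pos.mpr hβ
  have h1 : S.card ≤ (⌊ρ / |β|⌋₊ + 1) * (S.image (fun m : ℕ => ⌊(m : ℝ) * β⌋)).card := by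
    apply card_le_mul_card_image
    intro z _
    apply card_le_of_diff
    intro x hx y hy hxy
    rw [mem_filter] at hx hy
    obtain ⟨hx1, hx2⟩ := hx
    obtain ⟨hy1, hy2⟩ := hy
    rw [hS, mem_filter] at hx1 hy1
    have hx3 := hx1.2
    have hy3 := hy1.2
    have hx4 := Int.fract_nonneg ((x : ℝ) * β)
    have hy4 := Int.fract_nonneg ((y : ℝ) * β)
    rw [Int.fract, hx2] at hx3 hx4
    rw [Int.fract, hy2] at hy3 hy4
    have hd : |((y : ℝ) - x) * β| < ρ := by
      rw [abs_lt]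
      constructor <;> nlinarith
    rw [abs_mul, abs_of_nonneg (by
      have : (x : ℝ) ≤ y := by exact_mod_cast hxy
      linarith : (0 : ℝ) ≤ (y : ℝ) - x)] at hd
    have hd2 : ((y - x : ℕ) : ℝ) ≤ ρ / |β| := by
      rw [Nat.cast_sub hxy, le_div_iff₀ hab]
      exact hd.le
    have := Nat.le_floor hd2
    omega
  have h2 : ((S.image (fun m : ℕ => ⌊(m : ℝ) * β⌋)).card : ℝ) ≤ M * |β| + 2 := by
    rcases lt_or_gt_of_ne hβ with hneg | hpos
    · have hsub : S.image (fun m : ℕ => ⌊(m : ℝ) * β⌋) ⊆ Icc ⌊(M : ℝ) * β⌋ 0 := by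
        intro z hz
        rw [mem_image] at hz
        obtain ⟨m, hm, rfl⟩ := hz
        rw [hS, mem_filter, mem_Icc] at hm
        obtain ⟨⟨hm1, hm2⟩, -⟩ := hm
        have hm2R : (m : ℝ) ≤ M := by exact_mod_cast hm2
        have hm0R : (0 : ℝ) ≤ m := Nat.cast_nonneg _
        rw [mem_Icc]
        constructor
        · apply Int.floor_le_floor
          nlinarith
        · have h3 : (⌊(m : ℝ) * β⌋ : ℝ) ≤ 0 := (Int.floor_le _).trans (by nlinarith)
          exact_mod_cast h3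
      have h4 := card_le_card hsub
      rw [Int.card_Icc] at h4
      have h5 : (((S.image (fun m : ℕ => ⌊(m : ℝ) * β⌋)).card : ℤ) : ℝ) ≤
          ((0 + 1 - ⌊(M : ℝ) * β⌋ : ℤ) : ℝ) := by
        have h6 : ⌊(M : ℝ) * β⌋ ≤ 0 := by
          have h3 : (⌊(M : ℝ) * β⌋ : ℝ) ≤ 0 := (Int.floor_le _).trans
            (by have : (0 : ℝ) ≤ M := Nat.cast_nonneg _
                nlinarith)
          exact_mod_cast h3
        have h7 : ((S.image (fun m : ℕ => ⌊(m : ℝ) * β⌋)).card : ℤ) ≤ 0 + 1 - ⌊(M : ℝ) * β⌋ := by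
          omega
        exact_mod_cast h7
      push_cast at h5
      have h8 := Int.lt_floor_add_one ((M : ℝ) * β)
      rw [abs_of_neg hneg]
      linarith
    · have hsub : S.image (fun m : ℕ => ⌊(m : ℝ) * β⌋) ⊆ Icc 0 ⌊(M : ℝ) * β⌋ := by
        intro z hz
        rw [mem_image] at hz
        obtain ⟨m, hm, rfl⟩ := hz
        rw [hS, mem_filter, mem_Icc] at hm
        obtain ⟨⟨hm1, hm2⟩, -⟩ := hm
        have hm2R : (m : ℝ) ≤ M := by exact_mod_cast hm2
        have hm0R : (0 : ℝ) ≤ m := Nat.cast_nonneg _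
        rw [mem_Icc]
        constructor
        · apply Int.floor_nonneg.mpr
          positivity
        · apply Int.floor_le_floor
          nlinarith
      have h4 := card_le_card hsub
      rw [Int.card_Icc] at h4
      have h6 : 0 ≤ ⌊(M : ℝ) * β⌋ := Int.floor_nonneg.mpr (by positivity)
      have h7 : ((S.image (fun m : ℕ => ⌊(m : ℝ) * β⌋)).card : ℤ) ≤ ⌊(M : ℝ) * β⌋ + 1 := by
        omega
      have h5 : (((S.image (fun m : ℕ => ⌊(m : ℝ) * β⌋)).card : ℤ) : ℝ) ≤
          ((⌊(M : ℝ) * β⌋ + 1 : ℤ) : ℝ) := by exact_mod_cast h7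
      push_cast at h5
      have h8 := Int.floor_le ((M : ℝ) * β)
      rw [abs_of_pos hpos]
      linarith
  have h3 : ((⌊ρ / |β|⌋₊ + 1 : ℕ) : ℝ) ≤ ρ / |β| + 1 := by
    push_cast
    have := Nat.floor_le (div_nonneg hρ.le hab.le)
    linarith
  calc (S.card : ℝ) ≤ (((⌊ρ / |β|⌋₊ + 1) * (S.image (fun m : ℕ => ⌊(m : ℝ) * β⌋)).card : ℕ) : ℝ) := by
        exact_mod_cast h1
    _ = ((⌊ρ / |β|⌋₊ + 1 : ℕ) : ℝ) * ((S.image (fun m : ℕ => ⌊(m : ℝ) * β⌋)).card : ℝ) := by
        push_cast; ring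
    _ ≤ (ρ / |β| + 1) * (M * |β| + 2) := by
        apply mul_le_mul h3 h2 (by positivity) (by positivity)
    _ = _ := by ring

/-- two elements of a dense set which are near to each other -/
lemma exists_near (S : Finset ℕ) (M Q : ℕ) (hQ : 1 ≤ Q) (hS : S ⊆ Icc 1 M)
    (hcard : M / (Q + 1) + 1 < S.card) :
    ∃ m ∈ S, ∃ m' ∈ S, m < m' ∧ m' ≤ m + Q := by
  obtain ⟨x, hx, y, hy, hxy, heq⟩ := exists_ne_map_eq_of_card_lt_of_maps_to
    (s := S) (t := range (M / (Q + 1) + 1)) (by rw [card_range]; exact hcard)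
    (f := fun m => m / (Q + 1)) (by
      intro m hm
      have := mem_Icc.1 (hS hm)
      simp only [coe_range, Set.mem_Iio]
      have := Nat.div_le_div_right (c := Q + 1) this.2
      omega)
  have hx1 := Nat.div_add_mod x (Q + 1)
  have hy1 := Nat.div_add_mod y (Q + 1)
  have hx2 := Nat.mod_lt x (show 0 < Q + 1 by omega)
  have hy2 := Nat.mod_lt y (show 0 < Q + 1 by omega)
  rw [heq] at hx1
  rcases lt_or_gt_of_ne hxy with h | h
  · exact ⟨x, hx, y, hy, h, by omega⟩
  · exact ⟨y, hy, x, hx, h, by omega⟩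

lemma fract_le_self {y : ℝ} (hy : 0 ≤ y) : Int.fract y ≤ y := by
  have h1 : 0 ≤ ⌊y⌋ := Int.floor_nonneg.mpr hy
  have h2 : (0 : ℝ) ≤ (⌊y⌋ : ℝ) := by exact_mod_cast h1
  rw [Int.fract]
  linarith

theorem small_fract (δ : ℝ) (hδ : 0 < δ) (hδ1 : δ ≤ 1) :
    ∃ ε : ℝ, 0 < ε ∧ ∃ N : ℕ, 0 < N ∧ ∀ (θ : ℝ) (M : ℕ), 1 ≤ M →
      δ * M < (((Icc 1 M).filter (fun m : ℕ => Int.fract ((m : ℝ) * θ) < ε)).card : ℝ) →
      Int.fract ((N : ℝ) * θ) < N / M := by
  classical
  obtain ⟨Q, hQ⟩ := exists_nat_ge (2 / δ)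
  have hQpos : (0 : ℝ) < Q := lt_of_lt_of_le (by positivity) hQ
  have hQ1 : 1 ≤ Q := by exact_mod_cast Nat.pos_of_ne_zero (by rintro rfl; simp at hQpos)
  have hQ1R : (1 : ℝ) ≤ Q := by exact_mod_cast hQ1
  refine ⟨δ / (10 * Q), by positivity, Q.factorial, Nat.factorial_pos _, ?_⟩
  intro θ M hM hcard
  set ε : ℝ := δ / (10 * Q) with hε
  have hεpos : 0 < ε := by positivity
  have hMR : (1 : ℝ) ≤ M := by exact_mod_cast hM
  have hM0 : (0 : ℝ) < M := by linarith
  have hfac : (Q : ℝ) ≤ (Q.factorial : ℝ) := by exact_mod_cast Nat.self_le_factorial Q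
  rcases lt_or_ge M Q with hMQ | hMQ
  · -- trivial
    refine lt_of_lt_of_le (Int.fract_lt_one _) ?_
    rw [le_div_iff₀ hM0]
    have : (M : ℝ) ≤ Q := by exact_mod_cast hMQ.le
    linarith
  set S := (Icc 1 M).filter (fun m : ℕ => Int.fract ((m : ℝ) * θ) < ε) with hS
  have hMQR : (Q : ℝ) ≤ M := by exact_mod_cast hMQ
  -- a small q
  obtain ⟨m, hm, m', hm', hmm, hmQ⟩ := exists_near S M Q hQ1 (filter_subset _ _) (by
    have h1 : ((M / (Q + 1) + 1 : ℕ) : ℝ) < S.card := by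
      refine lt_of_le_of_lt ?_ hcard
      push_cast
      have h2 : ((M / (Q + 1) : ℕ) : ℝ) ≤ (M : ℝ) / Q := by
        refine Nat.cast_div_le.trans ?_
        push_cast
        apply div_le_div_of_nonneg_left hM0.le hQpos (by linarith)
      have h3 : (1 : ℝ) ≤ (M : ℝ) / Q := by rwa [le_div_iff₀ hQpos, one_mul]
      have h4 : 2 * ((M : ℝ) / Q) ≤ δ * M := by
        have h5 : 2 ≤ δ * Q := by
          rw [div_le_iff₀ hδ] at hQ
          linarith
        rw [← mul_div_assoc, div_le_iff₀ hQpos]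
        nlinarith
      linarith
    exact_mod_cast h1)
  rw [hS, mem_filter] at hm hm'
  obtain ⟨q0, rfl⟩ : ∃ q0, m' = m + q0 := ⟨m' - m, by omega⟩
  have hq01 : 1 ≤ q0 := by omega
  have hq0Q : q0 ≤ Q := by omega
  have hq0R : (1 : ℝ) ≤ q0 := by exact_mod_cast hq01
  set p0 : ℤ := ⌊((m + q0 : ℕ) : ℝ) * θ⌋ - ⌊(m : ℝ) * θ⌋ with hp0
  have hclose : |(q0 : ℝ) * θ - p0| < ε := by
    have h1 := hm.2
    have h2 := hm'.2
    have h3 := Int.fract_nonneg ((m : ℝ) * θ)
    have h4 := Int.fract_nonneg (((m + q0 : ℕ) : ℝ) * θ)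
    rw [Int.fract] at h1 h2 h3 h4
    rw [hp0]
    push_cast at h2 h4 ⊢
    rw [abs_lt]
    constructor <;> linarith
  set r : ℚ := (p0 : ℚ) / (q0 : ℚ) with hr
  have hrR : (r : ℝ) = (p0 : ℝ) / q0 := by rw [hr]; push_cast; ring
  set η : ℝ := θ - r with hη
  have hηq0 : |η| * q0 < ε := by
    have h1 : η * q0 = (q0 : ℝ) * θ - p0 := by
      rw [hη, hrR]; field_simp
    rw [← abs_of_pos (show (0 : ℝ) < q0 by linarith), ← abs_mul, h1]
    exact hclose
  have hdvd : r.den ∣ q0 := by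
    have h1 : ((p0 / (q0 : ℤ) : ℚ)).den ∣ q0 := by
      have h2 := Rat.den_dvd p0 (q0 : ℤ)
      have h3 : ((Rat.divInt p0 (q0 : ℤ)).den : ℤ) ∣ (q0 : ℤ) := h2
      rw [Rat.divInt_eq_div] at h3
      exact_mod_cast h3
    rw [hr]
    exact_mod_cast h1
  set q := r.den with hq
  have hqpos : 0 < q := r.den_pos
  have hqR : (1 : ℝ) ≤ q := by exact_mod_cast hqpos
  have hqle : q ≤ q0 := Nat.le_of_dvd (by omega) hdvd
  have hqQ : q ≤ Q := hqle.trans hq0Q
  have hqQR : (q : ℝ) ≤ Q := by exact_mod_cast hqQ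
  have hηq : |η| * q < ε := lt_of_le_of_lt
    (mul_le_mul_of_nonneg_left (by exact_mod_cast hqle) (abs_nonneg _)) hηq0
  have hrq : (r : ℝ) * q = r.num := by
    have := Rat.mul_den_eq_num r
    exact_mod_cast this
  have hθ : θ = r + η := by rw [hη]; ring
  rcases le_or_gt (1 / (2 * (Q : ℝ))) ((M : ℝ) * |η|) with hH | hH
  · -- a large drift
    exfalso
    have hη0 : 0 < |η| := by
      by_contra hcon
      have : |η| = 0 := le_antisymm (not_lt.mp hcon) (abs_nonneg _)
      rw [this, mul_zero] at hH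
      have : (0 : ℝ) < 1 / (2 * Q) := by positivity
      linarith
    have hηne : η ≠ 0 := abs_pos.mp hη0
    have hsub : S ⊆ (Icc 1 M).filter
        (fun m : ℕ => Int.fract ((m : ℝ) * ((q : ℝ) * η)) < (q : ℝ) * ε) := by
      intro k hk
      rw [hS, mem_filter] at hk
      rw [mem_filter]
      refine ⟨hk.1, ?_⟩
      have h1 : (k : ℝ) * (q * η) = (q : ℝ) * Int.fract ((k : ℝ) * θ) +
          ((q * ⌊(k : ℝ) * θ⌋ - k * r.num : ℤ) : ℝ) := by
        push_cast
        rw [Int.fract, ← hrq, hη]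
        ring
      rw [h1, Int.fract_add_intCast]
      have h2 : 0 ≤ (q : ℝ) * Int.fract ((k : ℝ) * θ) :=
        mul_nonneg (by positivity) (Int.fract_nonneg _)
      refine lt_of_le_of_lt (fract_le_self h2) ?_
      exact mul_lt_mul_of_pos_left hk.2 (by positivity)
    have h1 : (S.card : ℝ) ≤ (M * |(q : ℝ) * η| + 2) * ((q : ℝ) * ε / |(q : ℝ) * η| + 1) := by
      refine le_trans ?_ (count_fract_lt (β := (q : ℝ) * η) (ρ := (q : ℝ) * ε)
        (mul_ne_zero (by positivity) hηne) (by positivity) M)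
      exact_mod_cast card_le_card hsub
    rw [abs_mul, abs_of_pos (show (0 : ℝ) < q by linarith)] at h1
    have h2 : (q : ℝ) * ε / (q * |η|) = ε / |η| := by
      field_simp
    rw [h2] at h1
    have h3 : ε / |η| + 1 ≤ 2 * (ε / |η|) := by
      have : 1 ≤ ε / |η| := by
        rw [le_div_iff₀ hη0, one_mul]
        nlinarith
      linarith
    have h4 : (M * ((q : ℝ) * |η|) + 2) * (ε / |η| + 1) ≤ (M * ((q : ℝ) * |η|) + 2) * (2 * (ε / |η|)) :=
      mul_le_mul_of_nonneg_left h3 (by positivity)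
    have h5 : (M * ((q : ℝ) * |η|) + 2) * (2 * (ε / |η|)) = 2 * ε * (M * q) + 4 * ε / |η| := by
      field_simp
      ring
    have h6 : 1 / |η| ≤ 2 * Q * M := by
      rw [div_le_iff₀ hη0]
      rw [div_le_iff₀ (by positivity)] at hH
      nlinarith
    have h7 : 4 * ε / |η| ≤ 8 * ε * Q * M := by
      rw [mul_div_assoc, div_eq_mul_one_div ε]
      nlinarith [mul_le_mul_of_nonneg_left h6 hεpos.le]
    have h8 : 2 * ε * (M * q) ≤ 2 * ε * (M * Q) :=
      mul_le_mul_of_nonneg_left (mul_le_mul_of_nonneg_left hqQR hM0.le) (by positivity)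
    have h9 : ε * Q * 10 = δ := by
      rw [hε]; field_simp
    have h10 : (S.card : ℝ) ≤ δ * M := by
      calc (S.card : ℝ) ≤ 2 * ε * (M * Q) + 8 * ε * Q * M := by linarith
        _ = (ε * Q * 10) * M := by ring
        _ = δ * M := by rw [h9]
    linarith
  · rcases lt_or_ge η 0 with hneg | hpos
    · -- a small negative drift
      exfalso
      have h1 := hm.2
      set u := Int.fract ((m : ℝ) * θ) with hu
      have hu0 : 0 ≤ u := Int.fract_nonneg _
      have hm1 := mem_Icc.1 hm.1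
      have hmR : (1 : ℝ) ≤ m := by exact_mod_cast hm1.1
      have hmMR : (m : ℝ) ≤ M := by exact_mod_cast hm1.2
      set v := u + m * |η| with hv
      have hηpos : (0 : ℝ) < |η| := abs_pos.mpr (ne_of_lt hneg)
      have hv0 : 0 < v := by rw [hv]; positivity
      have hv1 : v < 1 / Q := by
        have h2 : (m : ℝ) * |η| ≤ M * |η| := mul_le_mul_of_nonneg_right hmMR (abs_nonneg _)
        have h3 : ε ≤ 1 / (10 * Q) := by
          rw [hε]
          exact div_le_div_of_nonneg_right hδ1 (by positivity)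
        have h4 : (1 : ℝ) / (10 * Q) + 1 / (2 * Q) ≤ 1 / Q := by
          have : (1 : ℝ) / (10 * Q) + 1 / (2 * Q) = (6 / 10) * (1 / Q) := by
            field_simp; norm_num
          rw [this]
          have : (0 : ℝ) < 1 / Q := by positivity
          linarith
        linarith
      have h5 : (q : ℝ) * v = ((m * r.num - q * ⌊(m : ℝ) * θ⌋ : ℤ) : ℝ) := by
        push_cast
        rw [hv, hu, Int.fract, abs_of_neg hneg, ← hrq, hη]
        ring
      have h6 : (0 : ℝ) < ((m * r.num - q * ⌊(m : ℝ) * θ⌋ : ℤ) : ℝ) := by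
        rw [← h5]; positivity
      have h7 : ((m * r.num - q * ⌊(m : ℝ) * θ⌋ : ℤ) : ℝ) < 1 := by
        rw [← h5]
        have h8 : (q : ℝ) * v < q * (1 / Q) := mul_lt_mul_of_pos_left hv1 (by positivity)
        have h9 : (q : ℝ) * (1 / Q) ≤ 1 := by
          rw [mul_one_div, div_le_one hQpos]
          exact hqQR
        linarith
      have h8 : (0 : ℤ) < (m * r.num - q * ⌊(m : ℝ) * θ⌋ : ℤ) := by exact_mod_cast h6
      have h9 : (m * r.num - q * ⌊(m : ℝ) * θ⌋ : ℤ) < 1 := by exact_mod_cast h7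
      omega
    · -- a small positive drift
      have hdvdN : q ∣ Q.factorial := Nat.dvd_factorial hqpos hqQ
      obtain ⟨t, ht⟩ := hdvdN
      have htR : (Q.factorial : ℝ) = (q : ℝ) * t := by exact_mod_cast ht
      have h1 : (Q.factorial : ℝ) * θ = (Q.factorial : ℝ) * η + ((t * r.num : ℤ) : ℝ) := by
        rw [hθ, htR, Int.cast_mul, Int.cast_natCast, ← hrq]
        ring
      rw [h1, Int.fract_add_intCast]
      refine lt_of_le_of_lt (fract_le_self (by positivity)) ?_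
      rw [abs_of_nonneg hpos] at hH
      rw [lt_div_iff₀ hM0]
      have h2 : (M : ℝ) * η < 1 := by
        refine lt_of_lt_of_le hH ?_
        rw [div_le_one (by positivity)]
        nlinarith
      have h3 : (0 : ℝ) < Q.factorial := by exact_mod_cast Nat.factorial_pos Q
      nlinarith

end Run7.h188.Mult
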