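import Pool.Agent.R474.AG.Fin
import Pool.Agent.Run7.h188.Mult

/-!
Digits of the multiples of algebraic numbers.
-/

set_option autoImplicit false

open Finset

namespace Run7.h188.Mult

open Pool.Agent.H820R3.DG

/-- the places `k ≤ n` of nonzero digits -/
noncomputable def nz (b : ℕ) (y : ℝ) (n : ℕ) : Finset ℕ := (Icc 1 n).filter (fun k => digit b y k ≠ 0)

/-- the stages `k < n` at which a block of `L` digits begins which are not all zero -/
noncomputable def act (b : ℕ) (y : ℝ) (n L : ℕ) : Finset ℕ :=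
  (range n).filter (fun k => 1 / (b : ℝ) ^ L ≤ Int.fract (y * (b : ℝ) ^ k))

lemma fract_ge_of_digit {b : ℕ} (hb : 2 ≤ b) {y : ℝ} {j k : ℕ} (hkj : k < j)
    (h : digit b y j ≠ 0) : 1 / (b : ℝ) ^ (j - k) ≤ Int.fract (y * (b : ℝ) ^ k) := by
  by_contra hcon
  rw [not_le] at hcon
  apply h
  have hb0 : (0 : ℝ) < b := by positivity
  obtain ⟨t, rfl⟩ : ∃ t, j = k + (t + 1) := ⟨j - k - 1, by omega⟩
  rw [show k + (t + 1) - k = t + 1 by omega] at hcon
  rw [lt_div_iff₀ (by positivity)] at hcon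
  have h1 : ⌊y * (b : ℝ) ^ (k + (t + 1))⌋ = (b : ℤ) ^ (t + 1) * ⌊y * (b : ℝ) ^ k⌋ := by
    rw [Int.floor_eq_iff]
    have h2 : y * (b : ℝ) ^ (k + (t + 1)) = (b : ℝ) ^ (t + 1) * ⌊y * (b : ℝ) ^ k⌋ +
        Int.fract (y * (b : ℝ) ^ k) * (b : ℝ) ^ (t + 1) := by
      rw [Int.fract, pow_add]; ring
    rw [h2]
    push_cast
    constructor
    · have := Int.fract_nonneg (y * (b : ℝ) ^ k)
      have : 0 ≤ Int.fract (y * (b : ℝ) ^ k) * (b : ℝ) ^ (t + 1) := by positivity
      linarith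
    · linarith
  rw [digit, h1]
  apply Int.emod_eq_zero_of_dvd
  exact ⟨(b : ℤ) ^ t * ⌊y * (b : ℝ) ^ k⌋, by rw [pow_succ]; ring⟩

lemma digit_of_fract_ge {b : ℕ} (hb : 2 ≤ b) {y : ℝ} {k r : ℕ}
    (h : 1 / (b : ℝ) ^ r ≤ Int.fract (y * (b : ℝ) ^ k)) :
    ∃ j, k < j ∧ j ≤ k + r ∧ digit b y j ≠ 0 := by
  by_contra hcon
  push Not at hcon
  have hb0 : (0 : ℝ) < b := by positivity
  have key : ∀ i ≤ r, ⌊y * (b : ℝ) ^ (k + i)⌋ = (b : ℤ) ^ i * ⌊y * (b : ℝ) ^ k⌋ := by
    intro i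
    induction i with
    | zero => intro _; simp
    | succ i ih =>
      intro hi
      have h1 := ih (by omega)
      have h2 := hcon (k + (i + 1)) (by omega) (by omega)
      rw [digit] at h2
      have h3 := Int.dvd_of_emod_eq_zero h2
      obtain ⟨q, hq⟩ := h3
      have h4 : ⌊y * (b : ℝ) ^ (k + i)⌋ = q := by
        rw [Int.floor_eq_iff]
        have h5 := Int.floor_le (y * (b : ℝ) ^ (k + (i + 1)))
        have h6 := Int.lt_floor_add_one (y * (b : ℝ) ^ (k + (i + 1)))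
        rw [hq] at h5 h6
        push_cast at h5 h6
        have h7 : y * (b : ℝ) ^ (k + (i + 1)) = (b : ℝ) * (y * (b : ℝ) ^ (k + i)) := by
          rw [← add_assoc, pow_succ]; ring
        rw [h7] at h5 h6
        constructor
        · exact le_of_mul_le_mul_left h5 hb0
        · have h8 : ⌊y * (b : ℝ) ^ (k + (i + 1))⌋ = ⌊(b : ℝ) * (y * (b : ℝ) ^ (k + i))⌋ := by rw [h7]
          by_contra hc
          rw [not_lt] at hc
          have h9 : (b : ℝ) * (q + 1) ≤ (b : ℝ) * (y * (b : ℝ) ^ (k + i)) :=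
            mul_le_mul_of_nonneg_left hc hb0.le
          have hb2 : (2 : ℝ) ≤ b := by exact_mod_cast hb
          nlinarith
      rw [hq, ← h4, h1, pow_succ]
      ring
  have h1 := key r le_rfl
  have h2 := Int.lt_floor_add_one (y * (b : ℝ) ^ (k + r))
  rw [h1] at h2
  push_cast at h2
  rw [div_le_iff₀ (by positivity), Int.fract] at h
  rw [pow_add] at h2
  nlinarith

lemma act_mono {b : ℕ} (hb : 2 ≤ b) {y : ℝ} {n L L' : ℕ} (h : L ≤ L') :
    act b y n L ⊆ act b y n L' := by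
  intro k hk
  rw [act, mem_filter] at hk ⊢
  refine ⟨hk.1, le_trans ?_ hk.2⟩
  have hb1 : (1 : ℝ) ≤ b := by exact_mod_cast (show 1 ≤ b by omega)
  exact one_div_le_one_div_of_le (by positivity) (pow_le_pow_right₀ hb1 h)

lemma exists_enum (I : Finset ℕ) : ∃ f : ℕ → ℕ, ∀ a ∈ I, ∃ i < I.card, f i = a := by
  refine ⟨fun i => I.toList.getD i 0, fun a ha => ?_⟩
  have h1 : a ∈ I.toList := by simpa using ha
  obtain ⟨i, hi, h2⟩ := List.getElem_of_mem h1
  refine ⟨i, by simpa using hi, ?_⟩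
  simp only [List.getD_eq_getElem?_getD, List.getElem?_eq_getElem hi, Option.getD_some, h2]

/-- from nonzero digits to active stages, blocks of length `L` -/
lemma act_blocks {b : ℕ} (hb : 2 ≤ b) (y : ℝ) (n L : ℕ) (hL : 1 ≤ L) :
    (((nz b y n).image (fun j => (j - 1) / L)).card - 1) * L ≤ 2 * (act b y n L).card := by
  classical
  set I := (nz b y n).image (fun j => (j - 1) / L) with hI
  have h1 : I.card - 1 ≤ (I.erase 0).card := pred_card_le_card_erase
  have h2 : (I.erase 0).card * L ≤ (act b y n L).card * 2 := by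
    apply card_mul_le_card_mul (fun a k => k / L = a ∨ k / L + 1 = a)
    · intro a ha
      rw [mem_erase, hI, mem_image] at ha
      obtain ⟨ha0, j, hj, rfl⟩ := ha
      rw [nz, mem_filter, mem_Icc] at hj
      obtain ⟨⟨hj1, hj2⟩, hj3⟩ := hj
      have hjL : L ≤ j - 1 := by
        by_contra hcon
        exact ha0 (Nat.div_eq_of_lt (by omega))
      have hsub : Ico (j - L) j ⊆ (act b y n L).bipartiteAbove
          (fun a k => k / L = a ∨ k / L + 1 = a) ((j - 1) / L) := by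
        intro k hk
        rw [mem_Ico] at hk
        rw [mem_bipartiteAbove, act, mem_filter, mem_range]
        refine ⟨⟨by omega, ?_⟩, ?_⟩
        · refine le_trans ?_ (fract_ge_of_digit hb hk.2 hj3)
          have hb1 : (1 : ℝ) ≤ b := by exact_mod_cast (show 1 ≤ b by omega)
          exact one_div_le_one_div_of_le (by positivity) (pow_le_pow_right₀ hb1 (by omega))
        · have h3 : k / L ≤ (j - 1) / L := Nat.div_le_div_right (by omega)
          have h4 : (j - 1) / L ≤ k / L + 1 := by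
            have h5 : j - 1 ≤ k + L := by omega
            have h6 := Nat.div_le_div_right (c := L) h5
            rwa [Nat.add_div_right _ (by omega)] at h6
          omega
      have h3 := card_le_card hsub
      rw [Nat.card_Ico] at h3
      omega
    · intro k hk
      have hsub : (I.erase 0).bipartiteBelow (fun a k => k / L = a ∨ k / L + 1 = a) k ⊆
          {k / L, k / L + 1} := by
        intro a ha
        rw [mem_bipartiteBelow] at ha
        rw [mem_insert, mem_singleton]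
        rcases ha.2 with h | h
        · exact Or.inl h.symm
        · exact Or.inr h.symm
      exact (card_le_card hsub).trans card_le_two
  calc (I.card - 1) * L ≤ (I.erase 0).card * L := Nat.mul_le_mul_right _ h1
    _ ≤ (act b y n L).card * 2 := h2
    _ = 2 * (act b y n L).card := by ring

/-- The number of active stages of an irrational algebraic number. -/
theorem act_pow {b : ℕ} (hb : 2 ≤ b) {ξ : ℝ} (halg : IsAlgebraic ℚ ξ) (hirr : Irrational ξ) (D : ℕ)
    (hD : (minpoly ℚ ξ).natDegree = D) (hD1 : 1 ≤ D) :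
    ∃ c : ℝ, 0 < c ∧ ∃ n0 : ℕ, ∀ n L : ℕ, n0 ≤ n → 1 ≤ L → L ≤ n →
      c * n * (L : ℝ) ^ (D - 1) ≤ ((act b ξ n L).card : ℝ) ^ D := by
  classical
  obtain ⟨c0, hc0, n0, hcov⟩ := Pool.Agent.R474.AG.cover_alg hb halg hirr
  rw [hD] at hcov
  set c1 : ℝ := min c0 1 / 2 with hc1
  have hc1pos : 0 < c1 := by rw [hc1]; positivity
  have hc1c0 : c1 ≤ c0 / 2 := by
    rw [hc1]; exact div_le_div_of_nonneg_right (min_le_left _ _) (by norm_num)
  have hc1one : c1 ≤ 1 := by
    rw [hc1]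
    have := min_le_right c0 1
    linarith
  obtain ⟨n1, hn1⟩ := exists_nat_gt (2 / c0)
  refine ⟨c0 * c1 ^ (D - 1) / 4 ^ D, by positivity, max (max n0 n1) 1, ?_⟩
  intro n L hn hL hLn
  have hn0 : n0 ≤ n := by omega
  have hn1' : n1 ≤ n := by omega
  have hn1R : 2 / c0 < n := lt_of_lt_of_le hn1 (by exact_mod_cast hn1')
  have hcn : 2 < c0 * n := by
    rw [div_lt_iff₀ hc0] at hn1R
    linarith
  set L1 : ℕ := ⌈c1 * L⌉₊ with hL1
  have hLR : (1 : ℝ) ≤ L := by exact_mod_cast hL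
  have hLnR : (L : ℝ) ≤ n := by exact_mod_cast hLn
  have hL1ge : c1 * L ≤ L1 := Nat.le_ceil _
  have hL1pos : 1 ≤ L1 := by
    have : 0 < L1 := Nat.ceil_pos.mpr (by positivity)
    omega
  have hL1le : L1 ≤ L := by
    rw [hL1, Nat.ceil_le]
    nlinarith
  have hL1lt : (L1 : ℝ) < c0 * n := by
    have h1 : (L1 : ℝ) < c1 * L + 1 := Nat.ceil_lt_add_one (by positivity)
    have h2 : c1 * L ≤ c0 / 2 * n := mul_le_mul hc1c0 hLnR (by positivity) (by positivity)
    linarith
  set I := (nz b ξ n).image (fun j => (j - 1) / L1) with hI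
  obtain ⟨f, hf⟩ := exists_enum I
  have h1 := hcov 0 (Or.inl rfl) n I.card (fun i => L1 * f i + 1) (fun i => L1 * f i + L1) hn0
    (fun i _ => by omega)
    (fun k hk hdk => by
      have hk' : (k - 1) / L1 ∈ I := by
        rw [hI, mem_image]
        exact ⟨k, by rw [nz, mem_filter]; exact ⟨hk, hdk⟩, rfl⟩
      obtain ⟨i, hi, hfi⟩ := hf _ hk'
      refine ⟨i, hi, ?_⟩
      rw [hfi]
      have hk1 := mem_Icc.1 hk
      have h2 := Nat.div_add_mod (k - 1) L1
      have h3 := Nat.mod_lt (k - 1) (show 0 < L1 by omega)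
      omega)
  have hsum : ∑ i ∈ range I.card, (L1 * f i + L1 + 1 - (L1 * f i + 1)) = I.card * L1 := by
    have : ∀ i ∈ range I.card, (L1 * f i + L1 + 1 - (L1 * f i + 1)) = L1 := by
      intro i _
      omega
    rw [sum_congr rfl this, sum_const, card_range, smul_eq_mul]
  rw [hsum] at h1
  have hK : c0 * n ≤ (I.card : ℝ) ^ D * L1 := by
    refine h1.trans (le_of_eq ?_)
    push_cast
    obtain ⟨d, rfl⟩ : ∃ d, D = d + 1 := ⟨D - 1, by omega⟩
    rw [show d + 1 - 1 = d by omega, pow_succ]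
    ring
  have hK2 : 2 ≤ I.card := by
    by_contra hcon
    have hKR : (I.card : ℝ) ≤ 1 := by exact_mod_cast (show I.card ≤ 1 by omega)
    have : (I.card : ℝ) ^ D ≤ 1 := pow_le_one₀ (by positivity) hKR
    have hL0 : (0 : ℝ) ≤ L1 := by positivity
    nlinarith
  have h2 := act_blocks hb ξ n L1 hL1pos
  rw [← hI] at h2
  have h3 : I.card * L1 ≤ 4 * (act b ξ n L1).card := by
    have h4 : I.card ≤ 2 * (I.card - 1) := by omega
    calc I.card * L1 ≤ 2 * (I.card - 1) * L1 := Nat.mul_le_mul_right _ h4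
      _ = 2 * ((I.card - 1) * L1) := by ring
      _ ≤ 2 * (2 * (act b ξ n L1).card) := Nat.mul_le_mul_left _ h2
      _ = _ := by ring
  have h4 : I.card * L1 ≤ 4 * (act b ξ n L).card :=
    h3.trans (Nat.mul_le_mul_left _ (card_le_card (act_mono hb hL1le)))
  have h4R : (I.card : ℝ) * L1 ≤ 4 * ((act b ξ n L).card : ℝ) := by exact_mod_cast h4
  have h5 : ((I.card : ℝ) * L1) ^ D ≤ (4 * ((act b ξ n L).card : ℝ)) ^ D :=
    pow_le_pow_left₀ (by positivity) h4R D
  rw [mul_pow, mul_pow] at h5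
  have h6 : c0 * n * (L1 : ℝ) ^ (D - 1) ≤ (I.card : ℝ) ^ D * (L1 : ℝ) ^ D := by
    calc c0 * n * (L1 : ℝ) ^ (D - 1) ≤ ((I.card : ℝ) ^ D * L1) * (L1 : ℝ) ^ (D - 1) :=
          mul_le_mul_of_nonneg_right hK (by positivity)
      _ = (I.card : ℝ) ^ D * (L1 : ℝ) ^ D := by
          obtain ⟨d, rfl⟩ : ∃ d, D = d + 1 := ⟨D - 1, by omega⟩
          rw [show d + 1 - 1 = d by omega, pow_succ (L1 : ℝ)]
          ring
  have h7 : (c1 * L) ^ (D - 1) ≤ (L1 : ℝ) ^ (D - 1) := pow_le_pow_left₀ (by positivity) hL1ge _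
  rw [mul_pow] at h7
  have h8 : c0 * n * (c1 ^ (D - 1) * (L : ℝ) ^ (D - 1)) ≤ 4 ^ D * ((act b ξ n L).card : ℝ) ^ D :=
    (mul_le_mul_of_nonneg_left h7 (by positivity)).trans (h6.trans h5)
  rw [div_mul_eq_mul_div, div_mul_eq_mul_div, div_le_iff₀ (by positivity)]
  calc c0 * c1 ^ (D - 1) * n * (L : ℝ) ^ (D - 1) = c0 * n * (c1 ^ (D - 1) * (L : ℝ) ^ (D - 1)) := by
        ring
    _ ≤ 4 ^ D * ((act b ξ n L).card : ℝ) ^ D := h8
    _ = _ := by ring

end Run7.h188.Mult
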