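import Pool.Agent.Run7.h188.MultAct

/-!
Nonzero digits of almost all multiples of an algebraic number.
-/

set_option autoImplicit false

open Finset

namespace Run7.h188.Mult

open Pool.Agent.H820R3.DG

/-- stages at which one of the next `r` digits is not zero -/
lemma card_stages_le {b : ℕ} (hb : 2 ≤ b) (y : ℝ) (n r : ℕ) (B : Finset ℕ)
    (hB : ∀ k ∈ B, k + r ≤ n ∧ 1 / (b : ℝ) ^ r ≤ Int.fract (y * (b : ℝ) ^ k)) :
    B.card ≤ r * (nz b y n).card := by
  classical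
  have h := card_mul_le_card_mul (s := B) (t := nz b y n) (fun k j => k < j ∧ j ≤ k + r) (m := 1)
    (n := r) (by
      intro k hk
      obtain ⟨h1, h2⟩ := hB k hk
      obtain ⟨j, hj1, hj2, hj3⟩ := digit_of_fract_ge hb h2
      rw [Nat.one_le_iff_ne_zero, ← Nat.pos_iff_ne_zero, card_pos]
      refine ⟨j, ?_⟩
      rw [mem_bipartiteAbove, nz, mem_filter, mem_Icc]
      exact ⟨⟨⟨by omega, by omega⟩, hj3⟩, hj1, hj2⟩) (by
      intro j hj
      have hsub : B.bipartiteBelow (fun k j => k < j ∧ j ≤ k + r) j ⊆ Ico (j - r) j := by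
        intro k hk
        rw [mem_bipartiteBelow] at hk
        rw [mem_Ico]
        omega
      refine (card_le_card hsub).trans ?_
      rw [Nat.card_Ico]
      omega)
  rw [mul_one] at h
  exact h.trans (le_of_eq (mul_comm _ _))

lemma natDegree_mul {c : ℚ} (hc : c ≠ 0) {ξ : ℝ} (halg : IsAlgebraic ℚ ξ) :
    (minpoly ℚ ((c : ℝ) * ξ)).natDegree = (minpoly ℚ ξ).natDegree := by
  have hcR : (c : ℝ) ≠ 0 := by exact_mod_cast hc
  have hint : IsIntegral ℚ ξ := halg.isIntegral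
  have hint2 : IsIntegral ℚ ((c : ℝ) * ξ) := by
    have h1 : IsIntegral ℚ (c : ℝ) := isIntegral_algebraMap (R := ℚ) (A := ℝ) (x := c)
    exact h1.mul hint
  rw [← IntermediateField.adjoin.finrank hint, ← IntermediateField.adjoin.finrank hint2]
  have h1 : IntermediateField.adjoin ℚ {(c : ℝ) * ξ} = IntermediateField.adjoin ℚ {ξ} := by
    apply le_antisymm
    · rw [IntermediateField.adjoin_simple_le_iff]
      exact mul_mem (IntermediateField.algebraMap_mem _ c) (IntermediateField.mem_adjoin_simple_self ℚ ξ)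
    · rw [IntermediateField.adjoin_simple_le_iff]
      have h2 : ξ = (c : ℝ)⁻¹ * ((c : ℝ) * ξ) := by field_simp
      have h3 : (c : ℝ)⁻¹ * ((c : ℝ) * ξ) ∈ IntermediateField.adjoin ℚ {(c : ℝ) * ξ} :=
        mul_mem (inv_mem (IntermediateField.algebraMap_mem _ c))
          (IntermediateField.mem_adjoin_simple_self ℚ _)
      rw [← h2] at h3
      exact h3
  rw [h1]

/-- Nonzero digits of almost all of the numbers `m (ξ + a) / s`. -/
theorem main_pow {b : ℕ} (hb : 2 ≤ b) {ξ : ℝ} (halg : IsAlgebraic ℚ ξ) (hirr : Irrational ξ) (D : ℕ)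
    (hD : (minpoly ℚ ξ).natDegree = D) (δ : ℝ) (hδ : 0 < δ) :
    ∃ c : ℝ, 0 < c ∧ ∃ L0 : ℕ, ∀ L : ℕ, L0 ≤ L → ∀ n : ℕ, L ≤ n → ∀ s : ℕ, 1 ≤ s → ∀ a : ℤ,
      ∀ M : ℕ, s * b ^ L ≤ M →
      (((Icc 1 M).filter (fun m : ℕ =>
        ((nz b ((m : ℝ) * ((ξ + a) / s)) n).card : ℝ) ^ D < c * n * (L : ℝ) ^ (D - 1))).card : ℝ)
        ≤ δ * M := by
  classical
  have hD1 : 1 ≤ D := by rw [← hD]; exact minpoly.natDegree_pos halg.isIntegral
  set δ1 : ℝ := min δ 1 / 2 with hδ1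
  have hδ1pos : 0 < δ1 := by rw [hδ1]; positivity
  have hδ1one : δ1 ≤ 1 := by
    rw [hδ1]
    have := min_le_right δ 1
    linarith
  have hδ1δ : 2 * δ1 ≤ δ := by
    rw [hδ1]
    have := min_le_left δ 1
    linarith
  obtain ⟨ε, hε, N, hN, hsmall⟩ := small_fract δ1 hδ1pos hδ1one
  have hNR : (0 : ℝ) < N := by exact_mod_cast hN
  have hN1R : (1 : ℝ) ≤ N := by exact_mod_cast hN
  have hbR : (1 : ℝ) < b := by exact_mod_cast (show 1 < b by omega)
  have hb0 : (0 : ℝ) < b := by linarith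
  obtain ⟨r0, hr0⟩ := exists_nat_gt (1 / ε)
  obtain ⟨l1, hl1⟩ := exists_nat_ge (N : ℝ)
  have hpow : ∀ t : ℕ, (t : ℝ) ≤ (b : ℝ) ^ t := fun t => by
    exact_mod_cast (Nat.lt_pow_self (show 1 < b by omega)).le
  set r : ℕ := r0 + 1 with hr
  have hrε : 1 / (b : ℝ) ^ r ≤ ε := by
    rw [div_le_iff₀ (by positivity)]
    have h1 : 1 / ε < (b : ℝ) ^ r := by
      refine hr0.trans_le ?_
      refine le_trans ?_ (hpow r)
      rw [hr]; push_cast; linarith
    rw [div_lt_iff₀ hε] at h1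
    linarith
  set l0 : ℕ := max l1 r with hl0
  have hNl0 : (N : ℝ) ≤ (b : ℝ) ^ l0 := by
    refine hl1.trans (le_trans ?_ (hpow l0))
    exact_mod_cast le_max_left _ _
  have hrl0 : r ≤ l0 := le_max_right _ _
  -- the number N ξ
  have halgN : IsAlgebraic ℚ ((N : ℝ) * ξ) := (isAlgebraic_natCast (R := ℚ) (A := ℝ) N).mul halg
  have hirrN : Irrational ((N : ℝ) * ξ) := hirr.natCast_mul hN.ne'
  have hdegN : (minpoly ℚ ((N : ℝ) * ξ)).natDegree = D := by
    have h1 := natDegree_mul (c := (N : ℚ)) (by exact_mod_cast hN.ne') halg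
    rw [hD] at h1
    push_cast at h1
    exact h1
  obtain ⟨c1, hc1, n1, hact⟩ := act_pow hb halgN hirrN D hdegN hD1
  have hr1 : 1 ≤ r := by omega
  have hrR : (1 : ℝ) ≤ r := by exact_mod_cast hr1
  refine ⟨c1 / 2 ^ D / (2 * r) ^ D, by positivity, 2 * l0 + 1 + n1, ?_⟩
  intro L hL n hLn s hs a M hM
  have hMpos : 1 ≤ M := by
    have : 0 < s * b ^ L := by positivity
    omega
  have hMR : (0 : ℝ) < M := by exact_mod_cast hMpos
  have hsR : (0 : ℝ) < s := by exact_mod_cast hs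
  set y : ℝ := (ξ + a) / s with hy
  set A := act b ((N : ℝ) * ξ) (n - r) (L - l0) with hA
  have hA1 : c1 * ((n - r : ℕ) : ℝ) * ((L - l0 : ℕ) : ℝ) ^ (D - 1) ≤ (A.card : ℝ) ^ D :=
    hact (n - r) (L - l0) (by omega) (by omega) (by omega)
  have hA2 : c1 / 2 ^ D * n * (L : ℝ) ^ (D - 1) ≤ (A.card : ℝ) ^ D := by
    refine le_trans ?_ hA1
    have h1 : (n : ℝ) / 2 ≤ ((n - r : ℕ) : ℝ) := by
      rw [div_le_iff₀ (by norm_num)]
      have : n ≤ (n - r) * 2 := by omega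
      exact_mod_cast this
    have h2 : (L : ℝ) / 2 ≤ ((L - l0 : ℕ) : ℝ) := by
      rw [div_le_iff₀ (by norm_num)]
      have : L ≤ (L - l0) * 2 := by omega
      exact_mod_cast this
    have h3 : ((L : ℝ) / 2) ^ (D - 1) ≤ ((L - l0 : ℕ) : ℝ) ^ (D - 1) :=
      pow_le_pow_left₀ (by positivity) h2 _
    calc c1 / 2 ^ D * n * (L : ℝ) ^ (D - 1) = c1 * ((n : ℝ) / 2) * ((L : ℝ) / 2) ^ (D - 1) := by
          obtain ⟨d, rfl⟩ : ∃ d, D = d + 1 := ⟨D - 1, by omega⟩
          rw [show d + 1 - 1 = d by omega, pow_succ, div_pow]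
          field_simp
      _ ≤ c1 * ((n - r : ℕ) : ℝ) * ((L - l0 : ℕ) : ℝ) ^ (D - 1) := by
          apply mul_le_mul (mul_le_mul_of_nonneg_left h1 hc1.le) h3 (by positivity) (by positivity)
  have hnR : (0 : ℝ) < n := by exact_mod_cast (show 0 < n by omega)
  have hLR : (0 : ℝ) < L := by exact_mod_cast (show 0 < L by omega)
  have hApos : (0 : ℝ) < A.card := by
    by_contra hcon
    have h0 : (A.card : ℝ) = 0 := le_antisymm (not_lt.mp hcon) (by positivity)
    rw [h0, zero_pow (by omega)] at hA2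
    have : 0 < c1 / 2 ^ D * n * (L : ℝ) ^ (D - 1) := by positivity
    linarith
  -- few bad multipliers for each stage
  have hstage : ∀ k ∈ A, (((Icc 1 M).filter (fun m : ℕ =>
      Int.fract ((m : ℝ) * (y * (b : ℝ) ^ k)) < ε)).card : ℝ) ≤ δ1 * M := by
    intro k hk
    by_contra hcon
    rw [not_le] at hcon
    have h1 := hsmall (y * (b : ℝ) ^ k) M hMpos hcon
    rw [hA, act, mem_filter] at hk
    have h2 := hk.2
    have h3 : (N : ℝ) * ξ * (b : ℝ) ^ k = (s : ℝ) * Int.fract ((N : ℝ) * (y * (b : ℝ) ^ k)) +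
        ((s * ⌊(N : ℝ) * (y * (b : ℝ) ^ k)⌋ - N * a * b ^ k : ℤ) : ℝ) := by
      push_cast
      rw [Int.fract, hy]
      field_simp
      ring
    rw [h3, Int.fract_add_intCast] at h2
    have h4 := fract_le_self (mul_nonneg hsR.le (Int.fract_nonneg ((N : ℝ) * (y * (b : ℝ) ^ k))))
    have h5 : (s : ℝ) * Int.fract ((N : ℝ) * (y * (b : ℝ) ^ k)) < s * (N / M) :=
      mul_lt_mul_of_pos_left h1 hsR
    have h6 : (s : ℝ) * (N / M) ≤ 1 / (b : ℝ) ^ (L - l0) := by
      rw [mul_div_assoc', div_le_div_iff₀ hMR (by positivity), one_mul]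
      have h7 : (b : ℝ) ^ L = (b : ℝ) ^ l0 * (b : ℝ) ^ (L - l0) := by
        rw [← pow_add]; congr 1; omega
      have h8 : (s : ℝ) * (b : ℝ) ^ L ≤ M := by exact_mod_cast hM
      calc (s : ℝ) * N * (b : ℝ) ^ (L - l0) ≤ (s : ℝ) * (b : ℝ) ^ l0 * (b : ℝ) ^ (L - l0) := by
            apply mul_le_mul_of_nonneg_right _ (by positivity)
            exact mul_le_mul_of_nonneg_left hNl0 hsR.le
        _ = (s : ℝ) * (b : ℝ) ^ L := by rw [h7]; ring
        _ ≤ M := h8
    linarith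
  -- double counting
  set Bad := (Icc 1 M).filter (fun m : ℕ =>
        ((nz b ((m : ℝ) * y) n).card : ℝ) ^ D < c1 / 2 ^ D / (2 * r) ^ D * n * (L : ℝ) ^ (D - 1))
    with hBad
  have hbad : ∀ m ∈ Bad, (A.card : ℝ) / 2 ≤
      ((A.filter (fun k => Int.fract ((m : ℝ) * (y * (b : ℝ) ^ k)) < ε)).card : ℝ) := by
    intro m hm
    by_contra hcon
    rw [not_le] at hcon
    have h1 : ((A.filter (fun k => Int.fract ((m : ℝ) * (y * (b : ℝ) ^ k)) < ε)).card : ℝ) +
        ((A.filter (fun k => ¬ Int.fract ((m : ℝ) * (y * (b : ℝ) ^ k)) < ε)).card : ℝ) = A.card := by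
      exact_mod_cast card_filter_add_card_filter_not (s := A) _
    have h2 : ((A.filter (fun k => ¬ Int.fract ((m : ℝ) * (y * (b : ℝ) ^ k)) < ε)).card : ℝ) ≤
        r * ((nz b ((m : ℝ) * y) n).card : ℝ) := by
      have h3 := card_stages_le hb ((m : ℝ) * y) n r
        (A.filter (fun k => ¬ Int.fract ((m : ℝ) * (y * (b : ℝ) ^ k)) < ε)) (by
          intro k hk
          rw [mem_filter, not_lt] at hk
          obtain ⟨hk1, hk2⟩ := hk
          rw [hA, act, mem_filter, mem_range] at hk1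
          refine ⟨by omega, ?_⟩
          rw [mul_assoc]
          exact hrε.trans hk2)
      exact_mod_cast h3
    have h3 : (A.card : ℝ) ≤ 2 * r * ((nz b ((m : ℝ) * y) n).card : ℝ) := by linarith
    have h4 : (A.card : ℝ) ^ D ≤ (2 * r * ((nz b ((m : ℝ) * y) n).card : ℝ)) ^ D :=
      pow_le_pow_left₀ hApos.le h3 D
    rw [mul_pow] at h4
    rw [hBad, mem_filter] at hm
    have h5 := hm.2
    have h6 : c1 / 2 ^ D / (2 * r) ^ D * n * (L : ℝ) ^ (D - 1) =
        (c1 / 2 ^ D * n * (L : ℝ) ^ (D - 1)) / (2 * r) ^ D := by ring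
    rw [h6, lt_div_iff₀ (by positivity)] at h5
    linarith
  have hdc : (Bad.card : ℝ) * ((A.card : ℝ) / 2) ≤ (A.card : ℝ) * (δ1 * M) := by
    calc (Bad.card : ℝ) * ((A.card : ℝ) / 2) = ∑ _m ∈ Bad, (A.card : ℝ) / 2 := by
          rw [sum_const, nsmul_eq_mul]
      _ ≤ ∑ m ∈ Bad, ((A.filter (fun k => Int.fract ((m : ℝ) * (y * (b : ℝ) ^ k)) < ε)).card : ℝ) :=
          sum_le_sum hbad
      _ ≤ ∑ m ∈ Icc 1 M, ((A.filter (fun k =>
            Int.fract ((m : ℝ) * (y * (b : ℝ) ^ k)) < ε)).card : ℝ) :=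
          sum_le_sum_of_subset_of_nonneg (filter_subset _ _) (fun _ _ _ => by positivity)
      _ = ∑ k ∈ A, (((Icc 1 M).filter (fun m : ℕ =>
            Int.fract ((m : ℝ) * (y * (b : ℝ) ^ k)) < ε)).card : ℝ) := by
          have := sum_card_bipartiteAbove_eq_sum_card_bipartiteBelow
            (s := Icc 1 M) (t := A) (fun (m : ℕ) k => Int.fract ((m : ℝ) * (y * (b : ℝ) ^ k)) < ε)
          exact_mod_cast this
      _ ≤ ∑ _k ∈ A, δ1 * M := sum_le_sum hstage
      _ = (A.card : ℝ) * (δ1 * M) := by rw [sum_const, nsmul_eq_mul]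
  have hfin : (Bad.card : ℝ) ≤ 2 * δ1 * M := by
    have h1 : (A.card : ℝ) * ((Bad.card : ℝ) / 2) ≤ (A.card : ℝ) * (δ1 * M) := by linarith
    have h2 := le_of_mul_le_mul_left h1 hApos
    linarith
  exact hfin.trans (mul_le_mul_of_nonneg_right hδ1δ hMR.le)

end Run7.h188.Mult
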