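import Pool.Agent.Run7.h188.Lines

/-! Two lines have at most four chosen points in common. -/

namespace Run7.h188

open Finset

lemma arith {x y x' y' s s' e' : ℝ} (hy : 0 < y) (hyy : y < y') (h1 : x' - s * y' ≤ x - s * y)
    (h2 : x - s' * y ≤ x' - s' * y') (h3 : e' ≤ x - s * y)
    (h4 : ¬ (x' - s * y' = x - s * y ∧ e' = x - s * y))
    (h5 : (x - e') * y' ≤ (x' - e') * y ∨ x' - e' ≤ s' * y') : False := by
  have hd : 0 < y' - y := by linarith
  rcases h5 with h5 | h5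
  · have c1 : (x - e' - s * y) * (y' - y) ≤ 0 := by nlinarith
    have c2 : x - e' - s * y ≤ 0 := nonpos_of_mul_nonpos_left c1 hd
    have c3 : e' = x - s * y := by linarith
    apply h4
    refine ⟨?_, c3⟩
    apply le_antisymm h1
    have c4 : (x - e') * y' = s * y * y' := by rw [c3]; ring
    have c5 : 0 ≤ (x' - e' - s * y') * y := by nlinarith
    have c6 : 0 ≤ x' - e' - s * y' := nonneg_of_mul_nonneg_left c5 hy
    linarith
  · have c1 : (s' - s) * (y' - y) ≤ 0 := by nlinarith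
    have c2 : s' - s ≤ 0 := nonpos_of_mul_nonpos_left c1 hd
    have c3 : 0 ≤ (s' - s) * y := by nlinarith
    have c4 : 0 ≤ s' - s := nonneg_of_mul_nonneg_left c3 hy
    have c5 : s' = s := by linarith
    subst c5
    apply h4
    constructor <;> nlinarith

lemma arith_pos {x y x' y' s s' e' a a' b : ℝ} (hy : 0 < y) (hyy : y < y') (ha : a < 0)
    (ha' : a' < 0) (hb : b ≠ 0)
    (i1 : 0 ≤ a * ((x' - s * y') - (x - s * y))) (i2 : 0 ≤ a * (e' - (x - s * y)))
    (i3 : 0 ≤ a' * ((x - s' * y) - (x' - s' * y')))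
    (i4 : 0 ≤ b * ((x - e') / y - (x' - e') / y')) (i5 : 0 ≤ b * (s' - (x' - e') / y'))
    (h4 : ¬ (x' - s * y' = x - s * y ∧ e' = x - s * y)) : False := by
  have hy' : 0 < y' := hy.trans hyy
  have neg : ∀ {c z : ℝ}, c < 0 → 0 ≤ c * z → z ≤ 0 := by
    intro c z hc hz
    by_contra hcon
    push Not at hcon
    have := mul_neg_of_neg_of_pos hc hcon
    linarith
  have j1 := neg ha i1
  have j2 := neg ha i2
  have j3 := neg ha' i3
  refine arith (s' := s') hy hyy (by linarith) (by linarith) (by linarith) h4 ?_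
  rcases lt_or_gt_of_ne hb with hb | hb
  · left
    have j4 := neg hb i4
    have : (x - e') / y ≤ (x' - e') / y' := by linarith
    rwa [div_le_div_iff₀ hy hy'] at this
  · right
    have j5 := nonneg_of_mul_nonneg_right i5 hb
    have : (x' - e') / y' ≤ s' := by linarith
    rwa [div_le_iff₀ hy'] at this

lemma arith_signed {x y x' y' s s' e' a a' b : ℝ} (hyy : 0 < y * y') (hlt : |y| < |y'|)
    (haa : 0 < a * a') (hb : b ≠ 0)
    (i1 : 0 ≤ a * ((x' - s * y') - (x - s * y))) (i2 : 0 ≤ a * (e' - (x - s * y)))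
    (i3 : 0 ≤ a' * ((x - s' * y) - (x' - s' * y')))
    (i4 : 0 ≤ b * ((x - e') / y - (x' - e') / y')) (i5 : 0 ≤ b * (s' - (x' - e') / y'))
    (h4 : ¬ (x' - s * y' = x - s * y ∧ e' = x - s * y)) : False := by
  -- first the case of positive `y`
  have main : ∀ {x y x' y' s s' e' a a' b : ℝ}, 0 < y → y < y' → 0 < a * a' → b ≠ 0 →
      0 ≤ a * ((x' - s * y') - (x - s * y)) → 0 ≤ a * (e' - (x - s * y)) →
      0 ≤ a' * ((x - s' * y) - (x' - s' * y')) →
      0 ≤ b * ((x - e') / y - (x' - e') / y') → 0 ≤ b * (s' - (x' - e') / y') →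
      ¬ (x' - s * y' = x - s * y ∧ e' = x - s * y) → False := by
    intro x y x' y' s s' e' a a' b hy hyy haa hb i1 i2 i3 i4 i5 h4
    rcases lt_or_ge a 0 with ha | ha
    · have ha' : a' < 0 := by
        by_contra hcon
        push Not at hcon
        have := mul_nonpos_of_nonpos_of_nonneg ha.le hcon
        linarith
      exact arith_pos hy hyy ha ha' hb i1 i2 i3 i4 i5 h4
    · have ha0 : 0 < a := by
        rcases ha.lt_or_eq with h | h
        · exact h
        · rw [← h] at haa; simp at haa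
      have ha' : 0 < a' := by
        by_contra hcon
        push Not at hcon
        have := mul_nonpos_of_nonneg_of_nonpos ha0.le hcon
        linarith
      refine arith_pos (x := -x) (y := y) (x' := -x') (y' := y') (s := -s) (s' := -s')
        (e' := -e') (a := -a) (a' := -a') (b := -b) hy hyy (by linarith) (by linarith)
        (neg_ne_zero.2 hb) ?_ ?_ ?_ ?_ ?_ ?_
      · calc 0 ≤ a * ((x' - s * y') - (x - s * y)) := i1
          _ = _ := by ring
      · calc 0 ≤ a * (e' - (x - s * y)) := i2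
          _ = _ := by ring
      · calc 0 ≤ a' * ((x - s' * y) - (x' - s' * y')) := i3
          _ = _ := by ring
      · calc 0 ≤ b * ((x - e') / y - (x' - e') / y') := i4
          _ = _ := by ring
      · calc 0 ≤ b * (s' - (x' - e') / y') := i5
          _ = _ := by ring
      · rintro ⟨e1, e2⟩
        exact h4 ⟨by linarith, by linarith⟩
  rcases lt_or_ge 0 y with hy | hy
  · have hy' : 0 < y' := (pos_iff_pos_of_mul_pos hyy).1 hy
    rw [abs_of_pos hy, abs_of_pos hy'] at hlt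
    exact main hy hlt haa hb i1 i2 i3 i4 i5 h4
  · have hy0 : y < 0 := by
      rcases hy.lt_or_eq with h | h
      · exact h
      · rw [h] at hyy; simp at hyy
    have hy' : y' < 0 := by
      by_contra hcon
      push Not at hcon
      have := mul_nonpos_of_nonpos_of_nonneg hy0.le hcon
      linarith
    rw [abs_of_neg hy0, abs_of_neg hy'] at hlt
    refine main (x := x) (y := -y) (x' := x') (y' := -y') (s := -s) (s' := -s')
      (e' := e') (a := a) (a' := a') (b := -b) (by linarith) hlt haa (neg_ne_zero.2 hb)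
      ?_ ?_ ?_ ?_ ?_ ?_
    · calc 0 ≤ a * ((x' - s * y') - (x - s * y)) := i1
        _ = _ := by ring
    · calc 0 ≤ a * (e' - (x - s * y)) := i2
        _ = _ := by ring
    · calc 0 ≤ a' * ((x - s' * y) - (x' - s' * y')) := i3
        _ = _ := by ring
    · calc 0 ≤ b * ((x - e') / y - (x' - e') / y') := i4
        _ = _ := by rw [div_neg, div_neg]; ring
    · calc 0 ≤ b * (s' - (x' - e') / y') := i5
        _ = _ := by rw [div_neg]; ring
    · rintro ⟨e1, e2⟩
      exact h4 ⟨by linarith, by linarith⟩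

/-- determinant of three coefficient vectors -/
def det3 (u v w : ℝ × ℝ × ℝ) : ℝ :=
  u.1 * (v.2.1 * w.2.2 - v.2.2 * w.2.1) - u.2.1 * (v.1 * w.2.2 - v.2.2 * w.1) +
    u.2.2 * (v.1 * w.2.1 - v.2.1 * w.1)

lemma cramer (m k l t : ℝ × ℝ × ℝ) (r : ℝ × ℝ) : det3 m k l * lf t r =
    det3 t k l * lf m r + det3 m t l * lf k r + det3 m k t * lf l r := by
  simp only [det3, lf]; ring

lemma cramer_zero {m k l t : ℝ × ℝ × ℝ} (hD : det3 m k l ≠ 0) (h1 : det3 t k l = 0)
    (h2 : det3 m t l = 0) (h3 : det3 m k t = 0) : t = 0 := by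
  have e : ∀ r : ℝ × ℝ, lf t r = 0 := by
    intro r
    have := cramer m k l t r
    rw [h1, h2, h3] at this
    simpa [hD] using this
  have e0 := e (0, 0)
  have e1 := e (1, 0)
  have e2 := e (0, 1)
  simp only [lf, mul_zero, mul_one, add_zero, zero_add] at e0 e1 e2
  rw [e0, add_zero] at e1 e2
  ext
  · exact e1
  · exact e2
  · exact e0

/-- a functional which vanishes at a point `s` of the first line and at `p` -/
lemma sup_chart {m k l t : ℝ × ℝ × ℝ} {s p : ℝ × ℝ} (hD : det3 m k l ≠ 0) (ht : t ≠ 0)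
    (hs : lf l s = 0) (hks : lf k s ≠ 0) (hp : lf l p ≠ 0) (hts : lf t s = 0)
    (htp : lf t p = 0) : ∃ a : ℝ, a ≠ 0 ∧ ∀ r, lf t r = a * (lf m r - lf m s / lf k s * lf k r -
      (lf m p / lf l p - lf m s / lf k s * (lf k p / lf l p)) * lf l r) := by
  obtain ⟨a, ha⟩ : ∃ a, a = det3 t k l / det3 m k l := ⟨_, rfl⟩
  obtain ⟨b, hb⟩ : ∃ b, b = det3 m t l / det3 m k l := ⟨_, rfl⟩
  obtain ⟨d, hd⟩ : ∃ d, d = det3 m k t / det3 m k l := ⟨_, rfl⟩
  have ex : ∀ r, lf t r = a * lf m r + b * lf k r + d * lf l r := by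
    intro r
    have := cramer m k l t r
    rw [ha, hb, hd]
    field_simp
    linarith
  have e1 := ex s
  rw [hts, hs, mul_zero, add_zero] at e1
  have hb' : b = - a * (lf m s / lf k s) := by
    field_simp
    linarith
  have e2 := ex p
  rw [htp, hb'] at e2
  have hd' : d = - a * (lf m p / lf l p - lf m s / lf k s * (lf k p / lf l p)) := by
    field_simp
    field_simp at e2
    linarith
  refine ⟨a, ?_, fun r => ?_⟩
  · rintro rfl
    have hb0 : b = 0 := by rw [hb']; ring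
    have hd0 : d = 0 := by rw [hd']; ring
    apply ht
    apply cramer_zero hD
    · exact (div_eq_zero_iff.1 ha.symm).resolve_right hD
    · rw [hb0] at hb
      exact (div_eq_zero_iff.1 hb.symm).resolve_right hD
    · rw [hd0] at hd
      exact (div_eq_zero_iff.1 hd.symm).resolve_right hD
  · rw [ex r, hb', hd']; ring

/-- the supporting functional of a chosen point -/
lemma sup_form {X : Finset (ℝ × ℝ)} {l : ℝ × ℝ × ℝ} (hl : 0 < l.1 ^ 2 + l.2.1 ^ 2)
    {s p : ℝ × ℝ} {e : ℝ} (he : e = 1 ∨ e = -1) (hs : lf l s = 0) (h : Chosen X l s e p) :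
    ∃ t : ℝ × ℝ × ℝ, t ≠ 0 ∧ lf t s = 0 ∧ lf t p = 0 ∧ ∀ r ∈ X, 0 ≤ lf t r * lf l r := by
  obtain ⟨hp, hp0, h1, -, -⟩ := h
  have he0 : e ≠ 0 := by rcases he with rfl | rfl <;> norm_num
  set g := gf l s p with hg
  refine ⟨(e * (g * l.1 + l.2.1), e * (g * l.2.1 - l.1), e * (g * l.2.2 + uf l s)), ?_, ?_, ?_,
    fun r hr => ?_⟩
  · intro h0
    rw [Prod.ext_iff, Prod.ext_iff] at h0
    obtain ⟨z1, z2, -⟩ := h0
    simp only [Prod.fst_zero, Prod.snd_zero, mul_eq_zero, he0, false_or] at z1 z2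
    have : (g ^ 2 + 1) * (l.1 ^ 2 + l.2.1 ^ 2) = 0 := by
      have w1 : l.2.1 = - g * l.1 := by linarith
      have w2 : l.1 = g * l.2.1 := by linarith
      have w3 : l.1 * (g ^ 2 + 1) = 0 := by
        rw [w1] at w2; linear_combination w2
      have w4 : l.1 = 0 := by
        rcases mul_eq_zero.1 w3 with h | h
        · exact h
        · exact absurd h (by positivity)
      rw [w1, w4]; ring
    rcases mul_eq_zero.1 this with h | h
    · exact absurd h (by positivity)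
    · exact absurd h hl.ne'
  · have : lf (e * (g * l.1 + l.2.1), e * (g * l.2.1 - l.1), e * (g * l.2.2 + uf l s)) s =
        e * g * lf l s := by
      simp only [lf, uf]; ring
    rw [this, hs, mul_zero]
  · have : lf (e * (g * l.1 + l.2.1), e * (g * l.2.1 - l.1), e * (g * l.2.2 + uf l s)) p =
        e * (g * lf l p - (uf l p - uf l s)) := by
      simp only [lf, uf]; ring
    rw [this, hg, gf, div_mul_cancel₀ _ hp0]; ring
  · have : lf (e * (g * l.1 + l.2.1), e * (g * l.2.1 - l.1), e * (g * l.2.2 + uf l s)) r =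
        e * (g * lf l r - (uf l r - uf l s)) := by
      simp only [lf, uf]; ring
    rw [this]
    by_cases hr0 : lf l r = 0
    · rw [hr0, mul_zero]
    · have h2 := h1 r hr hr0
      have h3 : uf l r - uf l s = gf l s r * lf l r := by
        rw [gf, div_mul_cancel₀ _ hr0]
      rw [h3]
      have : e * (g * lf l r - gf l s r * lf l r) * lf l r =
          (e * g - e * gf l s r) * (lf l r) ^ 2 := by ring
      rw [this]
      exact mul_nonneg (by linarith) (sq_nonneg _)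

/-- the data of a point which is chosen for two lines -/
structure PD (X : Finset (ℝ × ℝ)) (m k l : ℝ × ℝ × ℝ) (p : ℝ × ℝ) (a a₂ : ℝ)
    (s₁ s₂ : ℝ × ℝ) : Prop where
  pX : p ∈ X
  lp : lf l p ≠ 0
  kp : lf k p ≠ 0
  s₁X : s₁ ∈ X
  s₂X : s₂ ∈ X
  ls₁ : lf l s₁ = 0
  ks₁ : lf k s₁ ≠ 0
  ks₂ : lf k s₂ = 0
  ls₂ : lf l s₂ ≠ 0
  ext : ∀ u ∈ X, ∀ v ∈ X, lf l u ≠ 0 → lf l v ≠ 0 → Btw l u p v → u ≠ p → False
  a0 : a ≠ 0
  a₂0 : a₂ ≠ 0
  sup₁ : ∀ r ∈ X, 0 ≤ (a * (lf m r - lf m s₁ / lf k s₁ * lf k r -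
      (lf m p / lf l p - lf m s₁ / lf k s₁ * (lf k p / lf l p)) * lf l r)) * lf l r
  sup₂ : ∀ r ∈ X, 0 ≤ (a₂ * (lf m r - lf m s₂ / lf l s₂ * lf l r -
      (lf m p / lf k p - lf m s₂ / lf l s₂ * (lf l p / lf k p)) * lf k r)) * lf k r

lemma exists_PD {X : Finset (ℝ × ℝ)} {m k l : ℝ × ℝ × ℝ} (hD : det3 m k l ≠ 0)
    (hl : 0 < l.1 ^ 2 + l.2.1 ^ 2) (hk : 0 < k.1 ^ 2 + k.2.1 ^ 2) {s₁ s₂ p : ℝ × ℝ} {e₁ e₂ : ℝ}
    (he₁ : e₁ = 1 ∨ e₁ = -1) (he₂ : e₂ = 1 ∨ e₂ = -1) (hs₁ : s₁ ∈ X) (hs₂ : s₂ ∈ X)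
    (hl1 : lf l s₁ = 0) (hk1 : lf k s₁ ≠ 0) (hk2 : lf k s₂ = 0) (hl2 : lf l s₂ ≠ 0)
    (h₁ : Chosen X l s₁ e₁ p) (h₂ : Chosen X k s₂ e₂ p) : ∃ a a₂, PD X m k l p a a₂ s₁ s₂ := by
  obtain ⟨t, ht0, hts, htp, ht⟩ := sup_form hl he₁ hl1 h₁
  obtain ⟨t', ht0', hts', htp', ht'⟩ := sup_form hk he₂ hk2 h₂
  have hD' : det3 m l k ≠ 0 := by
    have : det3 m l k = - det3 m k l := by simp only [det3]; ring
    rw [this]; exact neg_ne_zero.2 hD
  obtain ⟨a, ha, hat⟩ := sup_chart hD ht0 hl1 hk1 h₁.2.1 hts htp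
  obtain ⟨a₂, ha₂, hat₂⟩ := sup_chart hD' ht0' hk2 hl2 h₂.2.1 hts' htp'
  refine ⟨a, a₂, ⟨h₁.1, h₁.2.1, h₂.2.1, hs₁, hs₂, hl1, hk1, hk2, hl2, ?_, ha, ha₂, ?_, ?_⟩⟩
  · intro u hu v hv hu0 hv0 hb hup
    exact chosen_ext he₁ h₁ hu hv hu0 hv0 hb hup
  · intro r hr
    rw [← hat r]; exact ht r hr
  · intro r hr
    rw [← hat₂ r]; exact ht' r hr

/-- a vector on which three independent coefficient vectors vanish is zero -/
lemma vec_zero {m k l : ℝ × ℝ × ℝ} (hD : det3 m k l ≠ 0) {x y z : ℝ}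
    (h1 : m.1 * x + m.2.1 * y + m.2.2 * z = 0) (h2 : k.1 * x + k.2.1 * y + k.2.2 * z = 0)
    (h3 : l.1 * x + l.2.1 * y + l.2.2 * z = 0) : x = 0 ∧ y = 0 ∧ z = 0 := by
  refine ⟨?_, ?_, ?_⟩
  · have : det3 m k l * x = 0 := by
      simp only [det3]
      linear_combination (k.2.1 * l.2.2 - k.2.2 * l.2.1) * h1 -
        (m.2.1 * l.2.2 - m.2.2 * l.2.1) * h2 + (m.2.1 * k.2.2 - m.2.2 * k.2.1) * h3
    simpa [hD] using this
  · have : det3 m k l * y = 0 := by
      simp only [det3]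
      linear_combination (-(k.1 * l.2.2 - k.2.2 * l.1)) * h1 +
        (m.1 * l.2.2 - m.2.2 * l.1) * h2 - (m.1 * k.2.2 - m.2.2 * k.1) * h3
    simpa [hD] using this
  · have : det3 m k l * z = 0 := by
      simp only [det3]
      linear_combination (k.1 * l.2.1 - k.2.1 * l.1) * h1 -
        (m.1 * l.2.1 - m.2.1 * l.1) * h2 + (m.1 * k.2.1 - m.2.1 * k.1) * h3
    simpa [hD] using this

lemma btw_of_chart {m k l : ℝ × ℝ × ℝ} (hD : det3 m k l ≠ 0) {a p b : ℝ × ℝ} {c : ℝ}
    (ha : lf l a ≠ 0) (hp : lf l p ≠ 0) (hb : lf l b ≠ 0) (hc0 : 0 < c) (hc1 : c < 1)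
    (h1 : lf m p / lf l p = (1 - c) * (lf m a / lf l a) + c * (lf m b / lf l b))
    (h2 : lf k p / lf l p = (1 - c) * (lf k a / lf l a) + c * (lf k b / lf l b)) :
    Btw l a p b := by
  have h3 : lf l p / lf l p = (1 - c) * (lf l a / lf l a) + c * (lf l b / lf l b) := by
    rw [div_self ha, div_self hp, div_self hb]; ring
  have ex : ∀ t : ℝ × ℝ × ℝ, ∀ r : ℝ × ℝ, lf t r / lf l r =
      t.1 * (r.1 / lf l r) + t.2.1 * (r.2 / lf l r) + t.2.2 * (1 / lf l r) := by
    intro t r; simp only [lf]; ring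
  rw [ex, ex, ex] at h1 h2 h3
  obtain ⟨z1, z2, z3⟩ := vec_zero hD
    (x := p.1 / lf l p - ((1 - c) * (a.1 / lf l a) + c * (b.1 / lf l b)))
    (y := p.2 / lf l p - ((1 - c) * (a.2 / lf l a) + c * (b.2 / lf l b)))
    (z := 1 / lf l p - ((1 - c) * (1 / lf l a) + c * (1 / lf l b)))
    (by linear_combination h1) (by linear_combination h2) (by linear_combination h3)
  exact ⟨c, hc0, hc1, by linarith, by linarith, by linarith⟩

lemma eq_of_chart {m k l : ℝ × ℝ × ℝ} (hD : det3 m k l ≠ 0) {a p : ℝ × ℝ}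
    (ha : lf l a ≠ 0) (hp : lf l p ≠ 0)
    (h1 : lf m p / lf l p = lf m a / lf l a) (h2 : lf k p / lf l p = lf k a / lf l a) :
    p = a := by
  have h3 : lf l p / lf l p = lf l a / lf l a := by
    rw [div_self ha, div_self hp]
  have ex : ∀ t : ℝ × ℝ × ℝ, ∀ r : ℝ × ℝ, lf t r / lf l r =
      t.1 * (r.1 / lf l r) + t.2.1 * (r.2 / lf l r) + t.2.2 * (1 / lf l r) := by
    intro t r; simp only [lf]; ring
  rw [ex, ex] at h1 h2 h3
  obtain ⟨z1, z2, z3⟩ := vec_zero hD
    (x := p.1 / lf l p - a.1 / lf l a) (y := p.2 / lf l p - a.2 / lf l a)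
    (z := 1 / lf l p - 1 / lf l a)
    (by linear_combination h1) (by linear_combination h2) (by linear_combination h3)
  have e : lf l p = lf l a := by
    have : (1 : ℝ) / lf l p = 1 / lf l a := by linarith
    rw [one_div, one_div] at this
    exact inv_injective this
  rw [e] at z1 z2
  ext
  · have : p.1 / lf l a = a.1 / lf l a := by linarith
    exact (div_left_inj' ha).1 this
  · have : p.2 / lf l a = a.2 / lf l a := by linarith
    exact (div_left_inj' ha).1 this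

lemma PD.half {X : Finset (ℝ × ℝ)} {m k l : ℝ × ℝ × ℝ} (hD : det3 m k l ≠ 0) {p p' : ℝ × ℝ}
    {a a' a₂ a₂' : ℝ} {s₁ s₂ s₁' s₂' : ℝ × ℝ} (h : PD X m k l p a a₂ s₁ s₂)
    (h' : PD X m k l p' a' a₂' s₁' s₂') (haa : 0 < a * a')
    (hyy : 0 < lf k p / lf l p * (lf k p' / lf l p'))
    (hlt : |lf k p / lf l p| < |lf k p' / lf l p'|) : False := by
  have dv : ∀ {c d : ℝ}, d ≠ 0 → 0 ≤ c * d → 0 ≤ c / d := by
    intro c d hd hc
    have : c / d = c * d / d ^ 2 := by field_simp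
    rw [this]; positivity
  have i1 := dv h'.lp (h.sup₁ p' h'.pX)
  have i2 := dv h'.ls₂ (h.sup₁ s₂' h'.s₂X)
  have i3 := dv h.lp (h'.sup₁ p h.pX)
  have i4 := dv h.kp (h'.sup₂ p h.pX)
  have i5 := dv h'.ks₁ (h'.sup₂ s₁' h'.s₁X)
  have lp := h.lp
  have lp' := h'.lp
  have kp := h.kp
  have kp' := h'.kp
  have ls := h'.ls₂
  have ks := h'.ks₁
  obtain ⟨S, hS⟩ : ∃ S, S = lf m s₁ / lf k s₁ := ⟨_, rfl⟩
  obtain ⟨S', hS'⟩ : ∃ S', S' = lf m s₁' / lf k s₁' := ⟨_, rfl⟩
  obtain ⟨E', hE'⟩ : ∃ E', E' = lf m s₂' / lf l s₂' := ⟨_, rfl⟩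
  obtain ⟨x, hx⟩ : ∃ x, x = lf m p / lf l p := ⟨_, rfl⟩
  obtain ⟨y, hy⟩ : ∃ y, y = lf k p / lf l p := ⟨_, rfl⟩
  obtain ⟨x', hx'⟩ : ∃ x', x' = lf m p' / lf l p' := ⟨_, rfl⟩
  obtain ⟨y', hy'⟩ : ∃ y', y' = lf k p' / lf l p' := ⟨_, rfl⟩
  rw [← hy, ← hy'] at hyy hlt
  rw [← hS, ← hx, ← hy] at i1 i2
  rw [← hS', ← hx', ← hy'] at i3
  rw [← hE'] at i4 i5
  have mp : lf m p = x * lf l p := by rw [hx]; field_simp
  have mp' : lf m p' = x' * lf l p' := by rw [hx']; field_simp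
  have kpe : lf k p = y * lf l p := by rw [hy]; field_simp
  have kpe' : lf k p' = y' * lf l p' := by rw [hy']; field_simp
  have ms : lf m s₂' = E' * lf l s₂' := by rw [hE']; field_simp
  have ms' : lf m s₁' = S' * lf k s₁' := by rw [hS']; field_simp
  have y0 : y ≠ 0 := by rintro h0; rw [h0] at kpe; apply kp; rw [kpe, zero_mul]
  have y0' : y' ≠ 0 := by rintro h0; rw [h0] at kpe'; apply kp'; rw [kpe', zero_mul]
  refine arith_signed (x := x) (y := y) (x' := x') (y' := y') (s := S) (s' := S') (e' := E')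
    (a := a) (a' := a') (b := a₂') hyy hlt haa h'.a₂0 ?_ ?_ ?_ ?_ ?_ ?_
  · calc 0 ≤ _ := i1
      _ = _ := by rw [mp', kpe']; field_simp; try ring
  · calc 0 ≤ _ := i2
      _ = _ := by rw [ms, h'.ks₂]; field_simp; try ring
  · calc 0 ≤ _ := i3
      _ = _ := by rw [mp, kpe]; field_simp; try ring
  · calc 0 ≤ _ := i4
      _ = _ := by rw [mp, kpe, mp', kpe']; field_simp; try ring
  · calc 0 ≤ _ := i5
      _ = _ := by rw [ms', h'.ls₁, mp', kpe']; field_simp; try ring
  · rintro ⟨t1, t2⟩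
    have hc0 : 0 < y / y' := by
      have : y / y' = y * y' / y' ^ 2 := by field_simp
      rw [this]; positivity
    have hc1 : y / y' < 1 := by
      have : |y / y'| < 1 := by
        rw [abs_div, div_lt_one (abs_pos.2 y0')]; exact hlt
      exact (abs_lt.1 this).2
    refine h.ext s₂' h'.s₂X p' h'.pX h'.ls₂ h'.lp ?_ ?_
    · refine btw_of_chart hD h'.ls₂ h.lp h'.lp hc0 hc1 ?_ ?_
      · rw [← hx, ← hE', ← hx']
        field_simp
        have e1 : x = E' + S * y := by linarith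
        have e2 : x' = E' + S * y' := by linarith
        rw [e1, e2]; ring
      · rw [← hy, ← hy', h'.ks₂]
        field_simp; try ring
    · rintro rfl
      exact h.kp h'.ks₂

theorem PD.unique {X : Finset (ℝ × ℝ)} {m k l : ℝ × ℝ × ℝ} (hD : det3 m k l ≠ 0)
    {p p' : ℝ × ℝ} {a a' a₂ a₂' : ℝ} {s₁ s₂ s₁' s₂' : ℝ × ℝ} (h : PD X m k l p a a₂ s₁ s₂)
    (h' : PD X m k l p' a' a₂' s₁' s₂') (haa : 0 < a * a')
    (hyy : 0 < lf k p / lf l p * (lf k p' / lf l p')) : p = p' := by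
  rcases lt_trichotomy (|lf k p / lf l p|) (|lf k p' / lf l p'|) with hlt | heq | hlt
  · exact (PD.half hD h h' haa hyy hlt).elim
  · have hy : lf k p / lf l p = lf k p' / lf l p' := by
      rcases abs_eq_abs.1 heq with h1 | h1
      · exact h1
      · exfalso
        rw [h1] at hyy
        nlinarith [sq_nonneg (lf k p' / lf l p')]
    have dv : ∀ {c d : ℝ}, d ≠ 0 → 0 ≤ c * d → 0 ≤ c / d := by
      intro c d hd hc
      have : c / d = c * d / d ^ 2 := by field_simp
      rw [this]; positivity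
    have i1 := dv h'.lp (h.sup₁ p' h'.pX)
    have i3 := dv h.lp (h'.sup₁ p h.pX)
    have lp := h.lp
    have lp' := h'.lp
    have j1 : 0 ≤ a * (lf m p' / lf l p' - lf m p / lf l p) := by
      have e : a * (lf m p' - lf m s₁ / lf k s₁ * lf k p' -
          (lf m p / lf l p - lf m s₁ / lf k s₁ * (lf k p / lf l p)) * lf l p') / lf l p' =
          a * (lf m p' / lf l p' - lf m p / lf l p -
            lf m s₁ / lf k s₁ * (lf k p' / lf l p' - lf k p / lf l p)) := by
        generalize lf m s₁ / lf k s₁ = S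
        field_simp; try ring
      rw [e, hy, sub_self, mul_zero, sub_zero] at i1
      exact i1
    have j3 : 0 ≤ a' * (lf m p / lf l p - lf m p' / lf l p') := by
      have e : a' * (lf m p - lf m s₁' / lf k s₁' * lf k p -
          (lf m p' / lf l p' - lf m s₁' / lf k s₁' * (lf k p' / lf l p')) * lf l p) / lf l p =
          a' * (lf m p / lf l p - lf m p' / lf l p' -
            lf m s₁' / lf k s₁' * (lf k p / lf l p - lf k p' / lf l p')) := by
        generalize lf m s₁' / lf k s₁' = S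
        field_simp; try ring
      rw [e, hy, sub_self, mul_zero, sub_zero] at i3
      exact i3
    have hx : lf m p / lf l p = lf m p' / lf l p' := by
      by_contra hne
      have hd : lf m p' / lf l p' - lf m p / lf l p ≠ 0 := sub_ne_zero.2 (Ne.symm hne)
      have : 0 ≤ (a * (lf m p' / lf l p' - lf m p / lf l p)) *
        (a' * (lf m p / lf l p - lf m p' / lf l p')) := mul_nonneg j1 j3
      have e : (a * (lf m p' / lf l p' - lf m p / lf l p)) *
        (a' * (lf m p / lf l p - lf m p' / lf l p')) =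
        - (a * a' * (lf m p' / lf l p' - lf m p / lf l p) ^ 2) := by ring
      rw [e] at this
      have : 0 < a * a' * (lf m p' / lf l p' - lf m p / lf l p) ^ 2 := by positivity
      linarith
    exact eq_of_chart hD h'.lp h.lp hx hy
  · have hyy' : 0 < lf k p' / lf l p' * (lf k p / lf l p) := by rw [mul_comm]; exact hyy
    have haa' : 0 < a' * a := by rw [mul_comm]; exact haa
    exact (PD.half hD h' h haa' hyy' hlt).elim

end Run7.h188
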